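import Pool.Agent.H246CP.Stubs

/-!
# Project CP, task BKN: a bump does not change the knot
-/

set_option autoImplicit false

namespace CP

open KN

namespace BKN

noncomputable section

theorem dV_self (d : Dir) : dV (ev d) (ev d) = 1 := by
  cases d <;> simp [dV, ev, emb, vec]

theorem dV_perp {d e : Dir} (h : perp d e) : dV (ev d) (ev e) = 0 := by
  cases d <;> cases e <;> first
    | exact absurd rfl h
    | simp [dV, ev, emb, vec]

theorem dV_comm (x y : V) : dV x y = dV y x := by
  unfold dV; ring

theorem dV_add_left (x y z : V) : dV (x + y) z = dV x z + dV y z := by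
  simp only [dV, Prod.fst_add, Prod.snd_add]; ring

theorem dV_smul_left (a : ℝ) (x z : V) : dV (a • x) z = a * dV x z := by
  simp only [dV, Prod.smul_fst, Prod.smul_snd, smul_eq_mul]; ring

theorem dV_add_right (x y z : V) : dV x (y + z) = dV x y + dV x z := by
  simp only [dV, Prod.fst_add, Prod.snd_add]; ring

theorem dV_smul_right (a : ℝ) (x z : V) : dV x (a • z) = a * dV x z := by
  simp only [dV, Prod.smul_fst, Prod.smul_snd, smul_eq_mul]; ring

theorem dV_zero_left (x : V) : dV 0 x = 0 := by simp [dV]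

theorem emb_add (p q : Z3) : emb (p + q) = emb p + emb q := by
  simp [emb]

theorem sum_ev (w : List Dir) : (w.map ev).sum = emb (pos w) := by
  induction w with
  | nil => simp [pos, emb]; rfl
  | cons d w ih =>
    rw [List.map_cons, List.sum_cons, ih, pos, emb_add, add_comm]
    rfl

/-- the moving vertex -/
def Am (d e : Dir) (t : ℝ) : V := (1 / 2 : ℝ) • ev d + (t * (√3 / 2) : ℝ) • ev e

theorem lerp_A (d e : Dir) (t u : ℝ) :
    lerp 0 (0 + Am d e t) u = (u / 2) • ev d + (u * t * (√3 / 2)) • ev e := by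
  unfold lerp Am
  rw [smul_zero, zero_add, zero_add, smul_add, smul_smul, smul_smul]
  congr 1
  · congr 1; ring
  · congr 1; ring

theorem lerp_B (d e : Dir) (t u : ℝ) :
    lerp (0 + Am d e t) (0 + Am d e t + (ev d - Am d e t)) u =
      ((1 + u) / 2) • ev d + ((1 - u) * t * (√3 / 2)) • ev e := by
  unfold lerp Am
  module

theorem dd_val (d e : Dir) (h : perp d e) (a b : ℝ) :
    dV (a • ev d + b • ev e) (ev d) = a := by
  rw [dV_add_left, dV_smul_left, dV_smul_left, dV_self, dV_comm (ev e), dV_perp h]; ring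

theorem dd_sq (d e : Dir) (h : perp d e) (a b : ℝ) :
    dV (a • ev d + b • ev e) (a • ev d + b • ev e) = a ^ 2 + b ^ 2 := by
  rw [dV_add_left, dV_smul_left, dV_smul_left, dV_add_right, dV_add_right, dV_smul_right,
    dV_smul_right, dV_smul_right, dV_smul_right, dV_self, dV_self, dV_comm (ev e) (ev d),
    dV_perp h]
  ring

theorem sqrt3_sq : (√3 : ℝ) ^ 2 = 3 := Real.sq_sqrt (by norm_num)

theorem mem_RR (d e : Dir) (h : perp d e) (a c : ℝ) (ha : 0 < a) (ha1 : a < 1)
    (hc : 0 ≤ c) (hc1 : c ≤ 1) : a • ev d + (c * (√3 / 2)) • ev e ∈ RR d := by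
  refine ⟨a, (c * (√3 / 2)) • ev e, ha, ha1, ?_, ?_, rfl⟩
  · rw [dV_smul_left, dV_comm, dV_perp h, mul_zero]
  · rw [dV_smul_left, dV_smul_right, dV_self]
    have h3 := sqrt3_sq
    have : c * (√3 / 2) * (c * (√3 / 2) * 1) = c ^ 2 * (3 / 4) := by
      calc c * (√3 / 2) * (c * (√3 / 2) * 1) = c ^ 2 * (√3 ^ 2 / 4) := by ring
        _ = _ := by rw [h3]
    rw [this]
    nlinarith

/-- the side vectors -/
def es (d e : Dir) (S : List Dir) (t : ℝ) : List V :=
  [Am d e t, ev d - Am d e t] ++ S.map ev

theorem simple_es (hkey : Z_key) (hreg : Z_regR) (d e : Dir) (S : List Dir) (h : perp d e)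
    (hS : SAP (d :: S)) (t : ℝ) (h0 : 0 ≤ t) (h1 : t ≤ 1) : Simple (poly (es d e S t)) := by
  have hSne : S ≠ [] := by
    rintro rfl
    have := hS.1
    simp at this
  have hchain : chain 0 (ends 0 [Am d e t, ev d - Am d e t]) =
      [(0, 0 + Am d e t), (0 + Am d e t, 0 + Am d e t + (ev d - Am d e t))] := rfl
  refine hkey [d] S [Am d e t, ev d - Am d e t] (RR d) hS (by simp) hSne (by simp) ?_ ?_ ?_ ?_ ?_
  · simp
  · intro x hx hx0
    simp only [List.mem_cons, List.not_mem_nil, or_false] at hx
    rcases hx with rfl | rfl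
    · have h2 : dV (Am d e t) (ev d) = 1 / 2 := dd_val d e h _ _
      rw [hx0, dV_zero_left] at h2
      norm_num at h2
    · have h2 : ev d - Am d e t = (1 / 2 : ℝ) • ev d + (-(t * (√3 / 2)) : ℝ) • ev e := by
        unfold Am; module
      have h3 : dV (ev d - Am d e t) (ev d) = 1 / 2 := by rw [h2]; exact dd_val d e h _ _
      rw [hx0, dV_zero_left] at h3
      norm_num at h3
  · rw [hchain]
    refine List.pairwise_pair.mpr ?_
    intro u v hu hu1 hv hv1 heq
    simp only at heq
    rw [lerp_A, lerp_B] at heq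
    have := congrArg (fun x => dV x (ev d)) heq
    simp only [dd_val d e h] at this
    linarith
  · rw [hchain]
    intro x hx s hs hs1
    simp only [List.mem_cons, List.not_mem_nil, or_false] at hx
    rcases hx with rfl | rfl
    · rcases hs.eq_or_lt with rfl | hs0
      · left; simp [lerp]
      · right
        simp only [lerp_A]
        exact mem_RR d e h (s / 2) (s * t) (by linarith) (by linarith) (by positivity)
          (by nlinarith)
    · right
      simp only [lerp_B]
      exact mem_RR d e h ((1 + s) / 2) ((1 - s) * t) (by linarith) (by linarith)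
        (mul_nonneg (by linarith) h0) (by nlinarith)
  · exact hreg d S hS

theorem poly_es (d e : Dir) (S : List Dir) (t : ℝ) :
    poly (es d e S t) = 0 :: Am d e t :: vsf (ev d) (S.map ev) := by
  show 0 :: (0 + Am d e t) :: vsf (0 + Am d e t + (ev d - Am d e t)) (S.map ev) = _
  rw [zero_add, add_sub_cancel]

/-- subdividing the first edge -/
theorem ps_sub (q : V) (l : List V) :
    ps (0 :: (1 / 2 : ℝ) • q :: (q :: l)) = ps (0 :: q :: l) := by
  have e1 : edges (0 :: (1 / 2 : ℝ) • q :: (q :: l)) =
      (0, (1 / 2 : ℝ) • q) :: ((1 / 2 : ℝ) • q, q) :: chain q (l ++ [0]) := rfl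
  have e2 : edges (0 :: q :: l) = (0, q) :: chain q (l ++ [0]) := rfl
  ext x
  unfold ps
  rw [e1, e2]
  simp only [Set.mem_setOf_eq, List.mem_cons]
  constructor
  · rintro ⟨e, he, u, hu, hu1, rfl⟩
    rcases he with rfl | rfl | he
    · refine ⟨(0, q), Or.inl rfl, u / 2, by linarith, by linarith, ?_⟩
      simp only [lerp]; module
    · refine ⟨(0, q), Or.inl rfl, (1 + u) / 2, by linarith, by linarith, ?_⟩
      simp only [lerp]; module
    · exact ⟨e, Or.inr he, u, hu, hu1, rfl⟩
  · rintro ⟨e, he, u, hu, hu1, rfl⟩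
    rcases he with rfl | he
    · rcases le_total u (1 / 2) with h | h
      · refine ⟨(0, (1 / 2 : ℝ) • q), Or.inl rfl, 2 * u, by linarith, by linarith, ?_⟩
        simp only [lerp]; module
      · refine ⟨((1 / 2 : ℝ) • q, q), Or.inr (Or.inl rfl), 2 * u - 1, by linarith,
          by linarith, ?_⟩
        simp only [lerp]; module
    · exact ⟨e, Or.inr (Or.inr he), u, hu, hu1, rfl⟩

theorem vsf_ne (q : V) (l : List V) (h : l ≠ []) : ∃ l', vsf q l = q :: l' := by
  cases l with
  | nil => exact absurd rfl h
  | cons a l => exact ⟨_, rfl⟩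

end

end BKN

open BKN in
theorem Z_bkn_proof (hkey : Z_key) (hreg : Z_regR) (hneg : Z_neg) (hiso : T_iso)
    (hnaf : X_naf) : Z_bkn := by
  intro d e S h hS hN
  have hSne : S ≠ [] := by
    rintro rfl
    have := hS.1
    simp at this
  have hbp : bp d e ++ S.map ev = es d e S 1 := by
    unfold bp es Am
    congr 1
    rw [one_mul]
    congr 2
    module
  have hsimple := simple_es hkey hreg d e S h hS
  refine ⟨?_, ?_, ?_, ?_⟩
  · -- knotted
    set L := vsf (ev d) (S.map ev) with hL
    let γ : ℝ → Fin (L.length + 2) → V := fun t => Fin.cons 0 (Fin.cons (Am d e t) L.get)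
    have hof : ∀ t, List.ofFn (γ t) = poly (es d e S t) := by
      intro t
      rw [poly_es]
      simp only [γ]
      rw [List.ofFn_cons, List.ofFn_cons, List.ofFn_get]
    have hcont : ∀ i, Continuous (fun t => γ t i) := by
      intro i
      refine Fin.cases ?_ (fun i => ?_) i
      · simp only [γ, Fin.cons_zero]; exact continuous_const
      · refine Fin.cases ?_ (fun i => ?_) i
        · simp only [γ, Fin.cons_succ, Fin.cons_zero]
          unfold Am
          fun_prop
        · simp only [γ, Fin.cons_succ]; exact continuous_const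
    obtain ⟨φ, hφ⟩ := hiso (L.length + 2) γ hcont (fun t h0 h1 => by
      rw [hof]; exact hsimple t h0 h1)
    rw [hof, hof] at hφ
    rw [hbp]
    have hpoly0 : ps (poly (es d e S 0)) = ps (poly ((d :: S).map ev)) := by
      rw [poly_es]
      have h2 : poly ((d :: S).map ev) = 0 :: L := by
        show 0 :: vsf (0 + ev d) (S.map ev) = 0 :: L
        rw [zero_add]
      rw [h2]
      obtain ⟨l', hl'⟩ := vsf_ne (ev d) (S.map ev) (by simpa using hSne)
      rw [← hL] at hl' ⊢
      rw [hl']
      have h3 : Am d e 0 = (1 / 2 : ℝ) • ev d := by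
        unfold Am; rw [zero_mul, zero_smul, add_zero]
      rw [h3]
      exact ps_sub (ev d) l'
    have hn1 : NAf (poly ((d :: S).map ev)) :=
      hnaf _ _ (Homeomorph.neg V) (hneg _ hS) hN
    exact hnaf _ _ φ (by rw [← hpoly0]; exact hφ) hn1
  · -- unit sides
    intro x hx
    rw [List.mem_append] at hx
    rcases hx with hx | hx
    · simp only [bp, List.mem_cons, List.not_mem_nil, or_false] at hx
      have h3 := sqrt3_sq
      rcases hx with rfl | rfl
      · rw [dd_sq d e h]; linarith [h3]
      · rw [sub_eq_add_neg, ← neg_smul, dd_sq d e h]; nlinarith [h3]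
    · obtain ⟨f, _, rfl⟩ := List.mem_map.mp hx
      exact dV_self f
  · rw [hbp]
    unfold es
    rw [List.sum_append, sum_ev]
    have h2 : pos S + vec d = 0 := hS.2.1
    have h3 : emb (pos S) + ev d = 0 := by
      show emb (pos S) + emb (vec d) = 0
      rw [← emb_add, h2]; simp [emb]
    simp only [List.sum_cons, List.sum_nil, add_zero, add_sub_cancel]
    rw [add_comm]; exact h3
  · rw [hbp]; exact hsimple 1 zero_le_one le_rfl

end CP
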