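import Pool.Agent.H246CP.Stubs

/-! Task BRID: comparison of the two notions of simple polygons. -/

set_option autoImplicit false

namespace CP

open Matrix KN Filter Topology

noncomputable section

namespace BRID

/-! ### lists -/

theorem chain_getElem (p : V) (l : List V) (i : ℕ) (h : i < (chain p l).length) :
    (chain p l)[i] = ((p :: l).getD i 0, l.getD i 0) := by
  induction l generalizing p i with
  | nil => simp [chain] at h
  | cons q l ih =>
    cases i with
    | zero => simp [chain]
    | succ i =>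
      simp only [chain, List.getElem_cons_succ, List.getD_cons_succ]
      rw [ih q i (by simpa [chain] using h)]

theorem chain_length (p : V) (l : List V) : (chain p l).length = l.length := by
  induction l generalizing p with
  | nil => rfl
  | cons q l ih => simp [chain, ih]

theorem edges_ofFn (n : ℕ) (g : Fin (n + 1) → V) :
    edges (List.ofFn g) = List.ofFn (fun i => (g i, g (i + 1))) := by
  have key : edges (List.ofFn g) =
      chain (g 0) (List.ofFn (fun j : Fin n => g j.succ) ++ [g 0]) := by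
    rw [List.ofFn_succ]; rfl
  rw [key]
  apply List.ext_getElem
  · rw [chain_length]; simp
  · intro i h1 h2
    have hi : i < n + 1 := by simpa using h2
    rw [List.getElem_ofFn, chain_getElem]
    congr 1
    · cases i with
      | zero => simp
      | succ j =>
        have hj : j < n := by omega
        rw [List.getD_cons_succ, List.getD_append _ _ _ _ (by simpa using hj),
          List.getD_eq_getElem _ _ (by simpa using hj), List.getElem_ofFn]
        rfl
    · by_cases hin : i < n
      · rw [List.getD_append _ _ _ _ (by simpa using hin),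
          List.getD_eq_getElem _ _ (by simpa using hin), List.getElem_ofFn]
        congr 1
        apply Fin.ext
        rw [Fin.val_add_one_of_lt (by rw [Fin.lt_def]; simpa using hin)]
        rfl
      · have : i = n := by omega
        subst this
        rw [List.getD_append_right _ _ _ _ (by simp)]
        simp only [List.length_ofFn, Nat.sub_self, List.getD_cons_zero]
        congr 1
        symm
        exact Fin.last_add_one i

theorem vsf_ofFn : ∀ (n : ℕ) (f : Fin n → V) (p : V), vsf p (List.ofFn f) =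
    List.ofFn (fun k : Fin n => p + ∑ i : Fin n, if i.val < k.val then f i else 0)
  | 0, f, p => by simp [vsf]
  | n + 1, f, p => by
    rw [List.ofFn_succ, List.ofFn_succ]
    change p :: vsf (p + f 0) _ = _
    rw [vsf_ofFn n]
    congr 1
    · simp
    · congr 1
      funext k
      rw [Fin.sum_univ_succ]
      simp [add_assoc]

/-! ### the map to the other model -/

/-- the linear map -/
def tv : R3 →ₗ[ℝ] V where
  toFun := toV
  map_add' _ _ := rfl
  map_smul' _ _ := rfl

theorem tv_apply (x : R3) : tv x = toV x := rfl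

theorem toV_inj {x y : R3} (h : toV x = toV y) : x = y := by
  unfold toV at h
  simp only [Prod.mk.injEq] at h
  obtain ⟨h0, h1, h2⟩ := h
  funext i
  fin_cases i
  · exact h0
  · exact h1
  · exact h2

theorem toV_vtx {n : ℕ} (u : Fin n → R3) (k : ℕ) :
    toV (vtx (one n) u k) = ∑ i : Fin n, if i.val < k then toV (u i) else 0 := by
  unfold vtx
  rw [← tv_apply, map_sum]
  apply Finset.sum_congr rfl
  intro i _
  split_ifs with h
  · rw [one, one_smul, tv_apply]
  · rw [map_zero]

theorem vtx_zero {n : ℕ} (u : Fin n → R3) : vtx (one n) u 0 = 0 := by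
  unfold vtx
  simp

theorem vtx_last {n : ℕ} (u : Fin n → R3) (h : ∑ i, u i = 0) : vtx (one n) u n = 0 := by
  unfold vtx
  rw [← h]
  apply Finset.sum_congr rfl
  intro i _
  rw [if_pos i.2, one, one_smul]

theorem vtx_succ {n : ℕ} (u : Fin n → R3) (i : Fin n) :
    vtx (one n) u (i.val + 1) = vtx (one n) u i.val + u i := by
  unfold vtx
  have h1 : u i = ∑ j : Fin n, if j = i then u j else 0 := by simp
  conv_rhs => rw [h1]
  rw [← Finset.sum_add_distrib]
  apply Finset.sum_congr rfl
  intro j _
  rcases lt_trichotomy j i with h | h | h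
  · rw [if_pos (by omega), if_pos (by omega), if_neg (by omega), add_zero]
  · subst h
    rw [if_pos (by omega), if_neg (by omega), if_pos rfl, zero_add, one, one_smul]
  · rw [if_neg (by omega), if_neg (by omega), if_neg (by omega), add_zero]

theorem lerp_eq {n : ℕ} (u : Fin n → R3) (a b : ℕ) (t : ℝ) :
    lerp (toV (vtx (one n) u a)) (toV (vtx (one n) u b)) t =
      toV ((1 - t) • vtx (one n) u a + t • vtx (one n) u b) := by
  rw [← tv_apply, ← tv_apply, ← tv_apply, map_add, map_smul, map_smul]
  rfl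

theorem mem_side {n : ℕ} (u : Fin n → R3) (i : Fin n) (x : R3) :
    x ∈ side (one n) u i ↔ ∃ t : ℝ, 0 ≤ t ∧ t ≤ 1 ∧
      lerp (toV (vtx (one n) u i.val)) (toV (vtx (one n) u (i.val + 1))) t = toV x := by
  unfold side
  rw [segment_eq_image]
  constructor
  · rintro ⟨t, ht, rfl⟩
    exact ⟨t, ht.1, ht.2, lerp_eq _ _ _ _⟩
  · rintro ⟨t, h0, h1, h⟩
    rw [lerp_eq] at h
    exact ⟨t, ⟨h0, h1⟩, toV_inj h⟩

/-! ### the comparison -/

/-- self-intersections in the other model -/
def SI' {m : ℕ} (g : Fin (m + 1) → V) : Prop :=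
  (∃ i j : Fin (m + 1), i ≠ j ∧ j ≠ i + 1 ∧ i ≠ j + 1 ∧ ∃ s t : ℝ, 0 ≤ s ∧ s ≤ 1 ∧ 0 ≤ t ∧ t ≤ 1 ∧
    lerp (g i) (g (i + 1)) s = lerp (g j) (g (j + 1)) t) ∨
  (∃ i : Fin (m + 1), ∃ s t : ℝ, 0 ≤ s ∧ s ≤ 1 ∧ 0 ≤ t ∧ t ≤ 1 ∧
    lerp (g i) (g (i + 1)) s = lerp (g (i + 1)) (g (i + 1 + 1)) t ∧
    lerp (g i) (g (i + 1)) s ≠ g (i + 1))

theorem two_ne {m : ℕ} (hm : 2 ≤ m) : (1 : Fin (m + 1)) + 1 ≠ 0 := by
  intro h
  have h1 := congrArg Fin.val h
  rw [Fin.val_add, Fin.val_one', Nat.mod_eq_of_lt (by omega : 1 < m + 1),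
    Nat.mod_eq_of_lt (by omega : 1 + 1 < m + 1)] at h1
  simp at h1

theorem one_ne {m : ℕ} (hm : 2 ≤ m) : (1 : Fin (m + 1)) ≠ 0 := by
  intro h
  have h1 := congrArg Fin.val h
  rw [Fin.val_one', Nat.mod_eq_of_lt (by omega : 1 < m + 1)] at h1
  simp at h1

theorem main {m : ℕ} (hm : 2 ≤ m) (g : Fin (m + 1) → V) (hg : ∀ i, g i ≠ g (i + 1)) :
    SI' g ↔ ¬ ∀ i j, i ≠ j → Disj (g i, g (i + 1)) (g j, g (j + 1)) := by
  have hi1 : ∀ i : Fin (m + 1), i ≠ i + 1 := fun i h => one_ne hm (by simpa using h)
  have hi2 : ∀ i : Fin (m + 1), i ≠ i + 1 + 1 := fun i h => two_ne hm (by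
    rw [add_assoc] at h
    exact (add_eq_left.mp h.symm))
  -- a closed point is a half-open point of the same or of the next edge
  have hopen : ∀ (i : Fin (m + 1)) (s : ℝ), 0 ≤ s → s ≤ 1 → ∃ i' : Fin (m + 1), ∃ s' : ℝ,
      (i' = i ∧ s' = s ∨ i' = i + 1 ∧ s = 1) ∧ 0 ≤ s' ∧ s' < 1 ∧
      lerp (g i') (g (i' + 1)) s' = lerp (g i) (g (i + 1)) s := by
    intro i s h0 h1
    rcases h1.lt_or_eq with h | h
    · exact ⟨i, s, Or.inl ⟨rfl, rfl⟩, h0, h, rfl⟩
    · refine ⟨i + 1, 0, Or.inr ⟨rfl, h⟩, le_rfl, one_pos, ?_⟩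
      rw [h, lerp_zero, lerp_one]
  constructor
  · rintro h hD
    rcases h with ⟨i, j, hij, hij1, hij2, s, t, hs0, hs1, ht0, ht1, heq⟩ | ⟨i, s, t, hs0, hs1, ht0, ht1, heq, hne⟩
    · obtain ⟨i', s', hi', hs0', hs1', he1⟩ := hopen i s hs0 hs1
      obtain ⟨j', t', hj', ht0', ht1', he2⟩ := hopen j t ht0 ht1
      have hij' : i' ≠ j' := by
        rcases hi' with ⟨rfl, _⟩ | ⟨rfl, _⟩ <;> rcases hj' with ⟨rfl, _⟩ | ⟨rfl, _⟩
        · exact hij
        · exact hij2
        · exact fun h => hij1 h.symm
        · exact fun h => hij (add_right_cancel h)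
      exact hD i' j' hij' s' t' hs0' hs1' ht0' ht1' (by
        change lerp (g i') (g (i' + 1)) s' = lerp (g j') (g (j' + 1)) t'
        rw [he1, he2, heq])
    · have hs : s < 1 := lt_of_le_of_ne hs1 (fun h => hne (by rw [h, lerp_one]))
      obtain ⟨j', t', hj', ht0', ht1', he2⟩ := hopen (i + 1) t ht0 ht1
      have hij' : i ≠ j' := by
        rcases hj' with ⟨rfl, _⟩ | ⟨rfl, _⟩
        · exact hi1 i
        · exact hi2 i
      exact hD i j' hij' s t' hs0 hs ht0' ht1' (by
        change lerp (g i) (g (i + 1)) s = lerp (g j') (g (j' + 1)) t'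
        rw [he2, heq])
  · intro hD
    by_contra hS
    apply hD
    have hend : ∀ (i : Fin (m + 1)) (s : ℝ), s < 1 → lerp (g i) (g (i + 1)) s ≠ g (i + 1) := by
      intro i s hs h
      apply hg i
      unfold lerp at h
      have h1 : (1 - s) • (g i - g (i + 1)) = 0 := by
        have h2 : (1 - s) • (g i - g (i + 1)) = (1 - s) • g i + s • g (i + 1) - g (i + 1) := by
          rw [smul_sub, sub_smul, one_smul, sub_smul, one_smul]
          abel
        rw [h2, h, sub_self]
      rcases smul_eq_zero.mp h1 with h2 | h2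
      · linarith
      · exact sub_eq_zero.mp h2
    intro i j hij s t hs0 hs1 ht0 ht1 heq
    change lerp (g i) (g (i + 1)) s = lerp (g j) (g (j + 1)) t at heq
    by_cases h1 : j = i + 1
    · subst h1
      exact hS (Or.inr ⟨i, s, t, hs0, hs1.le, ht0, ht1.le, heq, hend i s hs1⟩)
    by_cases h2 : i = j + 1
    · subst h2
      exact hS (Or.inr ⟨j, t, s, ht0, ht1.le, hs0, hs1.le, heq.symm, hend j t ht1⟩)
    exact hS (Or.inl ⟨i, j, hij, h1, h2, s, t, hs0, hs1.le, ht0, ht1.le, heq⟩)

end BRID

open BRID in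
/-- B3: comparison of the two notions of simple polygons -/
theorem Z_bridge_proof : Z_bridge := by
  intro n inst hn u hu hsum
  have hfirst : vlist u = poly (List.ofFn (fun i => toV (u i))) := by
    unfold poly vlist
    rw [vsf_ofFn]
    congr 1
    funext k
    rw [toV_vtx, zero_add]
  refine ⟨hfirst, ?_⟩
  obtain ⟨m, rfl⟩ : ∃ m, n = m + 1 := ⟨n - 1, by omega⟩
  have hm : 2 ≤ m := by omega
  set g : Fin (m + 1) → V := fun k => toV (vtx (one (m + 1)) u k.val) with hgdef
  have hg1 : ∀ i : Fin (m + 1), g (i + 1) = toV (vtx (one (m + 1)) u (i.val + 1)) := by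
    intro i
    rw [hgdef]
    dsimp only
    rcases Nat.lt_or_ge (i.val + 1) (m + 1) with h | h
    · have : (i + 1).val = i.val + 1 := by
        rw [Fin.val_add_one_of_lt]
        rw [Fin.lt_def, Fin.val_last]
        omega
      rw [this]
    · have hi : i.val + 1 = m + 1 := by omega
      have h0 : (i + 1).val = 0 := by
        have : i = Fin.last m := Fin.ext (by rw [Fin.val_last]; omega)
        rw [this, Fin.last_add_one]
        rfl
      rw [h0, hi, vtx_zero, vtx_last u hsum]
  have hgne : ∀ i, g i ≠ g (i + 1) := by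
    intro i h
    rw [hg1, vtx_succ] at h
    have h1 := toV_inj h
    have h2 : u i = 0 := by
      have := congrArg (fun x => x - vtx (one (m + 1)) u i.val) h1
      simpa using this.symm
    have h3 := hu i
    rw [h2] at h3
    simp at h3
  have hSI : SelfInt (one (m + 1)) u ↔ SI' g := by
    unfold SelfInt SI'
    apply or_congr
    · apply exists_congr
      intro i
      apply exists_congr
      intro j
      apply and_congr Iff.rfl
      apply and_congr Iff.rfl
      apply and_congr Iff.rfl
      constructor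
      · rintro ⟨x, hx1, hx2⟩
        obtain ⟨s, hs0, hs1, hs⟩ := (mem_side u i x).mp hx1
        obtain ⟨t, ht0, ht1, ht⟩ := (mem_side u j x).mp hx2
        refine ⟨s, t, hs0, hs1, ht0, ht1, ?_⟩
        rw [hg1, hg1]
        exact hs.trans ht.symm
      · rintro ⟨s, t, hs0, hs1, ht0, ht1, h⟩
        rw [hg1, hg1] at h
        refine ⟨(1 - s) • vtx (one (m + 1)) u i.val + s • vtx (one (m + 1)) u (i.val + 1), ?_, ?_⟩
        · exact (mem_side u i _).mpr ⟨s, hs0, hs1, lerp_eq _ _ _ _⟩
        · exact (mem_side u j _).mpr ⟨t, ht0, ht1, by rw [← lerp_eq]; exact h.symm⟩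
    · apply exists_congr
      intro i
      constructor
      · rintro ⟨x, ⟨hx1, hx2⟩, hne⟩
        obtain ⟨s, hs0, hs1, hs⟩ := (mem_side u i x).mp hx1
        obtain ⟨t, ht0, ht1, ht⟩ := (mem_side u (i + 1) x).mp hx2
        refine ⟨s, t, hs0, hs1, ht0, ht1, ?_, ?_⟩
        · exact ((congrArg (fun z => lerp (g i) z s) (hg1 i)).trans hs).trans
            ((congrArg (fun z => lerp (g (i + 1)) z t) (hg1 (i + 1))).trans ht).symm
        · rw [hg1]
          intro h
          apply hne
          apply toV_inj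
          rw [← h]
          exact hs.symm
      · rintro ⟨s, t, hs0, hs1, ht0, ht1, h, hne⟩
        refine ⟨(1 - s) • vtx (one (m + 1)) u i.val + s • vtx (one (m + 1)) u (i.val + 1), ⟨?_, ?_⟩, ?_⟩
        · exact (mem_side u i _).mpr ⟨s, hs0, hs1, lerp_eq _ _ _ _⟩
        · refine (mem_side u (i + 1) _).mpr ⟨t, ht0, ht1, ?_⟩
          rw [← lerp_eq]
          exact ((congrArg (fun z => lerp (g (i + 1)) z t) (hg1 (i + 1))).symm.trans h.symm).trans
            (congrArg (fun z => lerp (g i) z s) (hg1 i))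
        · intro hx
          apply hne
          have e : lerp (g i) (g (i + 1)) s = toV ((1 - s) • vtx (one (m + 1)) u i.val +
              s • vtx (one (m + 1)) u (i.val + 1)) :=
            (congrArg (fun z => lerp (g i) z s) (hg1 i)).trans (lerp_eq _ _ _ _)
          rw [e, hx, hg1]
  rw [hSI, main hm g hgne]
  have hv : vlist u = List.ofFn g := rfl
  unfold Simple
  rw [hv, edges_ofFn, List.pairwise_ofFn]
  constructor
  · rintro h ⟨-, h1, -⟩
    apply h
    intro i j hij
    rcases lt_or_gt_of_ne hij with h2 | h2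
    · exact h1 h2
    · exact (h1 h2).symm
  · intro h h1
    apply h
    refine ⟨by simp, fun i j hij => h1 i j hij.ne, ?_⟩
    intro e he
    rw [List.mem_ofFn] at he
    obtain ⟨i, rfl⟩ := he
    exact hgne i

end

end CP
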