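import Pool.Agent.H246CP.Stubs

/-!
# Task COMP: all polygons of a component are knotted
-/

set_option autoImplicit false

namespace CP

open Matrix KN Filter Topology

namespace COMP

variable {n : ℕ} {l : Fin n → ℝ}

/-- the action of a rotation -/
def act (A : Matrix (Fin 3) (Fin 3) ℝ) (hA : A ∈ specialOrthogonalGroup (Fin 3) ℝ)
    (u : Conf n l) : Conf n l :=
  ⟨fun i => A *ᵥ u.1 i, by
    obtain ⟨h1, _⟩ := mem_specialOrthogonalGroup_iff.mp hA
    have h3 : Aᵀ * A = 1 := by
      have := (mem_unitaryGroup_iff').mp h1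
      rwa [star_eq_conjTranspose, conjTranspose_eq_transpose_of_trivial] at this
    constructor
    · intro i
      rw [dotProduct_mulVec, vecMul_mulVec, h3, vecMul_one]
      exact u.2.1 i
    · have e : ∑ i, l i • A *ᵥ u.1 i = A *ᵥ ∑ i, l i • u.1 i := by
        rw [mulVec_sum]
        exact Finset.sum_congr rfl fun i _ => (mulVec_smul _ _ _).symm
      rw [e, u.2.2, mulVec_zero]⟩

theorem continuous_act (A : Matrix (Fin 3) (Fin 3) ℝ)
    (hA : A ∈ specialOrthogonalGroup (Fin 3) ℝ) :
    Continuous (act A hA : Conf n l → Conf n l) := by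
  apply Continuous.subtype_mk
  apply continuous_pi
  intro i
  apply Continuous.matrix_mulVec continuous_const
  exact (continuous_apply i).comp continuous_subtype_val

theorem mk_eq_iff (u v : Conf n l) :
    mk u = mk v ↔ ∃ A, ∃ hA : A ∈ specialOrthogonalGroup (Fin 3) ℝ, v = act A hA u := by
  constructor
  · intro h
    obtain ⟨A, hA, h'⟩ := Quotient.exact h
    exact ⟨A, hA, Subtype.ext (funext h')⟩
  · rintro ⟨A, hA, rfl⟩
    exact Quotient.sound ⟨A, hA, fun i => rfl⟩

theorem isOpen_image (U : Set (Conf n l)) (hU : IsOpen U) : IsOpen (mk '' U) := by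
  have hq : Topology.IsQuotientMap (mk : Conf n l → Mod n l) := isQuotientMap_quotient_mk'
  rw [← hq.isOpen_preimage]
  have : (mk : Conf n l → Mod n l) ⁻¹' (mk '' U) =
      ⋃ A : {A : Matrix (Fin 3) (Fin 3) ℝ // A ∈ specialOrthogonalGroup (Fin 3) ℝ},
        (act A.1 A.2 : Conf n l → Conf n l) ⁻¹' U := by
    ext w
    simp only [Set.mem_preimage, Set.mem_image, Set.mem_iUnion]
    constructor
    · rintro ⟨x, hx, hxw⟩
      obtain ⟨A, hA, rfl⟩ := (mk_eq_iff w x).1 hxw.symm
      exact ⟨⟨A, hA⟩, hx⟩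
    · rintro ⟨A, hx⟩
      exact ⟨_, hx, ((mk_eq_iff w _).2 ⟨A.1, A.2, rfl⟩).symm⟩
  rw [this]
  exact isOpen_iUnion fun A => hU.preimage (continuous_act A.1 A.2)

end COMP

theorem Z_comp_proof (h1 : Z_rotk) (h2 : Z_loc) : Z_comp := by
  intro n _ hn u u' _ hNA hmem
  set F : Set (Mod n (one n)) := (SI n (one n))ᶜ with hF
  by_cases huF : mk u ∈ F
  swap
  · rw [connectedComponentIn_eq_empty huF] at hmem
    exact absurd hmem (Set.notMem_empty _)
  set K : Set (Mod n (one n)) := {x | ∃ w : Conf n (one n), mk w = x ∧ NAf (vlist w.1)} with hK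
  have hKiff : ∀ w : Conf n (one n), mk w ∈ K ↔ NAf (vlist w.1) := by
    intro w
    constructor
    · rintro ⟨w', hw', hN⟩
      obtain ⟨A, hA, h⟩ := Quotient.exact hw'
      exact h1 n w'.1 w.1 ⟨A, hA, h⟩ hN
    · intro h
      exact ⟨w, rfl, h⟩
  have hcov : F ⊆ interior K ∪ interior Kᶜ := by
    intro x hx
    obtain ⟨w, rfl⟩ : ∃ w : Conf n (one n), mk w = x := Quotient.exists_rep x
    have hw : ¬ SelfInt (one n) w.1 := by
      intro h
      exact hx ⟨w, rfl, h⟩
    obtain ⟨U, hU1, hU2, hU3⟩ := eventually_nhds_iff.1 (h2 n hn w hw)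
    have hopen := COMP.isOpen_image U hU2
    have hin : mk w ∈ mk '' U := ⟨w, hU3, rfl⟩
    by_cases hwK : NAf (vlist w.1)
    · left
      rw [mem_interior]
      refine ⟨mk '' U, ?_, hopen, hin⟩
      rintro _ ⟨y, hy, rfl⟩
      exact (hKiff y).2 ((hU1 y hy).2 hwK)
    · right
      rw [mem_interior]
      refine ⟨mk '' U, ?_, hopen, hin⟩
      rintro _ ⟨y, hy, rfl⟩ hyK
      exact hwK ((hU1 y hy).1 ((hKiff y).1 hyK))
  rw [← hKiff]
  by_contra hnot
  have hC : IsPreconnected (connectedComponentIn F (mk u)) := isPreconnected_connectedComponentIn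
  have hCF : connectedComponentIn F (mk u) ⊆ F := connectedComponentIn_subset F (mk u)
  have hu : mk u ∈ connectedComponentIn F (mk u) := mem_connectedComponentIn huF
  have huK : mk u ∈ K := (hKiff u).2 hNA
  obtain ⟨y, _, hy1, hy2⟩ := hC (interior K) (interior Kᶜ) isOpen_interior isOpen_interior
    (hCF.trans hcov)
    (by
      refine ⟨mk u, hu, ?_⟩
      rcases hcov huF with h | h
      · exact h
      · exact absurd huK (interior_subset h))
    (by
      refine ⟨mk u', hmem, ?_⟩
      rcases hcov (hCF hmem) with h | h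
      · exact absurd (interior_subset h) hnot
      · exact h)
  exact interior_subset hy2 (interior_subset hy1)

end CP
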