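import Pool.Agent.H246CP.Stubs

/-! COV: no free action with finite-dimensional image. -/

set_option autoImplicit false

namespace CP

open Matrix KN Filter Topology
open Pool.Agent.Helper954.Hopf.Dold (VV JK sh)

namespace COV

/-- `S` is a set of indices with the largest values -/
def TopS {p : ℕ} (b : Fin p → ℝ) (S : Finset (Fin p)) : Prop := ∀ i ∈ S, ∀ l, l ∉ S → b l < b i

lemma top_unique {p : ℕ} {b : Fin p → ℝ} {S S' : Finset (Fin p)} (h : TopS b S) (h' : TopS b S')
    (hc : S.card = S'.card) : S = S' := by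
  classical
  have hsub : S ⊆ S' := by
    intro i hi
    by_contra hi'
    have : ∃ l ∈ S', l ∉ S := by
      by_contra hcon
      push Not at hcon
      have h1 : S' ⊆ S := hcon
      have h2 := Finset.eq_of_subset_of_card_le h1 hc.le
      rw [h2] at hi'
      exact hi' hi
    obtain ⟨l, hl, hl'⟩ := this
    exact lt_asymm (h i hi l hl') (h' l hl i hi')
  exact Finset.eq_of_subset_of_card_le hsub hc.ge

open Classical in
/-- the set of the `k` indices with the largest values -/
noncomputable def TS {p : ℕ} (b : Fin p → ℝ) (k : ℕ) : Finset (Fin p) :=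
  if h : ∃ S : Finset (Fin p), S.card = k ∧ TopS b S then h.choose else ∅

lemma TS_eq {p : ℕ} {b : Fin p → ℝ} {k : ℕ} {S : Finset (Fin p)} (hk : S.card = k) (h : TopS b S) :
    TS b k = S := by
  have hex : ∃ S : Finset (Fin p), S.card = k ∧ TopS b S := ⟨S, hk, h⟩
  unfold TS
  rw [dif_pos hex]
  exact top_unique hex.choose_spec.2 h (hex.choose_spec.1.trans hk.symm)

/-- the label of a set -/
noncomputable def lb {p : ℕ} [Fact p.Prime] (S : Finset (Fin p)) (k : ℕ) : ZMod p :=
  -((∑ i ∈ S, ((i : ℕ) : ZMod p)) * ((k : ℕ) : ZMod p)⁻¹)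

lemma cast_succ {p : ℕ} [Fact p.Prime] (i : Fin p) :
    (((i + 1 : Fin p) : ℕ) : ZMod p) = ((i : ℕ) : ZMod p) + 1 := by
  have h1 : ((i + 1 : Fin p) : ℕ) = ((i : ℕ) + 1) % p := by
    rw [Fin.val_add, Fin.val_one', Nat.add_mod_mod]
  rw [h1, ZMod.natCast_mod]
  push_cast
  rfl

/-- the shifted set -/
lemma top_shift {p : ℕ} [Fact p.Prime] {b b' : Fin p → ℝ} (hb : ∀ i, b' i = b (i + 1))
    {S : Finset (Fin p)} {k : ℕ} (hk0 : 0 < k) (hkp : k < p) (hc : S.card = k) (h : TopS b S) :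
    ∃ S' : Finset (Fin p), S'.card = k ∧ TopS b' S' ∧ lb S' k = lb S k + 1 := by
  classical
  have hinj : Function.Injective (fun i : Fin p => i + 1) := add_left_injective 1
  have hsurj : Function.Surjective (fun i : Fin p => i + 1) := Finite.surjective_of_injective hinj
  have himg : (Finset.univ.filter fun i : Fin p => i + 1 ∈ S).image (fun i => i + 1) = S := by
    ext l
    rw [Finset.mem_image]
    constructor
    · rintro ⟨i, hi, rfl⟩
      exact (Finset.mem_filter.1 hi).2
    · intro hl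
      obtain ⟨i, hi⟩ := hsurj l
      have hi' : i + 1 = l := hi
      exact ⟨i, Finset.mem_filter.2 ⟨Finset.mem_univ _, by rw [hi']; exact hl⟩, hi⟩
  have hcard : (Finset.univ.filter fun i : Fin p => i + 1 ∈ S).card = k := by
    rw [← hc]
    conv_rhs => rw [← himg]
    rw [Finset.card_image_of_injective _ hinj]
  refine ⟨Finset.univ.filter fun i : Fin p => i + 1 ∈ S, hcard, ?_, ?_⟩
  · intro i hi l hl
    rw [hb, hb]
    refine h _ (Finset.mem_filter.1 hi).2 _ fun hl' => hl (Finset.mem_filter.2 ⟨Finset.mem_univ _, hl'⟩)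
  · have hsum : ∑ i ∈ S, ((i : ℕ) : ZMod p) =
        (∑ i ∈ Finset.univ.filter fun i : Fin p => i + 1 ∈ S, ((i : ℕ) : ZMod p)) + k := by
      conv_lhs => rw [← himg]
      rw [Finset.sum_image fun x _ y _ e => hinj e]
      simp only [cast_succ]
      rw [Finset.sum_add_distrib, Finset.sum_const, hcard, nsmul_eq_mul, mul_one]
    have hk : ((k : ℕ) : ZMod p) ≠ 0 := by
      rw [Ne, ZMod.natCast_eq_zero_iff]
      exact fun hd => absurd (Nat.le_of_dvd hk0 hd) (by omega)
    unfold lb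
    rw [hsum, add_mul, mul_inv_cancel₀ hk]
    ring

/-- existence -/
lemma top_exists {p : ℕ} [Fact p.Prime] {b : Fin p → ℝ} (hb : ∃ i i', b i ≠ b i') :
    ∃ S : Finset (Fin p), 0 < S.card ∧ S.card < p ∧ TopS b S := by
  classical
  obtain ⟨i, i', hii⟩ := hb
  have hne : (Finset.univ : Finset (Fin p)).Nonempty := ⟨i, Finset.mem_univ _⟩
  obtain ⟨m, -, hm⟩ := Finset.exists_max_image Finset.univ b hne
  refine ⟨Finset.univ.filter fun l => b l = b m, ?_, ?_, ?_⟩
  · exact Finset.card_pos.2 ⟨m, Finset.mem_filter.2 ⟨Finset.mem_univ _, rfl⟩⟩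
  · have h1 : (Finset.univ.filter fun l => b l = b m) ≠ Finset.univ := by
      intro h
      rw [Finset.filter_eq_self] at h
      exact hii ((h i (Finset.mem_univ _)).trans (h i' (Finset.mem_univ _)).symm)
    have h2 := Finset.card_lt_univ_of_notMem (s := Finset.univ.filter fun l => b l = b m)
      (x := (Finset.exists_of_ssubset (Finset.ssubset_univ_iff.2 h1)).choose)
      (Finset.exists_of_ssubset (Finset.ssubset_univ_iff.2 h1)).choose_spec.2
    rwa [Fintype.card_fin] at h2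
  · intro j hj l hl
    rw [Finset.mem_filter] at hj
    rw [hj.2]
    refine lt_of_le_of_ne (hm l (Finset.mem_univ _)) fun e => hl ?_
    exact Finset.mem_filter.2 ⟨Finset.mem_univ _, e⟩

end COV

open COV in
theorem Z_cover_proof (h1 : Z_map) (h2 : Z_jc) : Z_cover := by
  classical
  intro p hp X _ _ g hg hgp r a ha hag hne
  obtain ⟨f, hf, hfe⟩ := h1 p X g hg hgp (r * p + 1) (Nat.succ_pos _)
  have hcardJ : Fintype.card (Fin r × Fin p) < r * p + 1 := by
    rw [Fintype.card_prod, Fintype.card_fin, Fintype.card_fin]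
    exact Nat.lt_succ_self _
  have key := h2 p (r * p + 1) (Fin r × Fin p) hcardJ
    (fun j => {x | 0 < (j.2 : ℕ) ∧ ∃ S : Finset (Fin p), S.card = (j.2 : ℕ) ∧ TopS (a j.1 (f x)) S})
    (fun j x => lb (TS (a j.1 (f x)) (j.2 : ℕ)) (j.2 : ℕ)) ?_ ?_
  · obtain ⟨x, hx, hxO⟩ := key
    obtain ⟨j, hj⟩ := hne (f x)
    obtain ⟨S, hS0, hSp, hS⟩ := top_exists hj
    exact hxO (j, ⟨S.card, hSp⟩) ⟨hS0, S, rfl, hS⟩
  · rintro ⟨j, k⟩ x ⟨hk0, S, hSk, hS⟩ hx
    have hev : ∀ᶠ y in 𝓝[JK p (r * p + 1)] x, TopS (a j (f y)) S := by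
      unfold TopS
      rw [eventually_all]
      intro i
      rw [eventually_imp_distrib_left]
      intro hi
      rw [eventually_all]
      intro l
      rw [eventually_imp_distrib_left]
      intro hl
      have c1 : ContinuousWithinAt (fun y => a j (f y) l) (JK p (r * p + 1)) x :=
        (ha j l).continuousAt.comp_continuousWithinAt (hf x hx)
      have c2 : ContinuousWithinAt (fun y => a j (f y) i) (JK p (r * p + 1)) x :=
        (ha j i).continuousAt.comp_continuousWithinAt (hf x hx)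
      exact c1.eventually_lt c2 (hS i hi l hl)
    filter_upwards [hev] with y hy
    refine ⟨⟨hk0, S, hSk, hy⟩, ?_⟩
    show lb (TS (a j (f y)) (k : ℕ)) (k : ℕ) = lb (TS (a j (f x)) (k : ℕ)) (k : ℕ)
    rw [TS_eq hSk hy, TS_eq hSk hS]
  · rintro ⟨j, k⟩ x ⟨hk0, S, hSk, hS⟩ hx
    have hb : ∀ i, a j (f (sh x)) i = a j (f x) (i + 1) := by
      intro i
      rw [hfe x hx, hag]
    obtain ⟨S', hS'k, hS', hlb⟩ := top_shift hb hk0 k.2 hSk hS
    refine ⟨⟨hk0, S', hS'k, hS'⟩, ?_⟩
    show lb (TS (a j (f (sh x))) (k : ℕ)) (k : ℕ) = lb (TS (a j (f x)) (k : ℕ)) (k : ℕ) + 1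
    rw [TS_eq hS'k hS', TS_eq hSk hS, hlb]

end CP
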