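import Mathlib

/-!
# Polygon spaces: definitions
-/

set_option autoImplicit false

namespace CP

open Matrix

/-- vectors of the space -/
abbrev R3 := Fin 3 → ℝ

/-- closed polygons with the side lengths `ℓ`: the unit directions `u` of the sides -/
def Conf (n : ℕ) (ℓ : Fin n → ℝ) : Type :=
  {u : Fin n → R3 // (∀ i, u i ⬝ᵥ u i = 1) ∧ ∑ i, ℓ i • u i = 0}

instance (n : ℕ) (ℓ : Fin n → ℝ) : TopologicalSpace (Conf n ℓ) :=
  inferInstanceAs (TopologicalSpace {u : Fin n → R3 // (∀ i, u i ⬝ᵥ u i = 1) ∧ ∑ i, ℓ i • u i = 0})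

/-- two polygons are identified if they differ by a rotation -/
def rotS (n : ℕ) (ℓ : Fin n → ℝ) : Setoid (Conf n ℓ) where
  r u v := ∃ A ∈ specialOrthogonalGroup (Fin 3) ℝ, ∀ i, v.1 i = A *ᵥ u.1 i
  iseqv :=
    { refl := fun u => ⟨1, one_mem _, fun i => by simp⟩
      symm := by
        rintro u v ⟨A, hA, h⟩
        obtain ⟨h1, h2⟩ := mem_specialOrthogonalGroup_iff.mp hA
        refine ⟨star A, ?_, fun i => ?_⟩
        · rw [mem_specialOrthogonalGroup_iff]
          refine ⟨Unitary.star_mem h1, ?_⟩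
          rw [star_eq_conjTranspose, det_conjTranspose, h2]
          simp
        · rw [h i, mulVec_mulVec, (mem_unitaryGroup_iff').mp h1]
          simp
      trans := by
        rintro u v w ⟨A, hA, h⟩ ⟨B, hB, h'⟩
        exact ⟨B * A, mul_mem hB hA, fun i => by rw [h' i, h i, mulVec_mulVec]⟩ }

/-- the polygon space `M_ℓ` -/
def Mod (n : ℕ) (ℓ : Fin n → ℝ) : Type := Quotient (rotS n ℓ)

instance (n : ℕ) (ℓ : Fin n → ℝ) : TopologicalSpace (Mod n ℓ) :=
  inferInstanceAs (TopologicalSpace (Quotient (rotS n ℓ)))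

/-- the class of a polygon -/
def mk {n : ℕ} {ℓ : Fin n → ℝ} (u : Conf n ℓ) : Mod n ℓ := Quotient.mk (rotS n ℓ) u

/-- the vertices: the `k`-th one is the sum of the first `k` sides -/
def vtx {n : ℕ} (ℓ : Fin n → ℝ) (u : Fin n → R3) (k : ℕ) : R3 :=
  ∑ i : Fin n, if i.val < k then ℓ i • u i else 0

/-- the sides of a polygon -/
def side {n : ℕ} (ℓ : Fin n → ℝ) (u : Fin n → R3) (i : Fin n) : Set R3 :=
  segment ℝ (vtx ℓ u i.val) (vtx ℓ u (i.val + 1))

/-- two sides that are not adjacent have a common point, or two adjacent sides have a common point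
other than their common vertex -/
def SelfInt {n : ℕ} [NeZero n] (ℓ : Fin n → ℝ) (u : Fin n → R3) : Prop :=
  (∃ i j : Fin n, i ≠ j ∧ j ≠ i + 1 ∧ i ≠ j + 1 ∧ (side ℓ u i ∩ side ℓ u j).Nonempty) ∨
  (∃ i : Fin n, ∃ x ∈ side ℓ u i ∩ side ℓ u (i + 1), x ≠ vtx ℓ u (i.val + 1))

/-- the set of classes of polygons with self-intersections -/
def SI (n : ℕ) [NeZero n] (ℓ : Fin n → ℝ) : Set (Mod n ℓ) :=
  {m | ∃ u : Conf n ℓ, mk u = m ∧ SelfInt ℓ u.1}

/-- all lengths are `1` -/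
def one (n : ℕ) : Fin n → ℝ := fun _ => 1

end CP
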