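import Pool.Agent.H246CP.Stubs

set_option autoImplicit false

open Matrix KN Filter Topology

namespace CP.FIX

lemma vtx_succ {n : ℕ} (u : Fin n → R3) (k : ℕ) (hk : k < n) :
    vtx (one n) u (k + 1) = vtx (one n) u k + u ⟨k, hk⟩ := by
  unfold vtx one
  have h1 : ∀ i : Fin n, (if i.val < k + 1 then (1 : ℝ) • u i else 0) =
      (if i.val < k then (1 : ℝ) • u i else 0) + (if i = ⟨k, hk⟩ then u i else 0) := by
    intro i
    by_cases h : i.val < k
    · have h2 : i ≠ ⟨k, hk⟩ := by
        intro h3
        rw [h3] at h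
        simp at h
      rw [if_pos (by omega), if_pos h, if_neg h2, add_zero]
    · by_cases h3 : i.val = k
      · have h4 : i = ⟨k, hk⟩ := Fin.ext h3
        rw [if_pos (by omega), if_neg h, if_pos h4, one_smul, zero_add]
      · have h2 : i ≠ ⟨k, hk⟩ := by
          intro h4
          exact h3 (by rw [h4])
        rw [if_neg (by omega), if_neg h, if_neg h2, add_zero]
  rw [Finset.sum_congr rfl fun i _ => h1 i, Finset.sum_add_distrib, Finset.sum_ite_eq']
  simp

lemma vtx_zero {n : ℕ} (u : Fin n → R3) : vtx (one n) u 0 = 0 := by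
  unfold vtx
  simp

lemma vtx_last {n : ℕ} (u : Fin n → R3) : vtx (one n) u n = ∑ i, u i := by
  unfold vtx one
  refine Finset.sum_congr rfl fun i _ => ?_
  rw [if_pos i.2, one_smul]

lemma back {n : ℕ} [NeZero n] (hn : 3 ≤ n) (u : Fin n → R3) (h1 : ∀ i, u i ⬝ᵥ u i = 1)
    (hs : ∑ i, u i = 0) (i : Fin n) (hi : u (i + 1) = - u i) : SelfInt (one n) u := by
  right
  have hu : u i ≠ 0 := by
    intro h
    have := h1 i
    rw [h] at this
    simp at this
  refine ⟨i, vtx (one n) u i.val, ⟨left_mem_segment _ _ _, ?_⟩, ?_⟩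
  · unfold side
    have hv := vtx_succ u i.val i.2
    have h2 := vtx_succ u (i + 1).val (i + 1).2
    have h3 : vtx (one n) u (i + 1).val = vtx (one n) u (i.val + 1) := by
      by_cases h : i.val + 1 < n
      · have h4 : (i + 1).val = i.val + 1 := by
          rw [Fin.val_add, Fin.val_one', Nat.mod_eq_of_lt (show 1 < n by omega),
            Nat.mod_eq_of_lt h]
        rw [h4]
      · have h5 : i.val + 1 = n := by omega
        have h4 : (i + 1).val = 0 := by
          rw [Fin.val_add, Fin.val_one', Nat.mod_eq_of_lt (show 1 < n by omega), h5,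
            Nat.mod_self]
        rw [h4, h5, vtx_zero, vtx_last, hs]
    have h4 : vtx (one n) u ((i + 1).val + 1) = vtx (one n) u i.val := by
      rw [h2, h3, hv]
      simp only [Fin.eta]
      rw [hi]
      simp
    rw [h4]
    exact right_mem_segment _ _ _
  · rw [vtx_succ u i.val i.2]
    intro h
    apply hu
    have h6 : vtx (one n) u i.val + 0 = vtx (one n) u i.val + u ⟨i.val, i.2⟩ := by
      rw [add_zero]; exact h
    exact (add_left_cancel h6).symm

end CP.FIX

namespace CP

open CP.FIX

theorem Z_fix_proof (hg : Z_gram) (hst : Z_star) (hr : Z_reg) : Z_fix := by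
  intro n _ hp h5 u h1 hs hsi hA hB hC
  have hne : ∀ i, u (i + 1) ≠ - u i := fun i hi => hsi (back (by omega) u h1 hs i hi)
  obtain ⟨e₁, e₂, k, he1, he2, he12, hu⟩ := hg n (by omega) u h1 hs hne hA hB hC
  by_cases h0 : (n : ℤ) ∣ k
  · exfalso
    obtain ⟨m, hm⟩ := h0
    have hn0 : (n : ℝ) ≠ 0 := by
      have : 0 < n := by omega
      positivity
    have hui : ∀ i : Fin n, u i = e₁ := by
      intro i
      have h2 : 2 * Real.pi * k * i.val / n = ((m * i.val : ℤ) : ℝ) * (2 * Real.pi) := by
        rw [hm]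
        push_cast
        field_simp
      rw [hu i, h2, Real.cos_int_mul_two_pi]
      have h3 : Real.sin (((m * i.val : ℤ) : ℝ) * (2 * Real.pi)) = 0 := by
        rw [show ((m * i.val : ℤ) : ℝ) * (2 * Real.pi) = ((2 * (m * i.val) : ℤ) : ℝ) * Real.pi by
          push_cast; ring]
        exact Real.sin_int_mul_pi _
      rw [h3]
      simp
    rw [Finset.sum_congr rfl fun i _ => hui i] at hs
    simp only [Finset.sum_const, Finset.card_univ, Fintype.card_fin] at hs
    have h4 : e₁ = 0 := by
      rcases smul_eq_zero.mp hs with h | h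
      · omega
      · exact h
    rw [h4] at he1
    simp at he1
  · by_cases h2 : (n : ℤ) ∣ k - 1 ∨ (n : ℤ) ∣ k + 1
    · exact hr n h5 u e₁ e₂ k he1 he2 he12 hu h2
    · push Not at h2
      exact absurd (hst n hp h5 u e₁ e₂ k he1 he2 he12 hu h0 h2.1 h2.2) hsi

end CP
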