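import Pool.Agent.H246CP.Stubs

set_option autoImplicit false

namespace CP

open Matrix KN Filter Topology

namespace FUN

/-- the three functions on polygons -/
noncomputable def fn {n : ℕ} [NeZero n] (j : Fin 3) (u : Fin n → R3) (i : Fin n) : ℝ :=
  if j = 0 then u i ⬝ᵥ u (i + 1) else if j = 1 then u i ⬝ᵥ u (i + 1 + 1) else
    det (of ![u i, u (i + 1), u (i + 1 + 1)])

theorem dot_inv (A : Matrix (Fin 3) (Fin 3) ℝ) (hA : A ∈ specialOrthogonalGroup (Fin 3) ℝ)
    (x y : R3) : (A *ᵥ x) ⬝ᵥ (A *ᵥ y) = x ⬝ᵥ y := by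
  obtain ⟨h1, _⟩ := mem_specialOrthogonalGroup_iff.mp hA
  have h3 : Aᵀ * A = 1 := by
    have := (mem_unitaryGroup_iff').mp h1
    rwa [star_eq_conjTranspose, conjTranspose_eq_transpose_of_trivial] at this
  rw [dotProduct_mulVec, ← mulVec_transpose, mulVec_mulVec, h3, one_mulVec]

theorem det_inv (A : Matrix (Fin 3) (Fin 3) ℝ) (hA : A ∈ specialOrthogonalGroup (Fin 3) ℝ)
    (x y z : R3) : det (of ![A *ᵥ x, A *ᵥ y, A *ᵥ z]) = det (of ![x, y, z]) := by
  obtain ⟨_, h2⟩ := mem_specialOrthogonalGroup_iff.mp hA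
  have h : (of ![A *ᵥ x, A *ᵥ y, A *ᵥ z] : Matrix (Fin 3) (Fin 3) ℝ) = of ![x, y, z] * Aᵀ := by
    ext i j
    fin_cases i <;>
      simp [Matrix.mul_apply, mulVec, dotProduct, Fin.sum_univ_three, mul_comm]
  rw [h, det_mul, det_transpose, h2, mul_one]

theorem fn_inv {n : ℕ} [NeZero n] (j : Fin 3) (u v : Fin n → R3) (A : Matrix (Fin 3) (Fin 3) ℝ)
    (hA : A ∈ specialOrthogonalGroup (Fin 3) ℝ) (h : ∀ i, v i = A *ᵥ u i) (i : Fin n) :
    fn j u i = fn j v i := by
  unfold fn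
  simp only [h]
  split_ifs
  · exact (dot_inv A hA _ _).symm
  · exact (dot_inv A hA _ _).symm
  · exact (det_inv A hA _ _ _).symm

theorem fn_cont {n : ℕ} [NeZero n] (j : Fin 3) (i : Fin n) :
    Continuous fun u : Fin n → R3 => fn j u i := by
  unfold fn
  split_ifs
  · simp only [dotProduct]
    fun_prop
  · simp only [dotProduct]
    fun_prop
  · simp only [det_fin_three]
    simp only [of_apply, cons_val', cons_val_zero, cons_val_one, cons_val, cons_val_fin_one]
    fun_prop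

end FUN

theorem Z_fun_proof : Z_fun := by
  intro n _
  refine ⟨fun j x i => Quotient.lift (fun u : Conf n (one n) => FUN.fn j u.1 i) ?_ x, ?_, ?_, ?_⟩
  · rintro u v ⟨A, hA, h⟩
    exact FUN.fn_inv j u.1 v.1 A hA h i
  · intro j i
    refine Continuous.quotient_lift ?_ _
    exact (FUN.fn_cont j i).comp continuous_subtype_val
  · intro j x i
    induction x using Quotient.ind with
    | _ u => rfl
  · intro u i
    exact ⟨rfl, rfl, rfl⟩

end CP
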