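import Pool.Agent.H246CP.Stubs

/-!
# Project CP, task GRAM: polygons with constant local invariants are planar

Written by helper496.
-/

set_option autoImplicit false

namespace CP

open Matrix KN Filter Topology

namespace GRAM

/-- expansion of a vector in the frame `p, q, p × q` -/
theorem frame (p q v : R3) (j : Fin 3) :
    ((p ⬝ᵥ p) * (q ⬝ᵥ q) - (p ⬝ᵥ q) ^ 2) * v j =
      ((v ⬝ᵥ p) * (q ⬝ᵥ q) - (v ⬝ᵥ q) * (p ⬝ᵥ q)) * p j +
      ((v ⬝ᵥ q) * (p ⬝ᵥ p) - (v ⬝ᵥ p) * (p ⬝ᵥ q)) * q j +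
      det (of ![p, q, v]) * ![p 1 * q 2 - p 2 * q 1, p 2 * q 0 - p 0 * q 2,
        p 0 * q 1 - p 1 * q 0] j := by
  have h1 : ∀ a b : R3, a ⬝ᵥ b = a 0 * b 0 + a 1 * b 1 + a 2 * b 2 := fun a b => by
    simp [dotProduct, Fin.sum_univ_three]
  have h2 : det (of ![p, q, v]) = p 0 * q 1 * v 2 - p 0 * q 2 * v 1 - p 1 * q 0 * v 2 +
      p 1 * q 2 * v 0 + p 2 * q 0 * v 1 - p 2 * q 1 * v 0 := by
    rw [det_fin_three]
    simp
  rw [h1, h1, h1, h1, h1, h2]
  fin_cases j
  · simp
    ring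
  · simp
    ring
  · simp
    ring

theorem det_cyc (p q v : R3) : det (of ![v, p, q]) = det (of ![p, q, v]) := by
  rw [det_fin_three, det_fin_three]
  simp
  ring

theorem const_of_shift {n : ℕ} [NeZero n] {α : Type} (g : Fin n → α)
    (h : ∀ i, g (i + 1) = g i) (i : Fin n) : g i = g 0 := by
  have hk : ∀ k : ℕ, g (Fin.ofNat n k) = g 0 := by
    intro k
    induction k with
    | zero =>
      congr 1
    | succ k ih =>
      have e : Fin.ofNat n (k + 1) = Fin.ofNat n k + 1 := by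
        apply Fin.ext
        simp [Fin.ofNat, Fin.val_add]
      rw [e, h, ih]
  have e : Fin.ofNat n i.val = i := by
    apply Fin.ext
    simp [Fin.ofNat, Nat.mod_eq_of_lt i.isLt]
  rw [← e]
  exact hk _

theorem ofNat_succ (n : ℕ) [NeZero n] (k : ℕ) : Fin.ofNat n (k + 1) = Fin.ofNat n k + 1 := by
  apply Fin.ext
  simp [Fin.ofNat, Fin.val_add]

theorem dot_expand (a b : R3) : a ⬝ᵥ b = a 0 * b 0 + a 1 * b 1 + a 2 * b 2 := by
  simp [dotProduct, Fin.sum_univ_three]

theorem dot_self_nonneg (a : R3) : 0 ≤ a ⬝ᵥ a := by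
  rw [dot_expand]
  nlinarith [mul_self_nonneg (a 0), mul_self_nonneg (a 1), mul_self_nonneg (a 2)]

theorem eq_of_dot_one {p q : R3} (hp : p ⬝ᵥ p = 1) (hq : q ⬝ᵥ q = 1) (h : p ⬝ᵥ q = 1) :
    q = p := by
  have h0 : (q - p) ⬝ᵥ (q - p) = 0 := by
    rw [sub_dotProduct, dotProduct_sub, dotProduct_sub, dotProduct_comm q p, hp, hq, h]
    ring
  have := (dotProduct_self_eq_zero).1 h0
  exact sub_eq_zero.1 this

theorem eq_neg_of_dot {p q : R3} (hp : p ⬝ᵥ p = 1) (hq : q ⬝ᵥ q = 1) (h : p ⬝ᵥ q = -1) :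
    q = -p := by
  have h0 : (q + p) ⬝ᵥ (q + p) = 0 := by
    rw [add_dotProduct, dotProduct_add, dotProduct_add, dotProduct_comm q p, hp, hq, h]
    ring
  have := (dotProduct_self_eq_zero).1 h0
  exact eq_neg_of_add_eq_zero_left this

end GRAM

open GRAM

theorem Z_gram_proof : Z_gram := by
  intro n _ hn u hu hsum hneg hα hβ hδ
  set α := u 0 ⬝ᵥ u (0 + 1) with hαd
  set β := u 0 ⬝ᵥ u (0 + 1 + 1) with hβd
  set δ := det (of ![u 0, u (0 + 1), u (0 + 1 + 1)]) with hδd
  have ha : ∀ i, u i ⬝ᵥ u (i + 1) = α := fun i => hα i 0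
  have hb : ∀ i, u i ⬝ᵥ u (i + 1 + 1) = β := fun i => hβ i 0
  have hd : ∀ i, det (of ![u i, u (i + 1), u (i + 1 + 1)]) = δ := fun i => hδ i 0
  have hn0 : (n : ℝ) ≠ 0 := by
    have : 0 < n := by omega
    positivity
  have hα1 : α ≠ 1 := by
    intro h
    have h1 : ∀ i, u (i + 1) = u i := fun i =>
      eq_of_dot_one (hu i) (hu (i + 1)) (by rw [ha i, h])
    have h2 := const_of_shift u h1
    have h3 : ∑ i, u i = (n : ℝ) • u 0 := by
      rw [Finset.sum_congr rfl fun i _ => h2 i, Finset.sum_const, Finset.card_univ,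
        Fintype.card_fin, Nat.cast_smul_eq_nsmul]
    rw [h3] at hsum
    have h4 : u 0 = 0 := (smul_eq_zero.1 hsum).resolve_left hn0
    have h5 := hu 0
    rw [h4] at h5
    simp at h5
  have hα2 : α ≠ -1 := by
    intro h
    exact hneg 0 (eq_neg_of_dot (hu 0) (hu (0 + 1)) (by rw [ha 0, h]))
  -- Cauchy-Schwarz
  have hub : 0 < 1 - α ^ 2 := by
    have h1 : (u 0 - u (0 + 1)) ⬝ᵥ (u 0 - u (0 + 1)) = 2 - 2 * α := by
      rw [sub_dotProduct, dotProduct_sub, dotProduct_sub, dotProduct_comm (u (0 + 1)) (u 0), hu,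
        hu, ha]
      ring
    have h2 : (u 0 + u (0 + 1)) ⬝ᵥ (u 0 + u (0 + 1)) = 2 + 2 * α := by
      rw [add_dotProduct, dotProduct_add, dotProduct_add, dotProduct_comm (u (0 + 1)) (u 0), hu,
        hu, ha]
      ring
    have h3 : 0 ≤ (u 0 - u (0 + 1)) ⬝ᵥ (u 0 - u (0 + 1)) := dot_self_nonneg _
    have h4 : 0 ≤ (u 0 + u (0 + 1)) ⬝ᵥ (u 0 + u (0 + 1)) := dot_self_nonneg _
    rw [h1] at h3
    rw [h2] at h4
    have h5 : 0 < 1 - α := lt_of_le_of_ne (by linarith) fun h => hα1 (by linarith)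
    have h6 : 0 < 1 + α := lt_of_le_of_ne (by linarith) fun h => hα2 (by linarith)
    have : 1 - α ^ 2 = (1 - α) * (1 + α) := by ring
    rw [this]
    positivity
  have h1α : 1 - α ≠ 0 := fun h => hα1 (by linarith)
  have h2α : 1 + α ≠ 0 := fun h => hα2 (by linarith)
  set c := (β - α) / (1 - α) with hc
  -- the linear recursion
  have hrec : ∀ i, u (i + 1 + 1 + 1) + c • u (i + 1 + 1) - c • u (i + 1) - u i = 0 := by
    intro i
    funext j
    have e1 := frame (u (i + 1)) (u (i + 1 + 1)) (u (i + 1 + 1 + 1)) j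
    have e2 := frame (u (i + 1)) (u (i + 1 + 1)) (u i) j
    rw [hu, hu, ha, dotProduct_comm _ (u (i + 1)), hb, dotProduct_comm _ (u (i + 1 + 1)), ha,
      hd (i + 1)] at e1
    rw [hu, hu, ha, ha, hb, ← det_cyc, hd i] at e2
    have hc' : c * (1 - α) = β - α := by
      rw [hc]
      field_simp
    have h3 : (1 + α) * (1 - α) * (u (i + 1 + 1 + 1) j + c * u (i + 1 + 1) j - c * u (i + 1) j -
        u i j) = 0 := by
      linear_combination e1 - e2 + (1 + α) * (u (i + 1 + 1) j - u (i + 1) j) * hc'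
    have h4 := (mul_eq_zero.1 h3).resolve_left (mul_ne_zero h2α h1α)
    simpa [Pi.add_apply, Pi.sub_apply, Pi.smul_apply] using h4
  -- the invariant vector vanishes
  set s : Fin n → R3 := fun i => u (i + 1 + 1) + (c + 1) • u (i + 1) + u i with hs
  have hs1 : ∀ i, s (i + 1) = s i := by
    intro i
    have h := hrec i
    rw [hs]
    simp only
    rw [← sub_eq_zero]
    rw [← h]
    module
  have hs0 : ∀ i, s i = 0 := by
    have h1 := const_of_shift s hs1
    have hshift : ∑ i, u (i + 1) = ∑ i, u i := Equiv.sum_comp (Equiv.addRight (1 : Fin n)) u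
    have hshift2 : ∑ i, u (i + 1 + 1) = ∑ i, u i := by
      rw [← hshift]
      exact Equiv.sum_comp (Equiv.addRight (1 : Fin n)) fun i => u (i + 1)
    have h2 : ∑ i, s i = 0 := by
      rw [hs]
      simp only
      rw [Finset.sum_add_distrib, Finset.sum_add_distrib, ← Finset.smul_sum, hshift2, hshift,
        hsum]
      simp
    have h3 : ∑ i, s i = (n : ℝ) • s 0 := by
      rw [Finset.sum_congr rfl fun i _ => h1 i, Finset.sum_const, Finset.card_univ,
        Fintype.card_fin, Nat.cast_smul_eq_nsmul]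
    rw [h3] at h2
    have h4 : s 0 = 0 := (smul_eq_zero.1 h2).resolve_left hn0
    intro i
    rw [h1 i, h4]
  have hrec2 : ∀ i, u (i + 1 + 1) = (2 * α) • u (i + 1) - u i := by
    intro i
    have h := hs0 i
    rw [hs] at h
    simp only at h
    have h1 : u (i + 1 + 1) = (-(c + 1)) • u (i + 1) - u i := by
      have h2 : u (i + 1 + 1) - ((-(c + 1)) • u (i + 1) - u i) = 0 := by
        rw [← h]
        module
      exact sub_eq_zero.1 h2
    have h3 : u (i + 1) ⬝ᵥ u (i + 1 + 1) = -(c + 1) - α := by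
      rw [h1, dotProduct_sub, dotProduct_smul, hu, dotProduct_comm, ha]
      simp
    rw [ha] at h3
    rw [h1]
    congr 2
    linarith
  -- the plane
  set t := Real.arccos α with ht
  have hαl : -1 ≤ α := by nlinarith
  have hαu : α ≤ 1 := by nlinarith
  have hcos : Real.cos t = α := Real.cos_arccos hαl hαu
  have hsin : Real.sin t = √(1 - α ^ 2) := Real.sin_arccos α
  have hsq : √(1 - α ^ 2) ≠ 0 := (Real.sqrt_pos.2 hub).ne'
  have hss : √(1 - α ^ 2) * √(1 - α ^ 2) = 1 - α ^ 2 := Real.mul_self_sqrt hub.le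
  set e₂ : R3 := (√(1 - α ^ 2))⁻¹ • (u (0 + 1) - α • u 0) with he₂
  have h11 : e₂ ⬝ᵥ e₂ = 1 := by
    rw [he₂, smul_dotProduct, dotProduct_smul, sub_dotProduct, dotProduct_sub, dotProduct_sub,
      smul_dotProduct, dotProduct_smul, smul_dotProduct, dotProduct_smul, hu, hu,
      dotProduct_comm (u (0 + 1)) (u 0), ha]
    simp only [smul_eq_mul]
    rw [← mul_assoc, ← mul_inv, hss]
    field_simp
    ring
  have h12 : u 0 ⬝ᵥ e₂ = 0 := by
    rw [he₂, dotProduct_smul, dotProduct_sub, dotProduct_smul, hu, ha]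
    simp
  have hu1 : u (0 + 1) = Real.cos t • u 0 + Real.sin t • e₂ := by
    rw [hcos, hsin, he₂, smul_smul, mul_inv_cancel₀ hsq, one_smul]
    module
  have hform : ∀ k : ℕ, u (Fin.ofNat n k) = Real.cos (k * t) • u 0 + Real.sin (k * t) • e₂ ∧
      u (Fin.ofNat n (k + 1)) =
        Real.cos ((k + 1 : ℕ) * t) • u 0 + Real.sin ((k + 1 : ℕ) * t) • e₂ := by
    intro k
    induction k with
    | zero =>
      constructor
      · have : Fin.ofNat n 0 = 0 := rfl
        rw [this]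
        simp
      · rw [ofNat_succ]
        have : Fin.ofNat n 0 = 0 := rfl
        rw [this, hu1]
        simp
    | succ k ih =>
      refine ⟨ih.2, ?_⟩
      rw [ofNat_succ n (k + 1), ofNat_succ n k, hrec2, ← ofNat_succ n k, ih.1, ih.2]
      have hc2 : Real.cos ((k + 1 + 1 : ℕ) * t) =
          2 * α * Real.cos ((k + 1 : ℕ) * t) - Real.cos (k * t) := by
        rw [← hcos]
        have e1 : ((k + 1 + 1 : ℕ) : ℝ) * t = (k + 1 : ℕ) * t + t := by push_cast; ring
        have e2 : (k : ℝ) * t = (k + 1 : ℕ) * t - t := by push_cast; ring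
        rw [e1, e2, Real.cos_add, Real.cos_sub]
        ring
      have hs2 : Real.sin ((k + 1 + 1 : ℕ) * t) =
          2 * α * Real.sin ((k + 1 : ℕ) * t) - Real.sin (k * t) := by
        rw [← hcos]
        have e1 : ((k + 1 + 1 : ℕ) : ℝ) * t = (k + 1 : ℕ) * t + t := by push_cast; ring
        have e2 : (k : ℝ) * t = (k + 1 : ℕ) * t - t := by push_cast; ring
        rw [e1, e2, Real.sin_add, Real.sin_sub]
        ring
      rw [hc2, hs2]
      module
  have hnn : Real.cos (n * t) = 1 := by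
    have h1 := (hform n).1
    have h2 : Fin.ofNat n n = 0 := by
      apply Fin.ext
      simp [Fin.ofNat]
    rw [h2] at h1
    have h4 : u 0 ⬝ᵥ (Real.cos (n * t) • u 0 + Real.sin (n * t) • e₂) = Real.cos (n * t) := by
      rw [dotProduct_add, dotProduct_smul, dotProduct_smul, hu, h12]
      simp
    rw [← h1, hu] at h4
    exact h4.symm
  obtain ⟨k, hk⟩ := (Real.cos_eq_one_iff _).1 hnn
  refine ⟨u 0, e₂, k, hu 0, h11, h12, fun i => ?_⟩
  have h1 := (hform i.val).1
  have h2 : Fin.ofNat n i.val = i := by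
    apply Fin.ext
    simp [Fin.ofNat, Nat.mod_eq_of_lt i.isLt]
  rw [h2] at h1
  have h3 : (i.val : ℝ) * t = 2 * Real.pi * k * i.val / n := by
    rw [eq_div_iff hn0]
    linear_combination (-(i.val : ℝ)) * hk
  rw [h3] at h1
  exact h1

end CP
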