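import Pool.Agent.H246CP.Stubs
import Pool.Agent.H246KN.Basic

/-!
Task ITER: the bump travels once around the polygon (by helper403).
-/

set_option autoImplicit false

namespace CP

open Matrix KN Filter Topology

namespace ITER

/-- change of the first side of a word -/
theorem sap_rot {w : List Dir} (hw : SAP w) : SAP (w.rotate 1) := by
  obtain ⟨hl, hp, hn⟩ := hw
  match w, hl, hp, hn with
  | d :: e :: w', hl, hp, hn =>
    have hrot : (d :: e :: w').rotate 1 = e :: (w' ++ [d]) := by
      rw [List.rotate_cons_succ]; simp
    rw [hrot]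
    have hpos : pos (e :: w') = - vec d := by
      have : pos (e :: w') + vec d = 0 := hp
      exact eq_neg_of_add_eq_zero_left this
    have hlast : path w' = (path w').dropLast ++ [0] := by
      conv_lhs => rw [← List.dropLast_append_getLast (path_ne_nil w'), path_getLast]
    set D := (path w').dropLast with hD
    have hA : path (e :: w') = - vec d :: (D ++ [0]) := by
      rw [← hlast, ← hpos]; rfl
    have hB : path (w' ++ [d]) = (D.map (fun p => p + vec d)) ++ [vec d, 0] := by
      rw [path_append]
      simp only [pos, path, zero_add]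
      rfl
    have hA' : (path (e :: w')).map (fun p => p + vec d) =
        [0] ++ (D.map (fun p => p + vec d) ++ [vec d]) := by
      rw [hA]; simp
    have hB' : path (w' ++ [d]) = (D.map (fun p => p + vec d) ++ [vec d]) ++ [0] := by
      rw [hB]; simp
    have hperm : List.Perm (path (w' ++ [d])) ((path (e :: w')).map (fun p => p + vec d)) := by
      rw [hA', hB']
      exact List.perm_append_comm
    refine ⟨by simp at hl ⊢; omega, ?_, ?_⟩
    · have : e :: (w' ++ [d]) = (e :: w') ++ [d] := rfl
      rw [this, pos_append, hpos]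
      simp [pos]
    · have : (path (e :: (w' ++ [d]))).tail = path (w' ++ [d]) := rfl
      rw [this, hperm.nodup_iff]
      refine List.Nodup.map (add_left_injective (vec d)) ?_
      exact hn

theorem sap_rotk {w : List Dir} (hw : SAP w) (k : ℕ) : SAP (w.rotate k) := by
  induction k with
  | zero => rw [List.rotate_zero]; exact hw
  | succ k ih =>
    have h4 := sap_rot ih
    rwa [List.rotate_rotate] at h4

/-- no return after one step -/
theorem no_back {d : Dir} {S : List Dir} (h : SAP (d :: neg d :: S)) : False := by
  obtain ⟨hl, hp, hn⟩ := h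
  have h0 : pos S = 0 := by
    have : pos S + vec (neg d) + vec d = 0 := hp
    rw [KN.vec_neg] at this
    simpa using this
  have hn2 : ((pos S + vec (neg d)) :: path S).Nodup := hn
  have hn3 : (path S).Nodup := (List.nodup_cons.1 hn2).2
  have hlS : 2 ≤ S.length := by simp at hl; omega
  have hlen := path_length S
  have e0 := path_getElem S 0 (by omega)
  have e1 := path_getElem S S.length (by omega)
  rw [List.drop_zero, h0] at e0
  rw [List.drop_length] at e1
  have h5 := (List.Nodup.getElem_inj_iff hn3 (hi := by omega) (hj := by omega)).1 (e0.trans e1.symm)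
  omega

theorem dir_cases (d f : Dir) : f = d ∨ f = neg d ∨ perp d f := by
  revert d f
  decide

theorem perp_symm {d f : Dir} (h : perp d f) : perp f d := fun h' => h h'.symm

theorem perp_neg {d f : Dir} (h : perp d f) : perp d (neg f) := by
  revert d f
  decide

theorem exists_perp (d : Dir) : ∃ e, perp d e := by
  revert d
  decide

theorem JJ.refl (l : List V) : JJ l l := Relation.EqvGen.refl l

theorem JJ.symm {l l' : List V} (h : JJ l l') : JJ l' l := Relation.EqvGen.symm _ _ h

theorem JJ.trans {l l' l'' : List V} (h : JJ l l') (h' : JJ l' l'') : JJ l l'' :=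
  Relation.EqvGen.trans _ _ _ h h'

/-- the polygon with a bump at the first side -/
noncomputable def H (w : List Dir) (e : Dir) : List V :=
  match w with
  | [] => []
  | d :: S => bp d e ++ S.map ev

theorem H_length {w : List Dir} (hw : w ≠ []) (e : Dir) : (H w e).length = w.length + 1 := by
  cases w with
  | nil => exact absurd rfl hw
  | cons d S =>
    simp only [H, bp, List.length_append, List.length_cons, List.length_nil, List.length_map]
    omega

/-- one step -/
theorem step (hS : Z_movS) (hC : Z_movC) (hR : Z_movR) {d f e : Dir} {S : List Dir}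
    (he : perp d e) (hw : SAP (d :: f :: S)) :
    ∃ e', perp f e' ∧ JJ (bp d e ++ ev f :: S.map ev) (ev d :: (bp f e' ++ S.map ev)) := by
  rcases dir_cases d f with rfl | rfl | h
  · exact ⟨e, he, hS _ _ _ he hw⟩
  · exact (no_back hw).elim
  · refine ⟨d, perp_symm h, ?_⟩
    have h1 := hR d e (neg f) (f :: S) he (perp_neg h) hw
    rw [List.map_cons] at h1
    exact JJ.trans h1 (hC d f S h hw)

theorem step2 (hS : Z_movS) (hC : Z_movC) (hR : Z_movR) (hJ : Z_rotJ) {w : List Dir} {e : Dir}
    (he : ∀ d ∈ w.head?, perp d e) (hw : SAP w) :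
    ∃ e', (∀ d ∈ (w.rotate 1).head?, perp d e') ∧ JJ ((H w e).rotate 1) (H (w.rotate 1) e') := by
  match w, hw, he with
  | [], hw, _ => exact absurd hw.1 (by simp)
  | [d], hw, _ => exact absurd hw.1 (by simp)
  | d :: f :: S, hw, he =>
    obtain ⟨e', h1, h2⟩ := step hS hC hR (he d (by simp)) hw
    have hrot : (d :: f :: S).rotate 1 = f :: (S ++ [d]) := by
      rw [List.rotate_cons_succ]; simp
    rw [hrot]
    refine ⟨e', ?_, ?_⟩
    · intro g hg
      simp only [List.head?_cons, Option.mem_some_iff] at hg
      rw [← hg]
      exact h1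
    · have h3 := hJ _ _ h2
      have e1 : H (d :: f :: S) e = bp d e ++ ev f :: S.map ev := rfl
      have e2 : H (f :: (S ++ [d])) e' = (ev d :: (bp f e' ++ S.map ev)).rotate 1 := by
        rw [List.rotate_cons_succ, List.rotate_zero]
        simp only [H, List.map_append, List.map_cons, List.map_nil, List.append_assoc]
      rw [e1, e2]
      exact h3

theorem steps (hS : Z_movS) (hC : Z_movC) (hR : Z_movR) (hJ : Z_rotJ) {w : List Dir} {e : Dir}
    (he : ∀ d ∈ w.head?, perp d e) (hw : SAP w) (k : ℕ) :
    ∃ e', (∀ d ∈ (w.rotate k).head?, perp d e') ∧ JJ ((H w e).rotate k) (H (w.rotate k) e') := by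
  induction k with
  | zero =>
    rw [List.rotate_zero, List.rotate_zero]
    exact ⟨e, he, JJ.refl _⟩
  | succ k ih =>
    obtain ⟨e₁, h1, h2⟩ := ih
    obtain ⟨e₂, h3, h4⟩ := step2 hS hC hR hJ h1 (sap_rotk hw k)
    rw [List.rotate_rotate] at h3 h4
    refine ⟨e₂, h3, ?_⟩
    have h5 := hJ _ _ h2
    rw [List.rotate_rotate] at h5
    exact JJ.trans h5 h4

end ITER

open ITER in
theorem Z_iter_proof (hS : Z_movS) (hC : Z_movC) (hR : Z_movR) (hJ : Z_rotJ) : Z_iter := by
  intro d e S he hw
  obtain ⟨e', h1, h2⟩ := steps hS hC hR hJ (w := d :: S) (e := e)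
    (fun g hg => by
      simp only [List.head?_cons, Option.mem_some_iff] at hg
      rw [← hg]
      exact he) hw (d :: S).length
  rw [List.rotate_length] at h1 h2
  have h3 : perp d e' := h1 d (by simp)
  have h4 := hR d e' e S h3 he hw
  have h5 : JJ ((H (d :: S) e).rotate (d :: S).length) (H (d :: S) e) := JJ.trans h2 h4
  have h6 := hJ _ _ h5
  rw [List.rotate_rotate, ← H_length (w := d :: S) (by simp) e, List.rotate_length] at h6
  exact h6

end CP
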