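import Pool.Agent.H246CP.Stubs
import Pool.Agent.Helper954.Hopf.D1c

/-!
# Task JC: relative form of `join_cover`
-/

set_option autoImplicit false

namespace CP

open Matrix KN Filter Topology

namespace JC

open Set
open Pool.Agent.Helper954.Hopf.Dold
open Pool.Agent.Helper954.Hopf.Dold.D1a (fine_chains)
open Pool.Agent.Helper954.Hopf.Dold.D1b (no_labels)
open Pool.Agent.Helper954.Hopf.Dold.D1c (dc_compact dc_sh_mem dcun dc_un_sh dc_sh_un dc_un_dist
  dc_sh_iter)

theorem un_mem (p M : ℕ) [NeZero p] {x : VV p M} (hx : x ∈ JK p M) : dcun x ∈ JK p M := by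
  obtain ⟨h0, h1, h2⟩ := hx
  refine ⟨fun i l => h0 i (l + 1), ?_, fun i l l' hl => h2 i (l + 1) (l' + 1) (by simpa using hl)⟩
  rw [← h1]
  refine Finset.sum_congr rfl fun i _ => ?_
  exact Equiv.sum_comp (Equiv.addRight (1 : ZMod p)) (fun l => x i l)

theorem jc (p : ℕ) [Fact p.Prime] (M : ℕ) (J : Type) [Fintype J] (hJ : Fintype.card J < M)
    (O : J → Set (VV p M)) (lab : J → VV p M → ZMod p)
    (hO : ∀ j, ∀ x ∈ O j, x ∈ JK p M → ∀ᶠ y in 𝓝[JK p M] x, y ∈ O j ∧ lab j y = lab j x)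
    (hinv : ∀ j, ∀ x ∈ O j, x ∈ JK p M → sh x ∈ O j ∧ lab j (sh x) = lab j x + 1) :
    ∃ x ∈ JK p M, ∀ j, x ∉ O j := by
  classical
  by_contra hcon
  push Not at hcon
  let O' : J × ZMod p → Set (VV p M) := fun q => {x | x ∈ O q.1 ∧ lab q.1 x = q.2}
  let U : J × ZMod p → Set (VV p M) := fun q => interior {y | y ∈ JK p M → y ∈ O' q}
  have hU : ∀ q, IsOpen (U q) := fun q => isOpen_interior
  have hcov : JK p M ⊆ ⋃ q, U q := by
    intro x hx
    obtain ⟨j, hj⟩ := hcon x hx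
    refine mem_iUnion.mpr ⟨(j, lab j x), ?_⟩
    rw [mem_interior_iff_mem_nhds]
    exact eventually_nhdsWithin_iff.1 (hO j x hj hx)
  obtain ⟨δ, hδ, hleb⟩ := lebesgue_number_lemma_of_metric (dc_compact p M) hU hcov
  let G : VV p M → J → Prop := fun x j => ∃ l, ∀ y ∈ Metric.ball x δ, y ∈ JK p M → y ∈ O' (j, l)
  have hG1 : ∀ x j, G x j → G (sh x) j := by
    rintro x j ⟨l, hl⟩
    refine ⟨l + 1, ?_⟩
    intro y hy hyK
    have hy' : dcun y ∈ Metric.ball x δ := by
      rw [Metric.mem_ball] at hy ⊢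
      refine lt_of_le_of_lt ?_ hy
      have := dc_un_dist y (sh x)
      rwa [dc_un_sh] at this
    have hyK' := un_mem p M hyK
    obtain ⟨h1, h2⟩ := hl _ hy' hyK'
    obtain ⟨h3, h4⟩ := hinv j _ h1 hyK'
    rw [dc_sh_un] at h3 h4
    refine ⟨h3, ?_⟩
    show lab j y = l + 1
    rw [h4]
    exact congrArg (· + 1) h2
  have hG2 : ∀ x j, G (sh x) j → G x j := by
    intro x j h
    have hit : ∀ k : ℕ, G (sh^[k] (sh x)) j := by
      intro k
      induction k with
      | zero => exact h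
      | succ k ih =>
        rw [Function.iterate_succ_apply']
        exact hG1 _ _ ih
    have hp1 : p - 1 + 1 = p := Nat.succ_pred_eq_of_pos (Fact.out : p.Prime).pos
    have h5 := hit (p - 1)
    rw [← Function.iterate_succ_apply, Nat.succ_eq_add_one, hp1, dc_sh_iter] at h5
    simpa using h5
  let e := Fintype.equivFin J
  let a : VV p M → ℕ := fun x => sInf {n | ∃ j, (e j : ℕ) = n ∧ G x j}
  have hGne : ∀ x ∈ JK p M, ∃ j, (e j : ℕ) = a x ∧ G x j := by
    intro x hx
    have hne : {n | ∃ j, (e j : ℕ) = n ∧ G x j}.Nonempty := by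
      obtain ⟨⟨j, l⟩, h⟩ := hleb x hx
      exact ⟨e j, j, rfl, l, fun y hy hyK => interior_subset (h hy) hyK⟩
    exact Nat.sInf_mem hne
  have hasx : ∀ x, a (sh x) = a x := by
    intro x
    show sInf {n | ∃ j, (e j : ℕ) = n ∧ G (sh x) j} = sInf {n | ∃ j, (e j : ℕ) = n ∧ G x j}
    congr 1
    ext n
    constructor
    · rintro ⟨j, h1, h2⟩
      exact ⟨j, h1, hG2 x j h2⟩
    · rintro ⟨j, h1, h2⟩
      exact ⟨j, h1, hG1 x j h2⟩
  let s : VV p M → ZMod p := fun x =>
    if h : a x < Fintype.card J then lab (e.symm ⟨a x, h⟩) x else 0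
  have hs : ∀ x j, (e j : ℕ) = a x → s x = lab j x := by
    intro x j h
    have hlt : a x < Fintype.card J := by rw [← h]; exact (e j).2
    show (if h : a x < Fintype.card J then lab (e.symm ⟨a x, h⟩) x else 0) = lab j x
    rw [dif_pos hlt]
    congr 1
    rw [Equiv.symm_apply_eq]
    exact Fin.ext h.symm
  obtain ⟨c, hc1, hc2, hc3⟩ := fine_chains p M δ hδ
  refine no_labels p sh (JK p M) (fun x hx => dc_sh_mem p M hx) (fun x y => dist x y < δ) a s
    (M - 1) ?_ (fun x _ => hasx x) ?_ ?_ c ?_ (hc2 (by omega)) ?_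
  · intro x hx
    obtain ⟨j, h1, -⟩ := hGne x hx
    rw [← h1]
    have := (e j).2
    omega
  · intro x hx
    obtain ⟨j, h1, l, h2⟩ := hGne x hx
    rw [hs x j h1, hs (sh x) j (by rw [h1, hasx])]
    exact (hinv j x (h2 x (Metric.mem_ball_self hδ) hx).1 hx).2
  · intro x hx y hy hd hab
    obtain ⟨j, h1, l, h2⟩ := hGne x hx
    rw [hs x j h1, hs y j (by rw [h1, hab])]
    have h3 := (h2 x (Metric.mem_ball_self hδ) hx).2
    have h4 := (h2 y (show y ∈ Metric.ball x δ by rw [Metric.mem_ball, dist_comm]; exact hd) hy).2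
    exact h3.trans h4.symm
  · intro k hk
    exact hc1 k (by omega)
  · intro k hk
    exact hc3 k (by omega)

end JC

theorem Z_jc_proof : Z_jc := fun p _ M J _ hJ O lab hO hinv => JC.jc p M J hJ O lab hO hinv

end CP
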