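import Pool.Agent.H246CP.Stubs

/-!
# Motions give paths in the quotient
-/

set_option autoImplicit false

namespace CP

open Matrix KN Filter Topology

namespace JOIN

/-- from the model as a product to functions -/
def ofV (x : V) : R3 := ![x.1, x.2.1, x.2.2]

theorem toV_ofV (x : V) : toV (ofV x) = x := rfl

theorem ofV_toV (x : R3) : ofV (toV x) = x := by
  funext i
  fin_cases i <;> rfl

theorem toV_inj (x y : R3) (h : toV x = toV y) : x = y := by
  rw [← ofV_toV x, ← ofV_toV y, h]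

theorem cont_ofV : Continuous ofV := by
  unfold ofV
  apply continuous_pi
  intro i
  fin_cases i
  · exact continuous_fst
  · exact continuous_fst.comp continuous_snd
  · exact continuous_snd.comp continuous_snd

theorem dot_ofV (x : V) : ofV x ⬝ᵥ ofV x = dV x x := by
  simp [ofV, dV, dotProduct, Fin.sum_univ_three]

theorem sum_ofV {n : ℕ} (f : Fin n → V) : ∑ i, ofV (f i) = ofV (∑ i, f i) := by
  funext j
  rw [Finset.sum_apply]
  fin_cases j
  · change ∑ c, (f c).1 = (∑ i, f i).1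
    rw [Prod.fst_sum]
  · change ∑ c, (f c).2.1 = (∑ i, f i).2.1
    rw [Prod.snd_sum, Prod.fst_sum]
  · change ∑ c, (f c).2.2 = (∑ i, f i).2.2
    rw [Prod.snd_sum, Prod.snd_sum]

theorem ofV_zero : ofV 0 = 0 := by
  funext i
  fin_cases i <;> rfl

/-! ### rotations -/

theorem vtx_rot {n : ℕ} (ℓ : Fin n → ℝ) (u v : Fin n → R3) (A : Matrix (Fin 3) (Fin 3) ℝ)
    (h : ∀ i, v i = A *ᵥ u i) (k : ℕ) : vtx ℓ v k = A *ᵥ vtx ℓ u k := by
  unfold vtx
  rw [mulVec_sum]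
  apply Finset.sum_congr rfl
  intro i _
  split_ifs
  · rw [h i, mulVec_smul]
  · rw [mulVec_zero]

theorem side_rot {n : ℕ} (ℓ : Fin n → ℝ) (u v : Fin n → R3) (A : Matrix (Fin 3) (Fin 3) ℝ)
    (h : ∀ i, v i = A *ᵥ u i) (i : Fin n) (x : R3) (hx : x ∈ side ℓ u i) :
    A *ᵥ x ∈ side ℓ v i := by
  unfold side at hx ⊢
  rcases hx with ⟨a, b, ha, hb, hab, rfl⟩
  refine ⟨a, b, ha, hb, hab, ?_⟩
  rw [vtx_rot ℓ u v A h, vtx_rot ℓ u v A h, mulVec_add, mulVec_smul, mulVec_smul]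

theorem rot_inj (A : Matrix (Fin 3) (Fin 3) ℝ) (hA : A ∈ specialOrthogonalGroup (Fin 3) ℝ)
    (x y : R3) (h : A *ᵥ x = A *ᵥ y) : x = y := by
  obtain ⟨h1, h2⟩ := mem_specialOrthogonalGroup_iff.mp hA
  have h3 := (mem_unitaryGroup_iff').mp h1
  have h4 : star A *ᵥ (A *ᵥ x) = star A *ᵥ (A *ᵥ y) := by rw [h]
  rw [mulVec_mulVec, mulVec_mulVec, h3, one_mulVec, one_mulVec] at h4
  exact h4

theorem selfInt_rot {n : ℕ} [NeZero n] (ℓ : Fin n → ℝ) (u v : Fin n → R3)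
    (A : Matrix (Fin 3) (Fin 3) ℝ) (hA : A ∈ specialOrthogonalGroup (Fin 3) ℝ)
    (h : ∀ i, v i = A *ᵥ u i) (hu : SelfInt ℓ u) : SelfInt ℓ v := by
  rcases hu with ⟨i, j, h1, h2, h3, x, hx1, hx2⟩ | ⟨i, x, ⟨hx1, hx2⟩, hx3⟩
  · exact Or.inl ⟨i, j, h1, h2, h3, A *ᵥ x, side_rot ℓ u v A h i x hx1, side_rot ℓ u v A h j x hx2⟩
  · refine Or.inr ⟨i, A *ᵥ x, ⟨side_rot ℓ u v A h i x hx1, side_rot ℓ u v A h (i + 1) x hx2⟩, ?_⟩
    intro h4
    rw [vtx_rot ℓ u v A h] at h4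
    exact hx3 (rot_inj A hA _ _ h4)

theorem mk_mem {n : ℕ} [NeZero n] (ℓ : Fin n → ℝ) (u : Conf n ℓ) (hu : ¬ SelfInt ℓ u.1) :
    mk u ∈ (SI n ℓ)ᶜ := by
  rintro ⟨v, hv, hs⟩
  have h1 : (rotS n ℓ).r v u := Quotient.exact hv
  rcases h1 with ⟨A, hA, h⟩
  exact hu (selfInt_rot ℓ v.1 u.1 A hA h hs)

/-! ### paths -/

/-- the list of sides -/
def L {n : ℕ} (u : Conf n (one n)) : List V := List.ofFn (fun i => toV (u.1 i))

theorem L_inj {n : ℕ} (u v : Conf n (one n)) (h : L u = L v) : u = v := by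
  have h1 := List.ofFn_injective h
  apply Subtype.ext
  funext i
  exact toV_inj _ _ (congrFun h1 i)

theorem embL_conf {n : ℕ} (g : Fin n → V) (h : EmbL (List.ofFn g)) :
    (∀ i, ofV (g i) ⬝ᵥ ofV (g i) = 1) ∧ ∑ i, one n i • ofV (g i) = 0 := by
  obtain ⟨h1, h2, _⟩ := h
  constructor
  · intro i
    rw [dot_ofV]
    exact h1 _ (List.mem_ofFn.2 ⟨i, rfl⟩)
  · unfold one
    simp only [one_smul]
    rw [sum_ofV, ← List.sum_ofFn, h2, ofV_zero]

theorem embL_not (hb : Z_bridge) {n : ℕ} [NeZero n] (hn : 3 ≤ n) (g : Fin n → V)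
    (h : EmbL (List.ofFn g)) : ¬ SelfInt (one n) (fun i => ofV (g i)) := by
  have h1 := embL_conf g h
  have h3 : ∑ i, ofV (g i) = 0 := by
    have := h1.2
    unfold one at this
    simpa only [one_smul] using this
  have h2 := hb n hn (fun i => ofV (g i)) h1.1 h3
  rw [h2.2, not_not, h2.1]
  exact h.2.2

/-- one motion -/
theorem one_motion (hb : Z_bridge) {n : ℕ} [NeZero n] (hn : 3 ≤ n) (γ : ℝ → Fin n → V)
    (hc : ∀ i, Continuous (fun t => γ t i))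
    (hE : ∀ t : ℝ, 0 ≤ t → t ≤ 1 → EmbL (List.ofFn (γ t))) :
    JoinedIn (SI n (one n))ᶜ
      (mk ⟨fun i => ofV (γ 0 i), embL_conf (γ 0) (hE 0 le_rfl zero_le_one)⟩)
      (mk ⟨fun i => ofV (γ 1 i), embL_conf (γ 1) (hE 1 zero_le_one le_rfl)⟩) := by
  have hcont : Continuous (fun t : unitInterval =>
      (mk ⟨fun i => ofV (γ t i), embL_conf (γ t) (hE t t.2.1 t.2.2)⟩ : Mod n (one n))) := by
    have h1 : Continuous (fun t : unitInterval =>
      (⟨fun i => ofV (γ t i), embL_conf (γ t) (hE t t.2.1 t.2.2)⟩ : Conf n (one n))) := by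
      apply Continuous.subtype_mk
      apply continuous_pi
      intro i
      exact cont_ofV.comp ((hc i).comp continuous_subtype_val)
    exact continuous_quotient_mk'.comp h1
  refine ⟨⟨⟨_, hcont⟩, ?_, ?_⟩, ?_⟩
  · rfl
  · rfl
  · intro t
    exact mk_mem (one n) _ (embL_not hb hn (γ t) (hE t t.2.1 t.2.2))

/-- reachability -/
def T (n : ℕ) [NeZero n] (es es' : List V) : Prop := ∀ u : Conf n (one n), es = L u →
  ¬ SelfInt (one n) u.1 → ∃ u' : Conf n (one n), es' = L u' ∧ ¬ SelfInt (one n) u'.1 ∧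
    JoinedIn (SI n (one n))ᶜ (mk u) (mk u')

theorem T_J1 (hb : Z_bridge) {n : ℕ} [NeZero n] (hn : 3 ≤ n) (es es' : List V)
    (h : J1 es es') : T n es es' := by
  intro u hu hs
  obtain ⟨m, γ, hc, hE, h0, h1⟩ := h
  have hm : m = n := by
    have h2 : (List.ofFn (γ 0)).length = (L u).length := by rw [← h0, hu]
    unfold L at h2
    simpa using h2
  subst hm
  refine ⟨⟨fun i => ofV (γ 1 i), embL_conf (γ 1) (hE 1 zero_le_one le_rfl)⟩, ?_,
    embL_not hb hn (γ 1) (hE 1 zero_le_one le_rfl), ?_⟩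
  · rw [h1]
    rfl
  · have h3 : u = ⟨fun i => ofV (γ 0 i), embL_conf (γ 0) (hE 0 le_rfl zero_le_one)⟩ := by
      apply L_inj
      rw [← hu, h0]
      rfl
    rw [h3]
    exact one_motion hb hn γ hc hE

theorem J1_symm (es es' : List V) (h : J1 es es') : J1 es' es := by
  obtain ⟨m, γ, hc, hE, h0, h1⟩ := h
  refine ⟨m, fun t => γ (1 - t), ?_, ?_, ?_, ?_⟩
  · intro i
    exact (hc i).comp (continuous_const.sub continuous_id)
  · intro t ht0 ht1
    exact hE (1 - t) (by linarith) (by linarith)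
  · simp only [sub_zero]
    exact h1
  · simp only [sub_self]
    exact h0

theorem T_refl {n : ℕ} [NeZero n] (es : List V) : T n es es := by
  intro u hu hs
  exact ⟨u, hu, hs, JoinedIn.refl (mk_mem (one n) u hs)⟩

theorem T_trans {n : ℕ} [NeZero n] (es₁ es₂ es₃ : List V) (h1 : T n es₁ es₂) (h2 : T n es₂ es₃) :
    T n es₁ es₃ := by
  intro u hu hs
  obtain ⟨v, hv, hvs, hj⟩ := h1 u hu hs
  obtain ⟨w, hw, hws, hj2⟩ := h2 v hv hvs
  exact ⟨w, hw, hws, hj.trans hj2⟩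

theorem T_JJ (hb : Z_bridge) {n : ℕ} [NeZero n] (hn : 3 ≤ n) (es es' : List V)
    (h : JJ es es') : T n es es' ∧ T n es' es := by
  induction h with
  | rel x y h => exact ⟨T_J1 hb hn x y h, T_J1 hb hn y x (J1_symm x y h)⟩
  | refl x => exact ⟨T_refl x, T_refl x⟩
  | symm x y _ ih => exact ⟨ih.2, ih.1⟩
  | trans x y z _ _ ih1 ih2 => exact ⟨T_trans x y z ih1.1 ih2.1, T_trans z y x ih2.2 ih1.2⟩

end JOIN

theorem Z_join_proof (hb : Z_bridge) : Z_join := by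
  intro n _ hn u u' hu h
  obtain ⟨v, hv, _, hj⟩ := (JOIN.T_JJ hb hn _ _ h).1 u rfl hu
  have : u' = v := JOIN.L_inj _ _ hv
  rw [this]
  exact hj

end CP
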