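import Pool.Agent.H246CP.Stubs
import Pool.Agent.H246KN.SIM

/-!
# CP, task KEY: a polygon made of moving sides and lattice sides is simple
-/

set_option autoImplicit false

namespace CP

open Matrix KN Filter Topology

namespace KEY

theorem vsf_ends (es : List V) : ∀ p : V, vsf p es ++ [p + es.sum] = p :: ends p es := by
  induction es with
  | nil => intro p; simp [vsf, ends]
  | cons e l ih =>
    intro p
    have h := ih (p + e)
    simp only [vsf, ends, List.cons_append, List.sum_cons, ← add_assoc]
    rw [h]

theorem edges_poly (es : List V) (h0 : es ≠ []) (hs : es.sum = 0) :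
    edges (poly es) = chain 0 (ends 0 es) := by
  have h1 := vsf_ends es 0
  cases es with
  | nil => exact absurd rfl h0
  | cons e l =>
    rw [hs, add_zero] at h1
    have h2 : poly (e :: l) = 0 :: vsf (0 + e) l := rfl
    rw [h2]
    have h3 : vsf 0 (e :: l) = 0 :: vsf (0 + e) l := rfl
    rw [h3, List.cons_append] at h1
    have h4 := (List.cons.inj h1).2
    show chain 0 (vsf (0 + e) l ++ [0]) = _
    rw [h4]

theorem ends_append (A : List V) : ∀ (p : V) (B : List V),
    ends p (A ++ B) = ends p A ++ ends (p + A.sum) B := by
  induction A with
  | nil => intro p B; simp [ends]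
  | cons e l ih =>
    intro p B
    simp only [List.cons_append, ends, List.sum_cons, ih, add_assoc]

theorem chain_ends_append (A : List V) : ∀ (p : V) (B : List V),
    chain p (ends p (A ++ B)) = chain p (ends p A) ++ chain (p + A.sum) (ends (p + A.sum) B) := by
  induction A with
  | nil => intro p B; simp [ends, chain]
  | cons e l ih =>
    intro p B
    simp only [List.cons_append, ends, chain, List.sum_cons, ih, add_assoc]

theorem ends_length (es : List V) : ∀ p : V, (ends p es).length = es.length := by
  induction es with
  | nil => intro p; rfl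
  | cons e l ih => intro p; simp [ends, ih]

theorem ce_length (es : List V) (p : V) : (chain p (ends p es)).length = es.length := by
  rw [chain_length, ends_length]

theorem ce_getElem (es : List V) : ∀ (p : V) (i : ℕ) (h : i < (chain p (ends p es)).length)
    (h' : i < es.length),
    (chain p (ends p es))[i] = (p + (es.take i).sum, p + (es.take i).sum + es[i]) := by
  induction es with
  | nil => intro p i h h'; simp at h'
  | cons e l ih =>
    intro p i h h'
    cases i with
    | zero => simp [ends, chain]
    | succ i =>
      simp only [ends, chain, List.getElem_cons_succ]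
      have h1 : i < (chain (p + e) (ends (p + e) l)).length := by
        rw [ce_length]
        simpa using h'
      have h2 : i < l.length := by simpa using h'
      rw [ih (p + e) i h1 h2]
      simp only [List.take_succ_cons, List.sum_cons, add_assoc]

theorem emb_add (p q : Z3) : emb (p + q) = emb p + emb q := by
  obtain ⟨a, b, c⟩ := p
  obtain ⟨a', b', c'⟩ := q
  simp [emb]

theorem sum_ev (w : List Dir) : (w.map ev).sum = emb (pos w) := by
  induction w with
  | nil => exact SIM.emb_zero.symm
  | cons d l ih =>
    rw [List.map_cons, List.sum_cons, ih, pos, emb_add, ev, add_comm]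

/-- the edges of a lattice walk read from the head -/
theorem ce_map (w : List Dir) (P : Z3) (i : ℕ)
    (h : i < (chain (emb P) (ends (emb P) (w.map ev))).length) (h' : i < w.length) :
    (chain (emb P) (ends (emb P) (w.map ev)))[i] =
      (emb (P + pos (w.take i)), emb (P + pos (w.take i) + vec w[i])) := by
  have h2 : i < (w.map ev).length := by simpa using h'
  rw [ce_getElem (w.map ev) (emb P) i h h2, ← List.map_take, sum_ev, List.getElem_map]
  rw [emb_add, emb_add, ev, emb_add]

/-- partial sums of a closed word are different -/
theorem take_inj {w : List Dir} (hw : SAP w) {i j : ℕ} (hi : i < w.length) (hj : j < w.length)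
    (h : pos (w.take i) = pos (w.take j)) : i = j := by
  obtain ⟨hlen, hpos, hnd⟩ := hw
  have key : ∀ k, pos (w.take k) = - pos (w.drop k) := by
    intro k
    have h1 : pos (w.take k ++ w.drop k) = 0 := by rw [List.take_append_drop]; exact hpos
    rw [pos_append] at h1
    exact eq_neg_of_add_eq_zero_left h1
  rw [key, key, neg_inj] at h
  -- indices in `1..n`
  have inj : ∀ a b, 1 ≤ a → a ≤ w.length → 1 ≤ b → b ≤ w.length →
      pos (w.drop a) = pos (w.drop b) → a = b := by
    intro a b ha1 ha2 hb1 hb2 hab
    have la : a - 1 < (path w).tail.length := by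
      rw [List.length_tail, path_length]; omega
    have lb : b - 1 < (path w).tail.length := by
      rw [List.length_tail, path_length]; omega
    have ea : (path w).tail[a - 1] = pos (w.drop a) := by
      rw [List.getElem_tail, path_getElem]
      congr 2; omega
    have eb : (path w).tail[b - 1] = pos (w.drop b) := by
      rw [List.getElem_tail, path_getElem]
      congr 2; omega
    have := (List.Nodup.getElem_inj_iff hnd (hi := la) (hj := lb)).1 (by rw [ea, eb, hab])
    omega
  have h0 : pos (w.drop 0) = pos (w.drop w.length) := by
    rw [List.drop_zero, List.drop_length, hpos]; rfl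
  rcases Nat.eq_zero_or_pos i with rfl | hi0
  · rcases Nat.eq_zero_or_pos j with rfl | hj0
    · rfl
    · rw [h0] at h
      have := inj _ _ (by omega) le_rfl hj0 hj.le h
      omega
  · rcases Nat.eq_zero_or_pos j with rfl | hj0
    · rw [h0] at h
      have := inj _ _ hi0 hi.le (by omega) le_rfl h
      omega
    · exact inj _ _ hi0 hi.le hj0 hj.le h

theorem pos_take_succ (w : List Dir) (i : ℕ) (h : i < w.length) :
    pos (w.take (i + 1)) = pos (w.take i) + vec w[i] := by
  rw [List.take_succ_eq_append_getElem h, pos_append]
  simp [pos]

/-- the lattice polygon read from the head is simple -/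
theorem pw_word {w : List Dir} (hw : SAP w) :
    (chain (emb 0) (ends (emb 0) (w.map ev))).Pairwise Disj := by
  rw [List.pairwise_iff_getElem]
  intro i j hi hj hij
  have hi' : i < w.length := by rw [ce_length] at hi; simpa using hi
  have hj' : j < w.length := by rw [ce_length] at hj; simpa using hj
  rw [ce_map w 0 i hi hi', ce_map w 0 j hj hj']
  apply SIM.disj_edge
  · rw [zero_add, zero_add]
    intro h
    have := take_inj hw hi' hj' h
    omega
  · rw [zero_add, zero_add, ← pos_take_succ w i hi', ← pos_take_succ w j hj']
    rintro ⟨h1, h2⟩
    have h3 := take_inj hw (by omega) hj' h1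
    rcases Nat.lt_or_ge (j + 1) w.length with h | h
    · have := take_inj hw h hi' h2
      omega
    · have hj2 : j + 1 = w.length := by omega
      rw [hj2, List.take_length, hw.2.1] at h2
      have h4 : pos (w.take 0) = pos (w.take i) := by
        rw [List.take_zero, ← h2]; rfl
      have h5 := take_inj hw (by omega) hi' h4
      have := hw.1
      omega

theorem vec_ne (d : Dir) : vec d ≠ 0 := by cases d <;> decide

theorem ne_ends (es : List V) (hes : ∀ e ∈ es, e ≠ 0) (p : V) :
    ∀ e ∈ chain p (ends p es), e.1 ≠ e.2 := by
  intro e he
  obtain ⟨i, hi, rfl⟩ := List.getElem_of_mem he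
  have hi' : i < es.length := by rw [ce_length] at hi; exact hi
  rw [ce_getElem es p i hi hi']
  intro h
  have h1 : es[i] = 0 := by
    have h2 : p + (es.take i).sum + 0 = p + (es.take i).sum + es[i] := by
      rw [add_zero]; exact h
    exact (add_left_cancel h2).symm
  exact hes _ (List.getElem_mem hi') h1

end KEY

open KEY in
theorem Z_key_proof : Z_key := by
  intro pre S M R hw hpre hS hM hsum hM0 hMM hMR hSR
  have hq : M.sum = emb (pos pre) := by rw [hsum, sum_ev]
  have htot : (M ++ S.map ev).sum = 0 := by
    rw [List.sum_append, hq, sum_ev, ← emb_add, ← pos_append, hw.2.1]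
    exact SIM.emb_zero
  have hed : edges (poly (M ++ S.map ev)) = chain 0 (ends 0 M) ++
      chain (emb (pos pre)) (ends (emb (pos pre)) (S.map ev)) := by
    rw [edges_poly _ (by simp [hM]) htot, chain_ends_append, zero_add, hq]
  have hpw := pw_word hw
  rw [List.map_append, chain_ends_append, sum_ev, SIM.emb_zero, zero_add,
    List.pairwise_append] at hpw
  obtain ⟨_, hpS, hcross⟩ := hpw
  -- the static edges
  have hst : ∀ e ∈ chain (emb (pos pre)) (ends (emb (pos pre)) (S.map ev)),
      ∃ (S1 : List Dir) (g : Dir) (S2 : List Dir), S = S1 ++ g :: S2 ∧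
        e = (emb (pos (pre ++ S1)), emb (pos (pre ++ S1) + vec g)) := by
    intro e he
    obtain ⟨i, hi, rfl⟩ := List.getElem_of_mem he
    have hi' : i < S.length := by rw [ce_length] at hi; simpa using hi
    refine ⟨S.take i, S[i], S.drop (i + 1), ?_, ?_⟩
    · rw [← List.drop_eq_getElem_cons hi', List.take_append_drop]
    · rw [ce_map S (pos pre) i hi hi', pos_append]
  refine ⟨?_, ?_, ?_⟩
  · intro h
    have h1 : (edges (poly (M ++ S.map ev))).length = 0 := by rw [edges_length, h]; rfl
    rw [hed, List.length_append, ce_length, ce_length] at h1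
    have : M.length = 0 := by omega
    exact hM (List.length_eq_zero_iff.mp this)
  · rw [hed, List.pairwise_append]
    refine ⟨hMM, hpS, ?_⟩
    intro e he e' he' u v hu0 hu1 hv0 hv1 heq
    obtain ⟨S1, g, S2, hS', rfl⟩ := hst e' he'
    rcases hMR e he u hu0 hu1 with h0 | h0
    · -- the static edges do not contain `0`
      obtain ⟨g0, pre', rfl⟩ := List.exists_cons_of_ne_nil hpre
      have h1 : ((0 : V), (0 : V) + ev g0) ∈ chain 0 (ends 0 ((g0 :: pre').map ev)) := by
        simp [ends, chain]
      have h2 := hcross _ h1 _ he' 0 v le_rfl one_pos hv0 hv1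
      apply h2
      rw [lerp_zero, ← heq, h0]
    · rw [heq] at h0
      exact hSR S1 g S2 hS' v hv0 hv1 h0
  · intro e he
    rw [hed, List.mem_append] at he
    rcases he with he | he
    · exact ne_ends M hM0 0 e he
    · obtain ⟨S1, g, S2, hS', rfl⟩ := hst e he
      intro h
      have h1 := SIM.emb_inj h
      have h2 : vec g = 0 := by
        have h3 : pos (pre ++ S1) + 0 = pos (pre ++ S1) + vec g := by rw [add_zero]; exact h1
        exact (add_left_cancel h3).symm
      exact vec_ne g h2

end CP
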