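import Pool.Agent.H246CP.Stubs

/-!
# B5: small perturbations of an embedded polygon
-/

set_option autoImplicit false

namespace CP

open Matrix KN Filter Topology

namespace LOC

theorem continuous_toV : Continuous toV := by
  unfold toV
  exact (continuous_apply 0).prodMk ((continuous_apply 1).prodMk (continuous_apply 2))

theorem continuous_val {n : ℕ} {ℓ : Fin n → ℝ} : Continuous (fun u : Conf n ℓ => u.1) :=
  continuous_subtype_val

theorem continuous_vtx {n : ℕ} (ℓ : Fin n → ℝ) (k : ℕ) :
    Continuous (fun u : Fin n → R3 => vtx ℓ u k) := by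
  unfold vtx
  refine continuous_finsetSum _ fun i _ => ?_
  by_cases h : i.val < k
  · simp only [h, if_true]
    exact (continuous_apply i).const_smul (ℓ i)
  · simp only [h, if_false]
    exact continuous_const

end LOC

theorem Z_loc_proof (h1 : Z_bridge) (h2 : T_near) (h3 : X_naf) : Z_loc := by
  intro n _ hn u hu
  obtain ⟨m, rfl⟩ : ∃ m, n = m + 1 := ⟨n - 1, by omega⟩
  have hsum : ∑ i, u.1 i = 0 := by
    have h := u.2.2
    simpa only [one, one_smul] using h
  have hS : Simple (vlist u.1) := by
    by_contra hc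
    exact hu ((h1 (m + 1) hn u.1 u.2.1 hsum).2.2 hc)
  obtain ⟨ε, hε, hh⟩ := h2 m (fun k : Fin (m + 1) => toV (vtx (one (m + 1)) u.1 k.val)) hS
  have hc : ∀ k : Fin (m + 1), ∀ᶠ u' : Conf (m + 1) (one (m + 1)) in 𝓝 u,
      ‖toV (vtx (one (m + 1)) u'.1 k.val) - toV (vtx (one (m + 1)) u.1 k.val)‖ ≤ ε := by
    intro k
    have hcont : Continuous fun u' : Conf (m + 1) (one (m + 1)) =>
        ‖toV (vtx (one (m + 1)) u'.1 k.val) - toV (vtx (one (m + 1)) u.1 k.val)‖ :=
      ((LOC.continuous_toV.comp ((LOC.continuous_vtx _ k.val).comp LOC.continuous_val)).sub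
        continuous_const).norm
    have h0 := hcont.tendsto u
    rw [sub_self, norm_zero] at h0
    exact (h0.eventually (gt_mem_nhds hε)).mono fun _ h => le_of_lt h
  filter_upwards [eventually_all.2 hc] with u' hu'
  obtain ⟨h, hi⟩ := hh (fun k : Fin (m + 1) => toV (vtx (one (m + 1)) u'.1 k.val)) hu'
  constructor
  · refine h3 _ _ h.symm ?_
    show h.symm '' ps (vlist u'.1) = ps (vlist u.1)
    have hi' : h '' ps (vlist u.1) = ps (vlist u'.1) := hi
    rw [← hi', ← Set.image_comp]
    simp
  · exact h3 _ _ h hi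

end CP
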