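import Pool.Agent.H246CP.Stubs

/-!
# Task MAP: equivariant maps from joins
-/

set_option autoImplicit false

namespace CP

open Matrix KN Filter Topology
open Pool.Agent.Helper954.Hopf.Dold

namespace MAP

variable {p M : ℕ} {X : Type}

open Classical in
/-- one step of the construction -/
noncomputable def step [NeZero p] (g : X → X) (h : ℝ → X → X) (k : Fin M) (z : VV p M → X)
    (x : VV p M) : X :=
  if hx : ∃ l : ZMod p, x k l ≠ 0 then
    g^[(Classical.choose hx).val] (h (M * ∑ l, x k l) (g^[p - (Classical.choose hx).val] (z x)))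
  else z x

theorem iter_split [NeZero p] (g : X → X) (hg : ∀ x, g^[p] x = x) (l : ZMod p) (u : X) :
    g^[l.val] (g^[p - l.val] u) = u := by
  rw [← Function.iterate_add_apply]
  have : l.val + (p - l.val) = p := by
    have := l.val_lt
    omega
  rw [this, hg]

theorem step_eq [NeZero p] (g : X → X) (h : ℝ → X → X) (hg : ∀ x, g^[p] x = x)
    (h0 : ∀ u, h 0 u = u) (k : Fin M) (z : VV p M → X) (x : VV p M) (l : ZMod p)
    (hl : ∀ l', l' ≠ l → x k l' = 0) :
    step g h k z x = g^[l.val] (h (M * ∑ l, x k l) (g^[p - l.val] (z x))) := by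
  unfold step
  split_ifs with hx
  · have hc := Classical.choose_spec hx
    have : Classical.choose hx = l := by
      by_contra hne
      exact hc (hl _ hne)
    rw [this]
  · push Not at hx
    have hs : ∑ l, x k l = 0 := Finset.sum_eq_zero fun l _ => hx l
    rw [hs, mul_zero, h0, iter_split g hg]

theorem exists_row [NeZero p] {x : VV p M} (hx : x ∈ JK p M) (k : Fin M) :
    ∃ l : ZMod p, ∀ l', l' ≠ l → x k l' = 0 := by
  by_cases h : ∃ l, x k l ≠ 0
  · obtain ⟨l, hl⟩ := h
    refine ⟨l, fun l' hl' => ?_⟩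
    rcases hx.2.2 k l' l hl' with h1 | h1
    · exact h1
    · exact absurd h1 hl
  · push Not at h
    exact ⟨0, fun l' _ => h l'⟩

theorem isClosed_JK [NeZero p] : IsClosed (JK p M) := by
  have h1 : JK p M = (⋂ i, ⋂ l, {x : VV p M | 0 ≤ x i l}) ∩
      ({x : VV p M | ∑ i, ∑ l, x i l = 1} ∩
        ⋂ i, ⋂ l, ⋂ l', ⋂ (_ : l ≠ l'), ({x : VV p M | x i l = 0} ∪ {x : VV p M | x i l' = 0})) := by
    ext x
    simp only [JK, Set.mem_ofPred_eq, Set.mem_inter_iff, Set.mem_iInter, Set.mem_union]
  rw [h1]
  refine IsClosed.inter (isClosed_iInter fun i => isClosed_iInter fun l => ?_)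
    (IsClosed.inter ?_ (isClosed_iInter fun i => isClosed_iInter fun l =>
      isClosed_iInter fun l' => isClosed_iInter fun _ => IsClosed.union ?_ ?_))
  · exact isClosed_le continuous_const (by fun_prop)
  · exact isClosed_eq (by fun_prop) continuous_const
  · exact isClosed_eq (by fun_prop) continuous_const
  · exact isClosed_eq (by fun_prop) continuous_const

theorem step_cont [NeZero p] [TopologicalSpace X] (g : X → X) (h : ℝ → X → X) (hgc : Continuous g)
    (hc : Continuous (fun q : ℝ × X => h q.1 q.2)) (hg : ∀ x, g^[p] x = x)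
    (h0 : ∀ u, h 0 u = u) (k : Fin M) (z : VV p M → X) (hz : ContinuousOn z (JK p M)) :
    ContinuousOn (step g h k z) (JK p M) := by
  have hcov : JK p M = ⋃ l : ZMod p, (JK p M ∩ {x | ∀ l', l' ≠ l → x k l' = 0}) := by
    ext x
    simp only [Set.mem_iUnion, Set.mem_inter_iff, Set.mem_ofPred_eq]
    constructor
    · intro hx
      obtain ⟨l, hl⟩ := exists_row hx k
      exact ⟨l, hx, hl⟩
    · rintro ⟨l, hx, _⟩
      exact hx
  have hfin : Finite (ZMod p) := inferInstance
  rw [hcov]
  refine (locallyFinite_of_finite _).continuousOn_iUnion (fun l => ?_) (fun l => ?_)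
  · refine isClosed_JK.inter ?_
    have : {x : VV p M | ∀ l', l' ≠ l → x k l' = 0} =
        ⋂ l', ⋂ (_ : l' ≠ l), {x : VV p M | x k l' = 0} := by
      ext x
      simp only [Set.mem_ofPred_eq, Set.mem_iInter]
    rw [this]
    exact isClosed_iInter fun l' => isClosed_iInter fun _ => isClosed_eq (by fun_prop)
      continuous_const
  · have h1 : ContinuousOn (fun x : VV p M =>
        g^[l.val] (h (M * ∑ l, x k l) (g^[p - l.val] (z x)))) (JK p M) := by
      refine (hgc.iterate _).comp_continuousOn ?_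
      have h2 : ContinuousOn (fun x : VV p M => ((M * ∑ l, x k l : ℝ), g^[p - l.val] (z x)))
          (JK p M) := by
        refine ContinuousOn.prodMk ?_ ((hgc.iterate _).comp_continuousOn hz)
        have : Continuous (fun x : VV p M => (M * ∑ l, x k l : ℝ)) := by fun_prop
        exact this.continuousOn
      exact hc.comp_continuousOn h2
    refine (h1.mono Set.inter_subset_left).congr ?_
    intro x hx
    exact step_eq g h hg h0 k z x l hx.2

theorem val_succ [NeZero p] (l : ZMod p) : (l + 1).val = (l.val + 1) % p := by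
  have h : l + 1 = ((l.val + 1 : ℕ) : ZMod p) := by
    push_cast
    rw [ZMod.natCast_zmod_val]
  rw [h, ZMod.val_natCast]

theorem shift_val [NeZero p] (g : X → X) (hg : ∀ x, g^[p] x = x) (l : ZMod p) (v : X) :
    g^[(l + 1).val] v = g (g^[l.val] v) := by
  rw [val_succ]
  by_cases hp : l.val + 1 < p
  · rw [Nat.mod_eq_of_lt hp, Function.iterate_succ_apply']
  · have hl := l.val_lt
    have hl' : l.val + 1 = p := by omega
    rw [hl', Nat.mod_self, Function.iterate_zero, id, ← Function.iterate_succ_apply' g l.val v,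
      show l.val.succ = p from hl', hg]

theorem shift_val' [NeZero p] (g : X → X) (hg : ∀ x, g^[p] x = x) (l : ZMod p) (v : X) :
    g^[p - (l + 1).val] (g v) = g^[p - l.val] v := by
  rw [val_succ, ← Function.iterate_succ_apply g]
  by_cases hp : l.val + 1 < p
  · rw [Nat.mod_eq_of_lt hp]
    congr 1
    omega
  · have hl := l.val_lt
    have hl' : l.val + 1 = p := by omega
    rw [hl', Nat.mod_self, Nat.sub_zero, Function.iterate_succ_apply', hg,
      show p - l.val = 1 by omega, Function.iterate_one]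

theorem sh_row [NeZero p] {x : VV p M} {k : Fin M} {l : ZMod p}
    (hl : ∀ l', l' ≠ l → x k l' = 0) : ∀ l', l' ≠ l + 1 → (sh x) k l' = 0 := by
  intro l' hl'
  exact hl (l' - 1) (fun h => hl' (by rw [← h]; ring))

theorem sh_sum [NeZero p] (x : VV p M) (k : Fin M) : ∑ l, (sh x) k l = ∑ l, x k l := by
  unfold sh
  exact Fintype.sum_equiv (Equiv.subRight 1) _ _ (fun l => rfl)

theorem step_sh [NeZero p] (g : X → X) (h : ℝ → X → X) (hg : ∀ x, g^[p] x = x)
    (h0 : ∀ u, h 0 u = u) (k : Fin M) (z : VV p M → X) (x : VV p M) (hx : x ∈ JK p M)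
    (hz : z (sh x) = g (z x)) : step g h k z (sh x) = g (step g h k z x) := by
  obtain ⟨l, hl⟩ := exists_row hx k
  rw [step_eq g h hg h0 k z x l hl, step_eq g h hg h0 k z (sh x) (l + 1) (sh_row hl), sh_sum, hz,
    shift_val g hg, shift_val' g hg]

theorem step_one [NeZero p] (g : X → X) (h : ℝ → X → X) (hg : ∀ x, g^[p] x = x)
    (h0 : ∀ u, h 0 u = u) (c : X) (h1 : ∀ t, 1 ≤ t → ∀ u, h t u = c) (k : Fin M)
    (z : VV p M → X) (x : VV p M) (hx : x ∈ JK p M) (hk : 1 ≤ M * ∑ l, x k l) :
    step g h k z (sh x) = g (step g h k z x) := by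
  obtain ⟨l, hl⟩ := exists_row hx k
  rw [step_eq g h hg h0 k z x l hl, step_eq g h hg h0 k z (sh x) (l + 1) (sh_row hl), sh_sum,
    h1 _ hk, h1 _ hk, shift_val g hg]

/-- the sequence of maps -/
noncomputable def seq [NeZero p] (g : X → X) (h : ℝ → X → X) (c : X) : ℕ → VV p M → X
  | 0 => fun _ => c
  | k + 1 => if hk : k < M then step g h ⟨k, hk⟩ (seq g h c k) else seq g h c k

theorem seq_cont [NeZero p] [TopologicalSpace X] (g : X → X) (h : ℝ → X → X) (hgc : Continuous g)
    (hc : Continuous (fun q : ℝ × X => h q.1 q.2)) (hg : ∀ x, g^[p] x = x)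
    (h0 : ∀ u, h 0 u = u) (c : X) : ∀ k, ContinuousOn (seq (M := M) g h c k) (JK p M) := by
  intro k
  induction k with
  | zero => exact continuousOn_const
  | succ k ih =>
    rw [seq]
    split_ifs with hk
    · exact step_cont g h hgc hc hg h0 _ _ ih
    · exact ih

theorem seq_sh [NeZero p] (g : X → X) (h : ℝ → X → X) (hg : ∀ x, g^[p] x = x)
    (h0 : ∀ u, h 0 u = u) (c : X) (h1 : ∀ t, 1 ≤ t → ∀ u, h t u = c) (x : VV p M)
    (hx : x ∈ JK p M) (k0 : Fin M) (hk0 : 1 ≤ M * ∑ l, x k0 l) :
    ∀ k, k0.val < k → seq g h c k (sh x) = g (seq g h c k x) := by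
  intro k
  induction k with
  | zero => intro hk; omega
  | succ k ih =>
    intro hk
    rw [seq]
    split_ifs with hkM
    · rcases Nat.lt_or_ge k0.val k with h2 | h2
      · exact step_sh g h hg h0 _ _ x hx (ih h2)
      · have : k0 = ⟨k, hkM⟩ := Fin.ext (by simp only; omega)
        refine step_one g h hg h0 c h1 _ _ x hx ?_
        rw [← this]
        exact hk0
    · exact ih (by have := k0.2; omega)

end MAP

open MAP in
theorem Z_map_proof : Z_map := by
  intro p hp X _ _ g hgc hg M hM
  obtain ⟨c, ⟨F⟩⟩ := (contractible_iff_id_nullhomotopic X).1 inferInstance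
  set h : ℝ → X → X := fun t u => F (Set.projIcc 0 1 zero_le_one t, u) with hh
  have h0 : ∀ u, h 0 u = u := by
    intro u
    simp only [hh]
    rw [Set.projIcc_left]
    have := F.apply_zero u
    simpa using this
  have h1 : ∀ t, 1 ≤ t → ∀ u, h t u = c := by
    intro t ht u
    simp only [hh]
    rw [Set.projIcc_of_right_le _ ht]
    have := F.apply_one u
    simpa using this
  have hc : Continuous (fun q : ℝ × X => h q.1 q.2) := by
    simp only [hh]
    exact F.continuous.comp ((continuous_projIcc.comp continuous_fst).prodMk continuous_snd)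
  refine ⟨seq g h c M, seq_cont g h hgc hc hg h0 c M, fun x hx => ?_⟩
  have hex : ∃ k0 : Fin M, 1 ≤ M * ∑ l, x k0 l := by
    by_contra hcon
    push Not at hcon
    have hMpos : (0 : ℝ) < M := by exact_mod_cast hM
    have hlt : ∑ k : Fin M, (M : ℝ) * ∑ l, x k l < ∑ _k : Fin M, (1 : ℝ) := by
      refine Finset.sum_lt_sum (fun k _ => (hcon k).le) ⟨⟨0, hM⟩, Finset.mem_univ _, hcon _⟩
    rw [← Finset.mul_sum, hx.2.1, Finset.sum_const, Finset.card_univ, Fintype.card_fin,
      nsmul_eq_mul] at hlt
    exact lt_irrefl _ hlt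
  obtain ⟨k0, hk0⟩ := hex
  exact seq_sh g h hg h0 c h1 x hx k0 hk0 M k0.2

end CP
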