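import Pool.Agent.H246CP.Stubs

/-!
# Project CP, task MOVC (D6): the bump makes a step around a corner (helper818)
-/

set_option autoImplicit false

namespace CP.MOVC

open KN Filter Topology CP

noncomputable section

/-! ### letters -/

theorem dV_ev (d : Dir) : dV (ev d) (ev d) = 1 := by
  cases d <;> simp [dV, ev, emb, vec]

theorem dV_perp {d f : Dir} (h : perp d f) : dV (ev d) (ev f) = 0 := by
  cases d <;> cases f <;> simp [dV, ev, emb, vec] <;> exact (h rfl).elim

theorem ev_neg (f : Dir) : ev (neg f) = - ev f := by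
  cases f <;> simp [ev, emb, vec, neg]

/-- coordinates -/
def E (d f : Dir) (a b : ℝ) : V := a • ev d + b • ev f

theorem dV_E1 {d f : Dir} (h : perp d f) (a b : ℝ) : dV (E d f a b) (ev d) = a := by
  have h1 := dV_ev d
  have h2 := dV_perp h
  unfold dV at *
  simp only [E, Prod.fst_add, Prod.snd_add, Prod.smul_fst, Prod.smul_snd, smul_eq_mul]
  linear_combination a * h1 + b * h2

theorem dV_E2 {d f : Dir} (h : perp d f) (a b : ℝ) : dV (E d f a b) (ev f) = b := by
  have h1 := dV_ev f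
  have h2 := dV_perp h
  unfold dV at *
  simp only [E, Prod.fst_add, Prod.snd_add, Prod.smul_fst, Prod.smul_snd, smul_eq_mul]
  linear_combination b * h1 + a * h2

theorem dV_E {d f : Dir} (h : perp d f) (a b : ℝ) :
    dV (E d f a b) (E d f a b) = a ^ 2 + b ^ 2 := by
  have h1 := dV_ev d
  have h2 := dV_ev f
  have h3 := dV_perp h
  unfold dV at *
  simp only [E, Prod.fst_add, Prod.snd_add, Prod.smul_fst, Prod.smul_snd, smul_eq_mul]
  linear_combination a ^ 2 * h1 + b ^ 2 * h2 + 2 * a * b * h3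

theorem E_inj {d f : Dir} (h : perp d f) {a b a' b' : ℝ} (he : E d f a b = E d f a' b') :
    a = a' ∧ b = b' := by
  constructor
  · rw [← dV_E1 h a b, he, dV_E1 h]
  · rw [← dV_E2 h a b, he, dV_E2 h]

theorem E_sub (d f : Dir) (a b a' b' : ℝ) : E d f a b - E d f a' b' = E d f (a - a') (b - b') := by
  unfold E; module

theorem E_lerp (d f : Dir) (a b a' b' t : ℝ) : lerp (E d f a b) (E d f a' b') t =
    E d f ((1 - t) * a + t * a') ((1 - t) * b + t * b') := by
  unfold E lerp; module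

theorem E_zero (d f : Dir) : (0 : V) = E d f 0 0 := by
  unfold E; simp

theorem sum_ev (S : List Dir) : (S.map ev).sum = emb (pos S) := by
  induction S with
  | nil =>
    ext <;> simp [pos, emb]
  | cons d S ih =>
    rw [List.map_cons, List.sum_cons, ih]
    simp only [pos, ev, emb]
    ext <;> simp <;> ring

/-! ### continuous families of three sides -/

theorem J1_three (a b c : ℝ → V) (ha : Continuous a) (hb : Continuous b) (hc : Continuous c)
    (S : List V) (h : ∀ t : ℝ, 0 ≤ t → t ≤ 1 → EmbL (a t :: b t :: c t :: S)) :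
    J1 (a 0 :: b 0 :: c 0 :: S) (a 1 :: b 1 :: c 1 :: S) := by
  refine ⟨S.length + 1 + 1 + 1, fun t i => (a t :: b t :: c t :: S).get i, ?_, ?_, ?_, ?_⟩
  · intro i
    induction i using Fin.cases with
    | zero => exact ha
    | succ i =>
      induction i using Fin.cases with
      | zero => exact hb
      | succ i =>
        induction i using Fin.cases with
        | zero => exact hc
        | succ i => exact (continuous_const : Continuous (fun _ : ℝ => S.get i))
  · intro t h0 h1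
    have : List.ofFn ((a t :: b t :: c t :: S).get) = a t :: b t :: c t :: S := List.ofFn_get _
    have h2 := h t h0 h1
    rw [← this] at h2
    exact h2
  · exact (List.ofFn_get _).symm
  · exact (List.ofFn_get _).symm

/-! ### simple polygons -/

theorem reg1 {p q t : ℝ} (p0 : 0 < p) (p1 : p ≤ 1) (q0 : -1 < q) (q1 : q ≤ 0) (h0 : 0 < t)
    (h1 : t < 1) : 0 < (1 - t) * 0 + t * p ∧ (1 - t) * 0 + t * p < 2 ∧
      -1 < (1 - t) * 0 + t * q ∧ (1 - t) * 0 + t * q < 1 ∧
      (1 ≤ (1 - t) * 0 + t * p ∨ (1 - t) * 0 + t * q ≤ 0) := by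
  have e1 := mul_pos h0 p0
  have e2 := mul_nonneg h0.le (by linarith : 0 ≤ 1 - p)
  have e3 := mul_pos h0 (by linarith : 0 < q + 1)
  have e4 := mul_nonneg h0.le (by linarith : 0 ≤ -q)
  refine ⟨?_, ?_, ?_, ?_, Or.inr ?_⟩ <;> linarith

theorem reg2 {p q x y t : ℝ} (p0 : 0 < p) (p1 : p ≤ 1) (q0 : -1 < q) (q1 : q ≤ 0) (x1 : 1 ≤ x)
    (x2 : x < 2) (y0 : 0 ≤ y) (y1 : y < 1) (cross : 0 ≤ (x - p) * (-q) - (y - q) * (1 - p))
    (h0 : 0 ≤ t) (h1 : t < 1) : 0 < (1 - t) * p + t * x ∧ (1 - t) * p + t * x < 2 ∧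
      -1 < (1 - t) * q + t * y ∧ (1 - t) * q + t * y < 1 ∧
      (1 ≤ (1 - t) * p + t * x ∨ (1 - t) * q + t * y ≤ 0) := by
  have e1 := mul_pos (by linarith : 0 < 1 - t) p0
  have e2 := mul_nonneg h0 (by linarith : 0 ≤ x)
  have e3 := mul_nonneg (by linarith : 0 ≤ 1 - t) (by linarith : 0 ≤ 1 - p)
  have e4 := mul_nonneg h0 (by linarith : 0 ≤ 2 - x)
  have e5 := mul_pos (by linarith : 0 < 1 - t) (by linarith : 0 < 1 + q)
  have e6 := mul_nonneg h0 y0
  have e7 := mul_nonneg (by linarith : 0 ≤ 1 - t) (by linarith : 0 ≤ -q)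
  have e8 := mul_nonneg h0 (by linarith : 0 ≤ 1 - y)
  refine ⟨by linarith, by linarith, by linarith, by linarith, ?_⟩
  by_contra hcon
  push Not at hcon
  obtain ⟨g1, g2⟩ := hcon
  have hyq : 0 < y - q := by
    by_contra h0
    have hy : y = 0 := by linarith
    have hq : q = 0 := by linarith
    rw [hy, hq] at g2
    simp at g2
  have k1 : -q < t * (y - q) := by linarith
  have k2 : t * (x - p) < 1 - p := by linarith
  have k3 : (-q) * (x - p) ≤ t * (y - q) * (x - p) :=
    mul_le_mul_of_nonneg_right k1.le (by linarith)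
  have k4 : t * (x - p) * (y - q) < (1 - p) * (y - q) := mul_lt_mul_of_pos_right k2 hyq
  have k5 : t * (y - q) * (x - p) = t * (x - p) * (y - q) := by ring
  have k6 : (x - p) * (-q) = (-q) * (x - p) := by ring
  have k7 : (y - q) * (1 - p) = (1 - p) * (y - q) := by ring
  rw [k6, k7] at cross
  linarith

theorem reg3 {x y t : ℝ} (x1 : 1 ≤ x) (x2 : x < 2) (y0 : 0 ≤ y) (y1 : y < 1)
    (h0 : 0 ≤ t) (h1 : t < 1) : 0 < (1 - t) * x + t * 1 ∧ (1 - t) * x + t * 1 < 2 ∧
      -1 < (1 - t) * y + t * 1 ∧ (1 - t) * y + t * 1 < 1 ∧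
      (1 ≤ (1 - t) * x + t * 1 ∨ (1 - t) * y + t * 1 ≤ 0) := by
  have ht : 0 < 1 - t := by linarith
  have e1 := mul_nonneg ht.le (by linarith : 0 ≤ x - 1)
  have e2 := mul_pos ht (by linarith : 0 < 2 - x)
  have e3 := mul_nonneg ht.le y0
  have e4 := mul_pos ht (by linarith : 0 < 1 - y)
  refine ⟨?_, ?_, ?_, ?_, Or.inl ?_⟩ <;> linarith

theorem dis1 {p x u v : ℝ} (p0 : 0 < p) (p1 : p ≤ 1) (x1 : 1 ≤ x) (hu : u < 1) (hv : 0 ≤ v)
    (g : (1 - u) * 0 + u * p = (1 - v) * p + v * x) : False := by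
  have e1 := mul_nonneg hv (by linarith : (0:ℝ) ≤ x - p)
  have e2 := mul_pos (by linarith : 0 < 1 - u) p0
  linarith

theorem dis2 {p x u v : ℝ} (p0 : 0 < p) (p1 : p ≤ 1) (x1 : 1 ≤ x) (hu0 : 0 ≤ u) (hu : u < 1)
    (hv : 0 ≤ v) (hv1 : v < 1)
    (g : (1 - u) * 0 + u * p = (1 - v) * x + v * 1) : False := by
  have e1 := mul_nonneg (by linarith : (0:ℝ) ≤ 1 - v) (by linarith : (0:ℝ) ≤ x - 1)
  have e2 := mul_nonneg hu0 (by linarith : (0:ℝ) ≤ 1 - p)
  linarith

theorem dis3 {p q x y u v : ℝ} (n2 : (x - p) ^ 2 + (y - q) ^ 2 = 1)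
    (q1 : q ≤ 0) (y0 : 0 ≤ y) (y1 : y < 1) (hu : u < 1) (hv : 0 ≤ v)
    (g1 : (1 - u) * p + u * x = (1 - v) * x + v * 1)
    (g2 : (1 - u) * q + u * y = (1 - v) * y + v * 1) : False := by
  have k1 : (1 - u) * (y - q) + v * (1 - y) = 0 := by linarith
  have k2 : 0 ≤ (1 - u) * (y - q) := mul_nonneg (by linarith) (by linarith)
  have k3 : 0 ≤ v * (1 - y) := mul_nonneg hv (by linarith)
  have k4 : (1 - u) * (y - q) = 0 := by linarith
  have k5 : v * (1 - y) = 0 := by linarith
  have k6 : y - q = 0 := by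
    rcases mul_eq_zero.1 k4 with h' | h'
    · linarith
    · exact h'
  have k7 : v = 0 := by
    rcases mul_eq_zero.1 k5 with h' | h'
    · exact h'
    · linarith
  subst k7
  have k8 : (1 - u) * (x - p) = 0 := by linarith
  have k9 : x - p = 0 := by
    rcases mul_eq_zero.1 k8 with h' | h'
    · linarith
    · exact h'
  rw [k6, k9] at n2
  norm_num at n2

/-- the conditions on the moving points `A = (p,q)`, `B = (x,y)` -/
structure Cond (p q x y : ℝ) : Prop where
  n1 : p ^ 2 + q ^ 2 = 1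
  n2 : (x - p) ^ 2 + (y - q) ^ 2 = 1
  n3 : (1 - x) ^ 2 + (1 - y) ^ 2 = 1
  p0 : 0 < p
  p1 : p ≤ 1
  q0 : -1 < q
  q1 : q ≤ 0
  x1 : 1 ≤ x
  x2 : x < 2
  y0 : 0 ≤ y
  y1 : y < 1
  cross : 0 ≤ (x - p) * (-q) - (y - q) * (1 - p)

theorem simple_of (hkey : Z_key) (hreg : Z_regC) {d f : Dir} {S : List Dir} (h : perp d f)
    (hS : SAP (d :: f :: S)) {p q x y : ℝ} (hc : Cond p q x y) :
    EmbL (E d f p q :: E d f (x - p) (y - q) :: E d f (1 - x) (1 - y) :: S.map ev) := by
  obtain ⟨n1, n2, n3, p0, p1, q0, q1, x1, x2, y0, y1, cross⟩ := hc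
  have hpos : emb (pos S) = - (ev f + ev d) := by
    have h1 : pos (d :: f :: S) = 0 := hS.2.1
    have h2 : pos S + vec f + vec d = 0 := h1
    have h3 : pos S = - (vec f + vec d) := by
      rw [add_assoc] at h2; exact eq_neg_of_add_eq_zero_left h2
    rw [h3]
    simp only [ev, emb]
    ext <;> simp <;> ring
  have hd : ∀ e ∈ [E d f p q, E d f (x - p) (y - q), E d f (1 - x) (1 - y)], dV e e = 1 := by
    intro e he
    simp only [List.mem_cons, List.not_mem_nil, or_false] at he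
    rcases he with rfl | rfl | rfl
    · rw [dV_E h]; exact n1
    · rw [dV_E h]; exact n2
    · rw [dV_E h]; exact n3
  refine ⟨?_, ?_, ?_⟩
  · intro e he
    simp only [List.mem_cons] at he
    rcases he with rfl | rfl | rfl | he
    · exact hd _ (by simp)
    · exact hd _ (by simp)
    · exact hd _ (by simp)
    · obtain ⟨g, -, rfl⟩ := List.mem_map.1 he
      exact dV_ev g
  · simp only [List.sum_cons]
    rw [sum_ev, hpos]
    unfold E; module
  · have hends : ends 0 [E d f p q, E d f (x - p) (y - q), E d f (1 - x) (1 - y)] =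
        [E d f p q, E d f x y, E d f 1 1] := by
      simp only [ends]
      congr 1
      · simp
      · congr 1
        · unfold E; module
        · congr 1
          unfold E; module
    have key := hkey [d, f] S [E d f p q, E d f (x - p) (y - q), E d f (1 - x) (1 - y)] (RC d f)
      hS (by simp) ?_ (by simp) ?_ ?_ ?_ ?_ ?_
    · exact key
    · rintro rfl
      have := hS.1
      simp at this
    · simp only [List.sum_cons, List.sum_nil, List.map_cons, List.map_nil]
      unfold E; module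
    · intro e he h0
      have := hd e he
      rw [h0] at this
      simp [dV] at this
    · rw [hends]
      simp only [chain]
      rw [List.pairwise_cons, List.pairwise_cons]
      refine ⟨?_, ?_, List.pairwise_singleton _ _⟩
      · intro e he
        simp only [List.mem_cons, List.not_mem_nil, or_false] at he
        rcases he with rfl | rfl
        · intro u v hu hu' hv hv' heq
          rw [E_zero d f] at heq
          simp only [E_lerp] at heq
          exact dis1 p0 p1 x1 hu' hv (E_inj h heq).1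
        · intro u v hu hu' hv hv' heq
          rw [E_zero d f] at heq
          simp only [E_lerp] at heq
          exact dis2 p0 p1 x1 hu hu' hv hv' (E_inj h heq).1
      · intro e he
        simp only [List.mem_cons, List.not_mem_nil, or_false] at he
        subst he
        intro u v hu hu' hv hv' heq
        simp only [E_lerp] at heq
        obtain ⟨g1, g2⟩ := E_inj h heq
        exact dis3 n2 q1 y0 y1 hu' hv g1 g2
    · rw [hends]
      simp only [chain]
      intro e he t ht0 ht1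
      simp only [List.mem_cons, List.not_mem_nil, or_false] at he
      rcases he with rfl | rfl | rfl
      · rcases eq_or_lt_of_le ht0 with h' | h'
        · left; rw [← h', lerp_zero]
        · right
          simp only
          rw [E_zero d f, E_lerp]
          obtain ⟨r1, r2, r3, r4, r5⟩ := reg1 p0 p1 q0 q1 h' ht1
          exact ⟨_, _, r1, r2, r3, r4, r5, rfl⟩
      · right
        simp only
        rw [E_lerp]
        obtain ⟨r1, r2, r3, r4, r5⟩ := reg2 p0 p1 q0 q1 x1 x2 y0 y1 cross ht0 ht1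
        exact ⟨_, _, r1, r2, r3, r4, r5, rfl⟩
      · right
        simp only
        rw [E_lerp]
        obtain ⟨r1, r2, r3, r4, r5⟩ := reg3 x1 x2 y0 y1 ht0 ht1
        exact ⟨_, _, r1, r2, r3, r4, r5, rfl⟩
    · exact hreg d f S h hS

/-! ### the motion -/

def sx (t : ℝ) : ℝ := 1 + Real.sin (t * Real.pi / 3)
def sy (t : ℝ) : ℝ := 1 - Real.cos (t * Real.pi / 3)
def rho (t : ℝ) : ℝ := sx t ^ 2 + sy t ^ 2
def mu (t : ℝ) : ℝ := √(1 / rho t - 1 / 4)
def sp (t : ℝ) : ℝ := sx t / 2 + mu t * sy t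
def sqq (t : ℝ) : ℝ := sy t / 2 - mu t * sx t

theorem RR_eq (t : ℝ) : rho t = 3 + 2 * Real.sin (t * Real.pi / 3) -
    2 * Real.cos (t * Real.pi / 3) := by
  have := Real.sin_sq_add_cos_sq (t * Real.pi / 3)
  unfold rho sx sy
  nlinarith

theorem RR_pos (t : ℝ) : 0 < rho t := by
  have h := Real.sin_sq_add_cos_sq (t * Real.pi / 3)
  rw [RR_eq]
  set s := Real.sin (t * Real.pi / 3)
  set c := Real.cos (t * Real.pi / 3)
  have : (c - s) ^ 2 ≤ 2 := by nlinarith [sq_nonneg (c + s)]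
  have : c - s < 3 / 2 := by nlinarith
  linarith

theorem cont_sx : Continuous sx := by unfold sx; fun_prop
theorem cont_sy : Continuous sy := by unfold sy; fun_prop
theorem cont_RR : Continuous rho := by
  unfold rho; exact (cont_sx.pow 2).add (cont_sy.pow 2)
theorem cont_mu : Continuous mu := by
  unfold mu
  exact ((continuous_const.div cont_RR (fun t => (RR_pos t).ne')).sub continuous_const).sqrt
theorem cont_sp : Continuous sp := by
  unfold sp; exact (cont_sx.div_const 2).add (cont_mu.mul cont_sy)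
theorem cont_sqq : Continuous sqq := by
  unfold sqq; exact (cont_sy.div_const 2).sub (cont_mu.mul cont_sx)

theorem cont_E (d f : Dir) {a b : ℝ → ℝ} (ha : Continuous a) (hb : Continuous b) :
    Continuous (fun t => E d f (a t) (b t)) := by
  unfold E
  exact (ha.smul continuous_const).add (hb.smul continuous_const)

theorem le_one_of {p q : ℝ} (h : p ^ 2 + q ^ 2 = 1) : p ≤ 1 := by
  nlinarith [sq_nonneg q, sq_nonneg (p - 1)]

theorem lt_one_of {s c : ℝ} (h : s ^ 2 + c ^ 2 = 1) (hc : 1 / 2 ≤ c) : s < 1 := by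
  nlinarith [sq_nonneg (s - 1)]

theorem gt_of {p q : ℝ} (h : p ^ 2 + q ^ 2 = 1) (hp : 0 < p) : -1 < q := by
  by_contra hcon
  push Not at hcon
  have h1 : 0 < p ^ 2 := by positivity
  nlinarith

theorem one_sub_le {s c : ℝ} (h : s ^ 2 + c ^ 2 = 1) (hs : 0 ≤ s) (hc : 0 ≤ c) (hc1 : c ≤ 1) :
    1 - c ≤ s := by
  have h1 : (1 - c) ^ 2 ≤ s ^ 2 := by nlinarith
  exact abs_le_of_sq_le_sq' h1 hs |>.2

theorem cross_of {s c p q : ℝ} (h : s ^ 2 + c ^ 2 = 1) (hs : 0 ≤ s) (hc : 0 ≤ c) (hc1 : c ≤ 1)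
    (h' : p ^ 2 + q ^ 2 = 1) (hp : 0 ≤ p) (hp1 : p ≤ 1) (hq : q ≤ 0) :
    0 ≤ (1 + s - p) * (-q) - (1 - c - q) * (1 - p) := by
  have e1 := one_sub_le h hs hc hc1
  have e2 : 1 - p ≤ -q := one_sub_le (by rw [neg_sq]; linarith) (by linarith) hp hp1
  have f1 : (1 - c) * (1 - p) ≤ s * (1 - p) := mul_le_mul_of_nonneg_right e1 (by linarith)
  have f2 : s * (1 - p) ≤ s * (-q) := mul_le_mul_of_nonneg_left e2 hs
  linarith

theorem q_le {x y m R : ℝ} (hR : R = x ^ 2 + y ^ 2) (hRp : 0 < R) (hx : 0 ≤ x) (hm : 0 ≤ m)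
    (hmR : m ^ 2 * R = 1 - R / 4) (hRx : R ≤ 2 * x) : y / 2 - m * x ≤ 0 := by
  by_contra hcon
  push Not at hcon
  have h2 : 2 * m * x < y := by linarith
  have h0 : 0 ≤ 2 * m * x := by positivity
  have h3 : (2 * m * x) ^ 2 < y ^ 2 := by
    exact pow_lt_pow_left₀ h2 h0 (by norm_num)
  have h4 : (2 * m * x) ^ 2 * R < y ^ 2 * R := mul_lt_mul_of_pos_right h3 hRp
  have h5 : (2 * m * x) ^ 2 * R = 4 * x ^ 2 * (m ^ 2 * R) := by ring
  rw [h5, hmR] at h4
  have h6 : 4 * x ^ 2 < R ^ 2 := by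
    have : R ^ 2 = R * x ^ 2 + y ^ 2 * R := by
      rw [hR]; ring
    linarith
  have h7 : R ^ 2 ≤ (2 * x) ^ 2 := pow_le_pow_left₀ hRp.le hRx 2
  have h8 : (2 * x) ^ 2 = 4 * x ^ 2 := by ring
  linarith

theorem cond_t {t : ℝ} (h0 : 0 ≤ t) (h1 : t ≤ 1) : Cond (sp t) (sqq t) (sx t) (sy t) := by
  have hpi := Real.pi_pos
  have hang0 : 0 ≤ t * Real.pi / 3 := by positivity
  have hang1 : t * Real.pi / 3 ≤ Real.pi / 3 := by nlinarith
  have hc : 1 / 2 ≤ Real.cos (t * Real.pi / 3) := by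
    rw [← Real.cos_pi_div_three]
    exact Real.cos_le_cos_of_nonneg_of_le_pi hang0 (by linarith) hang1
  have hs : 0 ≤ Real.sin (t * Real.pi / 3) :=
    Real.sin_nonneg_of_nonneg_of_le_pi hang0 (by linarith)
  have hcs := Real.sin_sq_add_cos_sq (t * Real.pi / 3)
  have hR := RR_eq t
  have hRp := RR_pos t
  set s := Real.sin (t * Real.pi / 3) with hsdef
  set c := Real.cos (t * Real.pi / 3) with hcdef
  have hc1 : c ≤ 1 := Real.cos_le_one _
  have hs1 : s < 1 := lt_one_of hcs hc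
  have hx : sx t = 1 + s := rfl
  have hy : sy t = 1 - c := rfl
  have hRdef : rho t = sx t ^ 2 + sy t ^ 2 := rfl
  have hR4 : rho t ≤ 4 := by
    rw [hR]; linarith
  have hmu0 : 0 ≤ mu t := Real.sqrt_nonneg _
  have hmu : mu t ^ 2 = 1 / rho t - 1 / 4 := by
    unfold mu
    rw [Real.sq_sqrt]
    have : 1 / 4 ≤ 1 / rho t := one_div_le_one_div_of_le hRp hR4
    linarith
  have hmuR : mu t ^ 2 * rho t = 1 - rho t / 4 := by
    rw [hmu]; field_simp
  have hp : sp t = sx t / 2 + mu t * sy t := rfl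
  have hq : sqq t = sy t / 2 - mu t * sx t := rfl
  have n1 : sp t ^ 2 + sqq t ^ 2 = 1 := by
    rw [hp, hq]
    have : (sx t / 2 + mu t * sy t) ^ 2 + (sy t / 2 - mu t * sx t) ^ 2 =
        rho t / 4 + mu t ^ 2 * rho t := by rw [hRdef]; ring
    rw [this, hmuR]; ring
  have n2 : (sx t - sp t) ^ 2 + (sy t - sqq t) ^ 2 = 1 := by
    rw [hp, hq]
    have : (sx t - (sx t / 2 + mu t * sy t)) ^ 2 + (sy t - (sy t / 2 - mu t * sx t)) ^ 2 =
        rho t / 4 + mu t ^ 2 * rho t := by rw [hRdef]; ring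
    rw [this, hmuR]; ring
  have n3 : (1 - sx t) ^ 2 + (1 - sy t) ^ 2 = 1 := by
    rw [hx, hy]; ring_nf; linarith
  have x1 : 1 ≤ sx t := by rw [hx]; linarith
  have x2 : sx t < 2 := by rw [hx]; linarith
  have y0 : 0 ≤ sy t := by rw [hy]; linarith
  have y1 : sy t < 1 := by rw [hy]; linarith
  have p0 : 0 < sp t := by
    rw [hp]; have := mul_nonneg hmu0 y0; linarith
  have p1 : sp t ≤ 1 := le_one_of n1
  have q1 : sqq t ≤ 0 := by
    rw [hq]
    exact q_le hRdef hRp (by linarith) hmu0 hmuR (by rw [hR, hx]; linarith)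
  have q0 : -1 < sqq t := gt_of n1 p0
  refine ⟨n1, n2, n3, p0, p1, q0, q1, x1, x2, y0, y1, ?_⟩
  rw [hx, hy]
  exact cross_of hcs hs (by linarith) hc1 n1 p0.le p1 q1

theorem mu_zero : mu 0 = √3 / 2 := by
  have h : 1 / rho 0 - 1 / 4 = (√3 / 2) ^ 2 := by
    rw [RR_eq]
    have : √3 ^ 2 = (3 : ℝ) := Real.sq_sqrt (by norm_num)
    simp
    rw [div_pow, this]; norm_num
  unfold mu
  rw [h, Real.sqrt_sq (by positivity)]

theorem mu_one : mu 1 = (2 - √3) / 2 := by
  have h3 : √3 ^ 2 = (3 : ℝ) := Real.sq_sqrt (by norm_num)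
  have hlt : √3 < 2 := by
    rw [Real.sqrt_lt' (by norm_num)]; norm_num
  have hR : rho 1 = 2 + √3 := by
    rw [RR_eq, one_mul, Real.cos_pi_div_three, Real.sin_pi_div_three]; ring
  have h : 1 / rho 1 - 1 / 4 = ((2 - √3) / 2) ^ 2 := by
    rw [hR]
    have hp : (2 + √3) ≠ 0 := by positivity
    field_simp
    nlinarith
  unfold mu
  rw [h, Real.sqrt_sq (by linarith)]

theorem main (hkey : Z_key) (hreg : Z_regC) : Z_movC := by
  intro d f S h hS
  have hJ := J1_three (fun t => E d f (sp t) (sqq t)) (fun t => E d f (sx t - sp t) (sy t - sqq t))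
    (fun t => E d f (1 - sx t) (1 - sy t)) (cont_E d f cont_sp cont_sqq)
    (cont_E d f (cont_sx.sub cont_sp) (cont_sy.sub cont_sqq))
    (cont_E d f (continuous_const.sub cont_sx) (continuous_const.sub cont_sy)) (S.map ev)
    (fun t h0 h1 => simple_of hkey hreg h hS (cond_t h0 h1))
  have h3 : √3 ^ 2 = (3 : ℝ) := Real.sq_sqrt (by norm_num)
  have x0 : sx 0 = 1 := by simp [sx]
  have y0 : sy 0 = 0 := by simp [sy]
  have x1 : sx 1 = 1 + √3 / 2 := by
    unfold sx; rw [one_mul, Real.sin_pi_div_three]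
  have y1 : sy 1 = 1 / 2 := by
    unfold sy; rw [one_mul, Real.cos_pi_div_three]; norm_num
  have p0 : sp 0 = 1 / 2 := by unfold sp; rw [x0, y0]; ring
  have q0 : sqq 0 = - (√3 / 2) := by unfold sqq; rw [x0, y0, mu_zero]; ring
  have p1 : sp 1 = 1 := by unfold sp; rw [x1, y1, mu_one]; ring
  have q1 : sqq 1 = 0 := by unfold sqq; rw [x1, y1, mu_one]; nlinarith
  simp only [x0, y0, x1, y1, p0, q0, p1, q1] at hJ
  have e0 : bp d (neg f) ++ ev f :: S.map ev = E d f (1 / 2) (-(√3 / 2)) ::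
      E d f (1 - 1 / 2) (0 - -(√3 / 2)) :: E d f (1 - 1) (1 - 0) :: S.map ev := by
    simp only [bp, ev_neg, List.cons_append, List.nil_append]
    congr 1
    · unfold E; module
    · congr 1
      · unfold E; module
      · congr 1
        unfold E; module
  have e1 : ev d :: (bp f d ++ S.map ev) = E d f 1 0 ::
      E d f (1 + √3 / 2 - 1) (1 / 2 - 0) :: E d f (1 - (1 + √3 / 2)) (1 - 1 / 2) :: S.map ev := by
    simp only [bp, List.cons_append, List.nil_append]
    congr 1
    · unfold E; module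
    · congr 1
      · unfold E; module
      · congr 1
        unfold E; module
  rw [e0, e1]
  exact Relation.EqvGen.rel _ _ hJ

end

end CP.MOVC

namespace CP

theorem Z_movC_proof (h1 : Z_key) (h2 : Z_regC) : Z_movC := MOVC.main h1 h2

end CP
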