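import Pool.Agent.H246CP.Stubs

set_option autoImplicit false

namespace CP

open Matrix KN Filter Topology

namespace MOVR

theorem dV_add_left (x y z : V) : dV (x + y) z = dV x z + dV y z := by
  simp only [dV, Prod.fst_add, Prod.snd_add]; ring

theorem dV_smul_left (c : ℝ) (x z : V) : dV (c • x) z = c * dV x z := by
  simp only [dV, Prod.smul_fst, Prod.smul_snd, smul_eq_mul]; ring

theorem dV_comm (x y : V) : dV x y = dV y x := by
  simp only [dV]; ring

theorem dV_add_right (x y z : V) : dV z (x + y) = dV z x + dV z y := by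
  rw [dV_comm, dV_add_left, dV_comm x, dV_comm y]

theorem dV_smul_right (c : ℝ) (x z : V) : dV z (c • x) = c * dV z x := by
  rw [dV_comm, dV_smul_left, dV_comm x]

theorem dV_zero : dV 0 0 = 0 := by simp [dV]

theorem dV_ev (d : Dir) : dV (ev d) (ev d) = 1 := by
  cases d <;> simp [dV, ev, emb, KN.vec]

theorem dV_perp (d e : Dir) (h : perp d e) : dV (ev d) (ev e) = 0 := by
  cases d <;> cases e <;> first | (exact absurd h (by decide)) | simp [dV, ev, emb, KN.vec]

theorem exi : ∀ d e e' : Dir, perp d e → perp d e' →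
    perp e e' ∨ ∃ e'', perp d e'' ∧ perp e e'' ∧ perp e'' e' := by decide

theorem emb_add (p q : Z3) : emb (p + q) = emb p + emb q := by
  simp [emb]

theorem emb_pos : ∀ w : List Dir, emb (pos w) = (w.map ev).sum
  | [] => by simp [pos, emb]
  | d :: w => by
    rw [pos, emb_add, emb_pos w, List.map_cons, List.sum_cons, add_comm]
    rfl

/-- the two moving sides -/
noncomputable def mz (d : Dir) (z : V) : List V :=
  [(1 / 2 : ℝ) • ev d + (√3 / 2 : ℝ) • z, (1 / 2 : ℝ) • ev d - (√3 / 2 : ℝ) • z]

theorem sq3 : (√3 : ℝ) ^ 2 = 3 := Real.sq_sqrt (by norm_num)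

theorem embL (hk : Z_key) (hr : Z_regR) (d : Dir) (S : List Dir) (hS : SAP (d :: S)) (z : V)
    (h0 : dV z (ev d) = 0) (h1 : dV z z = 1) : EmbL (mz d z ++ S.map ev) := by
  have h0' : dV (ev d) z = 0 := by rw [dV_comm]; exact h0
  have hd := dV_ev d
  have h3 := sq3
  have ha : ∀ c : ℝ, c ^ 2 = 3 / 4 → dV ((1 / 2 : ℝ) • ev d + c • z) ((1 / 2 : ℝ) • ev d + c • z) = 1 := by
    intro c hc
    simp only [dV_add_left, dV_add_right, dV_smul_left, dV_smul_right, h0, h0', h1, hd]
    nlinarith
  have hb : (1 / 2 : ℝ) • ev d - (√3 / 2 : ℝ) • z = (1 / 2 : ℝ) • ev d + (-(√3 / 2) : ℝ) • z := by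
    rw [neg_smul, sub_eq_add_neg]
  have hM : ∀ e ∈ mz d z, dV e e = 1 := by
    intro e he
    simp only [mz, List.mem_cons, List.mem_nil_iff, or_false] at he
    rcases he with rfl | rfl
    · exact ha _ (by nlinarith)
    · rw [hb]
      exact ha _ (by nlinarith)
  have hsum : (mz d z).sum = ev d := by
    simp only [mz, List.sum_cons, List.sum_nil, add_zero]
    rw [add_add_sub_cancel, ← add_smul]
    norm_num
  refine ⟨?_, ?_, ?_⟩
  · intro e he
    rcases List.mem_append.1 he with he | he
    · exact hM e he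
    · obtain ⟨g, _, rfl⟩ := List.mem_map.1 he
      exact dV_ev g
  · rw [List.sum_append, hsum, ← List.sum_cons, ← List.map_cons, ← emb_pos, hS.2.1]
    simp [emb]
  · have hne : ∀ e ∈ mz d z, e ≠ 0 := by
      rintro e he rfl
      have := hM 0 he
      rw [dV_zero] at this
      norm_num at this
    have hSne : S ≠ [] := by
      rintro rfl
      have := hS.1
      simp at this
    have hch : chain 0 (ends 0 (mz d z)) =
        [(0, (1 / 2 : ℝ) • ev d + (√3 / 2 : ℝ) • z), ((1 / 2 : ℝ) • ev d + (√3 / 2 : ℝ) • z, ev d)] := by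
      have : (1 / 2 : ℝ) • ev d + (√3 / 2 : ℝ) • z + ((1 / 2 : ℝ) • ev d - (√3 / 2 : ℝ) • z) = ev d := by
        rw [add_add_sub_cancel, ← add_smul]
        norm_num
      simp only [mz, ends, chain, zero_add, this]
    -- points of the two sides
    have hp1 : ∀ t : ℝ, lerp 0 ((1 / 2 : ℝ) • ev d + (√3 / 2 : ℝ) • z) t =
        (t / 2) • ev d + (t * (√3 / 2)) • z := by
      intro t
      simp only [lerp, smul_zero, zero_add, smul_add, smul_smul]
      congr 2
      ring
    have hp2 : ∀ t : ℝ, lerp ((1 / 2 : ℝ) • ev d + (√3 / 2 : ℝ) • z) (ev d) t =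
        ((1 + t) / 2) • ev d + ((1 - t) * (√3 / 2)) • z := by
      intro t
      simp only [lerp, smul_add, smul_smul]
      rw [add_right_comm, ← add_smul]
      congr 2
      ring
    have hdp : ∀ a b : ℝ, dV (a • ev d + b • z) (ev d) = a := by
      intro a b
      rw [dV_add_left, dV_smul_left, dV_smul_left, h0, hd]
      ring
    refine hk [d] S (mz d z) (RR d) hS (by simp) hSne (by simp [mz]) (by simpa using hsum) hne
      ?_ ?_ (fun S1 g S2 h => hr d S hS S1 g S2 h)
    · rw [hch]
      simp only [List.pairwise_cons, List.mem_singleton, forall_eq, List.not_mem_nil,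
        false_imp_iff, implies_true, List.Pairwise.nil, and_true]
      intro u v hu0 hu1 hv0 hv1 heq
      simp only at heq
      rw [hp1, hp2] at heq
      have h4 := congrArg (fun x => dV x (ev d)) heq
      simp only [hdp] at h4
      linarith
    · rw [hch]
      intro e he t ht0 ht1
      simp only [List.mem_cons, List.mem_nil_iff, or_false] at he
      have hz : ∀ c : ℝ, dV (c • z) (ev d) = 0 ∧ dV (c • z) (c • z) = c ^ 2 := by
        intro c
        rw [dV_smul_left, dV_smul_left, dV_smul_right, h0, h1]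
        constructor <;> ring
      rcases he with rfl | rfl
      · show lerp 0 _ t = 0 ∨ lerp 0 _ t ∈ RR d
        rw [hp1]
        rcases eq_or_lt_of_le ht0 with rfl | ht
        · left
          simp
        · right
          refine ⟨t / 2, (t * (√3 / 2)) • z, by linarith, by linarith, (hz _).1, ?_, rfl⟩
          rw [(hz _).2, mul_pow, div_pow, h3]
          nlinarith
      · right
        show lerp _ (ev d) t ∈ RR d
        rw [hp2]
        refine ⟨(1 + t) / 2, ((1 - t) * (√3 / 2)) • z, by linarith, by linarith, (hz _).1, ?_, rfl⟩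
        rw [(hz _).2, mul_pow, div_pow, h3]
        nlinarith

theorem step (hk : Z_key) (hr : Z_regR) (d e e' : Dir) (S : List Dir) (he : perp d e)
    (he' : perp d e') (hee : perp e e') (hS : SAP (d :: S)) :
    J1 (bp d e ++ S.map ev) (bp d e' ++ S.map ev) := by
  let z : ℝ → V := fun t => Real.cos (t * (Real.pi / 2)) • ev e + Real.sin (t * (Real.pi / 2)) • ev e'
  have hzc : Continuous z := by fun_prop
  have hz0 : z 0 = ev e := by simp [z]
  have hz1 : z 1 = ev e' := by simp [z]
  have he1 : dV (ev e) (ev d) = 0 := by rw [dV_comm]; exact dV_perp d e he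
  have he2 : dV (ev e') (ev d) = 0 := by rw [dV_comm]; exact dV_perp d e' he'
  have he3 := dV_perp e e' hee
  have he4 : dV (ev e') (ev e) = 0 := by rw [dV_comm]; exact he3
  have hzd : ∀ t, dV (z t) (ev d) = 0 := by
    intro t
    simp only [z, dV_add_left, dV_smul_left, he1, he2]
    ring
  have hzz : ∀ t, dV (z t) (z t) = 1 := by
    intro t
    simp only [z, dV_add_left, dV_add_right, dV_smul_left, dV_smul_right, he3, he4, dV_ev]
    have := Real.sin_sq_add_cos_sq (t * (Real.pi / 2))
    nlinarith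
  let γ : ℝ → Fin (S.length + 1 + 1) → V := fun t =>
    Fin.cons ((1 / 2 : ℝ) • ev d + (√3 / 2 : ℝ) • z t)
      (Fin.cons ((1 / 2 : ℝ) • ev d - (√3 / 2 : ℝ) • z t) (fun i : Fin S.length => ev (S.get i)))
  have hγ : ∀ t, List.ofFn (γ t) = mz d (z t) ++ S.map ev := by
    intro t
    have h5 : List.ofFn (fun i : Fin S.length => ev (S.get i)) = S.map ev := by
      rw [show (fun i : Fin S.length => ev (S.get i)) = ev ∘ S.get from rfl, ← List.map_ofFn,
        List.ofFn_get]
    simp only [γ, List.ofFn_cons, h5, mz]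
    rfl
  refine ⟨S.length + 1 + 1, γ, ?_, ?_, ?_, ?_⟩
  · intro i
    refine Fin.cases ?_ (fun i => ?_) i
    · simp only [γ, Fin.cons_zero]
      fun_prop
    · refine Fin.cases ?_ (fun i => ?_) i
      · simp only [γ, Fin.cons_succ, Fin.cons_zero]
        fun_prop
      · simp only [γ, Fin.cons_succ]
        exact continuous_const
  · intro t _ _
    rw [hγ]
    exact embL hk hr d S hS (z t) (hzd t) (hzz t)
  · rw [hγ, hz0]
    rfl
  · rw [hγ, hz1]
    rfl

end MOVR

theorem Z_movR_proof (hk : Z_key) (hr : Z_regR) : Z_movR := by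
  intro d e e' S he he' hS
  rcases MOVR.exi d e e' he he' with h | ⟨e'', h1, h2, h3⟩
  · exact Relation.EqvGen.rel _ _ (MOVR.step hk hr d e e' S he he' h hS)
  · exact (Relation.EqvGen.rel _ _ (MOVR.step hk hr d e e'' S he h1 h2 hS)).trans _ _ _
      (Relation.EqvGen.rel _ _ (MOVR.step hk hr d e'' e' S h1 he' h3 hS))

end CP
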