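import Pool.Agent.H246CP.Stubs

/-!
# Z_movS: the bump makes a straight step
-/

set_option autoImplicit false

namespace CP

open Matrix KN Filter Topology

namespace MOVS

theorem dV_comm (x y : V) : dV x y = dV y x := by
  unfold dV
  ring

theorem dV_add_left (x y z : V) : dV (x + y) z = dV x z + dV y z := by
  unfold dV
  simp only [Prod.fst_add, Prod.snd_add]
  ring

theorem dV_smul_left (a : ℝ) (x z : V) : dV (a • x) z = a * dV x z := by
  unfold dV
  simp only [Prod.smul_fst, Prod.smul_snd, smul_eq_mul]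
  ring

theorem dV_dd (d : Dir) : dV (ev d) (ev d) = 1 := by
  cases d <;> simp [dV, ev, emb, KN.vec]

theorem dV_de (d e : Dir) (h : perp d e) : dV (ev d) (ev e) = 0 := by
  cases d <;> cases e <;> simp [perp, ax] at h <;> simp [dV, ev, emb, KN.vec]

theorem dV_comb (d e : Dir) (h : perp d e) (a b : ℝ) :
    dV (a • ev d + b • ev e) (a • ev d + b • ev e) = a ^ 2 + b ^ 2 := by
  have h1 := dV_de d e h
  have h2 : dV (ev e) (ev d) = 0 := by rw [dV_comm, h1]
  rw [dV_add_left, dV_smul_left, dV_smul_left, dV_comm (ev d), dV_comm (ev e), dV_add_left,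
    dV_smul_left, dV_smul_left, dV_add_left, dV_smul_left, dV_smul_left, h1, h2, dV_dd, dV_dd]
  ring

theorem dV_coord (d e : Dir) (h : perp d e) (a b : ℝ) :
    dV (a • ev d + b • ev e) (ev d) = a := by
  rw [dV_add_left, dV_smul_left, dV_smul_left, dV_dd, dV_comm, dV_de d e h]
  ring

theorem emb_add (p q : Z3) : emb (p + q) = emb p + emb q := by
  unfold emb
  simp only [Prod.fst_add, Prod.snd_add, Int.cast_add, Prod.mk_add_mk]

theorem sum_ev (w : List Dir) : (w.map ev).sum = emb (pos w) := by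
  induction w with
  | nil =>
    simp [pos, emb]
    rfl
  | cons d w ih =>
    rw [List.map_cons, List.sum_cons, ih]
    show ev d + emb (pos w) = emb (pos w + vec d)
    rw [emb_add, add_comm]
    rfl

/-- the moving part -/
noncomputable def Mv (d e : Dir) (a1 a2 b1 b2 : ℝ) : List V :=
  [a1 • ev d + a2 • ev e, (b1 - a1) • ev d + (b2 - a2) • ev e, (2 - b1) • ev d + (-b2) • ev e]

/-- the admissible positions -/
structure Ok (a1 a2 b1 b2 : ℝ) : Prop where
  l1 : a1 ^ 2 + a2 ^ 2 = 1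
  l2 : (b1 - a1) ^ 2 + (b2 - a2) ^ 2 = 1
  l3 : (2 - b1) ^ 2 + b2 ^ 2 = 1
  p1 : 0 < a1
  p2 : a1 < b1
  p3 : b1 < 2
  q1 : 0 ≤ a2
  q2 : a2 < 1
  r1 : 0 ≤ b2
  r2 : b2 < 1

theorem Ok.mirror {a1 a2 b1 b2 : ℝ} (h : Ok a1 a2 b1 b2) : Ok (2 - b1) b2 (2 - a1) a2 where
  l1 := h.l3
  l2 := by
    have := h.l2
    linarith [this, show (2 - a1 - (2 - b1)) ^ 2 + (a2 - b2) ^ 2 =
      (b1 - a1) ^ 2 + (b2 - a2) ^ 2 by ring]
  l3 := by
    have := h.l1
    linarith [this, show (2 - (2 - a1)) ^ 2 + a2 ^ 2 = a1 ^ 2 + a2 ^ 2 by ring]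
  p1 := by linarith [h.p3]
  p2 := by linarith [h.p2]
  p3 := by linarith [h.p1]
  q1 := h.r1
  q2 := h.r2
  r1 := h.q1
  r2 := h.q2

theorem ends_Mv (d e : Dir) (a1 a2 b1 b2 : ℝ) :
    chain 0 (ends 0 (Mv d e a1 a2 b1 b2)) =
      [(0, a1 • ev d + a2 • ev e), (a1 • ev d + a2 • ev e, b1 • ev d + b2 • ev e),
        (b1 • ev d + b2 • ev e, (2 : ℝ) • ev d + (0 : ℝ) • ev e)] := by
  have h1 : (0 : V) + (a1 • ev d + a2 • ev e) = a1 • ev d + a2 • ev e := zero_add _
  have h2 : a1 • ev d + a2 • ev e + ((b1 - a1) • ev d + (b2 - a2) • ev e) =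
      b1 • ev d + b2 • ev e := by module
  have h3 : b1 • ev d + b2 • ev e + ((2 - b1) • ev d + (-b2) • ev e) =
      (2 : ℝ) • ev d + (0 : ℝ) • ev e := by module
  simp only [Mv, ends, chain, h1, h2, h3]

theorem lerp_comb (d e : Dir) (a b a' b' u : ℝ) :
    lerp (a • ev d + b • ev e) (a' • ev d + b' • ev e) u =
      ((1 - u) * a + u * a') • ev d + ((1 - u) * b + u * b') • ev e := by
  unfold lerp
  module

theorem disj_of (d e : Dir) (h : perp d e) (a b a' b' x y x' y' : ℝ) (h1 : a < a')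
    (h2 : a' ≤ x) (h3 : x < x') :
    Disj (a • ev d + b • ev e, a' • ev d + b' • ev e)
      (x • ev d + y • ev e, x' • ev d + y' • ev e) := by
  intro u v hu0 hu1 hv0 hv1 heq
  simp only [] at heq
  rw [lerp_comb, lerp_comb] at heq
  have h4 := congrArg (fun z => dV z (ev d)) heq
  simp only [dV_coord d e h] at h4
  nlinarith

theorem simple_of (hkey : Z_key) (hreg : Z_regS) (d e : Dir) (S : List Dir) (h : perp d e)
    (hS : SAP (d :: d :: S)) (a1 a2 b1 b2 : ℝ) (ok : Ok a1 a2 b1 b2) :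
    Simple (poly (Mv d e a1 a2 b1 b2 ++ S.map ev)) := by
  have hSne : S ≠ [] := by
    rintro rfl
    have := hS.1
    simp at this
  have hunit : ∀ v ∈ Mv d e a1 a2 b1 b2, dV v v = 1 := by
    intro v hv
    simp only [Mv, List.mem_cons, List.not_mem_nil, or_false] at hv
    rcases hv with rfl | rfl | rfl
    · rw [dV_comb d e h, ok.l1]
    · rw [dV_comb d e h, ok.l2]
    · rw [dV_comb d e h, ← ok.l3]
      ring
  have hz : (0 : V) = (0 : ℝ) • ev d + (0 : ℝ) • ev e := by module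
  refine hkey [d, d] S (Mv d e a1 a2 b1 b2) (RS d e) hS (by simp) hSne (by simp [Mv]) ?_ ?_ ?_ ?_
    (fun S1 g S2 hs s h0 h1 => hreg d e S h hS S1 g S2 hs s h0 h1)
  · simp only [Mv, List.sum_cons, List.sum_nil, List.map_cons, List.map_nil]
    module
  · intro v hv h0
    have := hunit v hv
    rw [h0] at this
    simp [dV] at this
  · rw [ends_Mv]
    rw [hz]
    refine List.Pairwise.cons ?_ (List.Pairwise.cons ?_ (List.Pairwise.cons ?_ List.Pairwise.nil))
    · intro x hx
      simp only [List.mem_cons, List.not_mem_nil, or_false] at hx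
      rcases hx with rfl | rfl
      · exact disj_of d e h _ _ _ _ _ _ _ _ ok.p1 le_rfl ok.p2
      · exact disj_of d e h _ _ _ _ _ _ _ _ ok.p1 ok.p2.le ok.p3
    · intro x hx
      simp only [List.mem_cons, List.not_mem_nil, or_false] at hx
      rcases hx with rfl
      exact disj_of d e h _ _ _ _ _ _ _ _ ok.p2 le_rfl ok.p3
    · intro x hx
      simp at hx
  · rw [ends_Mv]
    intro x hx t h0 h1
    obtain ⟨l1, l2, l3, p1, p2, p3, q1, q2, r1, r2⟩ := ok
    have h1' : 0 < 1 - t := by linarith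
    simp only [List.mem_cons, List.not_mem_nil, or_false] at hx
    rcases hx with rfl | rfl | rfl
    · rcases h0.eq_or_lt with h2 | h2
      · left
        rw [← h2]
        show lerp 0 _ 0 = 0
        unfold lerp
        simp
      · right
        show lerp (0 : V) (a1 • ev d + a2 • ev e) t ∈ RS d e
        rw [hz, lerp_comb]
        refine ⟨_, _, ?_, ?_, ?_, ?_, rfl⟩
        · rw [mul_zero, zero_add]
          exact mul_pos h2 p1
        · nlinarith
        · rw [mul_zero, zero_add]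
          exact mul_nonneg h0 q1
        · nlinarith
    · right
      show lerp (a1 • ev d + a2 • ev e) (b1 • ev d + b2 • ev e) t ∈ RS d e
      rw [lerp_comb]
      refine ⟨_, _, ?_, ?_, ?_, ?_, rfl⟩
      · have := mul_pos h1' p1
        have := mul_nonneg h0 (p1.trans p2).le
        linarith
      · have := mul_lt_mul_of_pos_left (p2.trans p3) h1'
        have := mul_le_mul_of_nonneg_left p3.le h0
        linarith
      · have := mul_nonneg h1'.le q1
        have := mul_nonneg h0 r1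
        linarith
      · have := mul_lt_mul_of_pos_left q2 h1'
        have := mul_le_mul_of_nonneg_left r2.le h0
        linarith
    · right
      show lerp (b1 • ev d + b2 • ev e) ((2 : ℝ) • ev d + (0 : ℝ) • ev e) t ∈ RS d e
      rw [lerp_comb]
      refine ⟨_, _, ?_, ?_, ?_, ?_, rfl⟩
      · have := mul_pos h1' (p1.trans p2)
        linarith
      · have := mul_lt_mul_of_pos_left p3 h1'
        linarith
      · have := mul_nonneg h1'.le r1
        linarith
      · have := mul_lt_mul_of_pos_left r2 h1'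
        linarith

theorem emb_of (hkey : Z_key) (hreg : Z_regS) (d e : Dir) (S : List Dir) (h : perp d e)
    (hS : SAP (d :: d :: S)) (a1 a2 b1 b2 : ℝ) (ok : Ok a1 a2 b1 b2) :
    EmbL (Mv d e a1 a2 b1 b2 ++ S.map ev) := by
  refine ⟨?_, ?_, simple_of hkey hreg d e S h hS a1 a2 b1 b2 ok⟩
  · intro v hv
    rw [List.mem_append] at hv
    rcases hv with hv | hv
    · simp only [Mv, List.mem_cons, List.not_mem_nil, or_false] at hv
      rcases hv with rfl | rfl | rfl
      · rw [dV_comb d e h, ok.l1]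
      · rw [dV_comb d e h, ok.l2]
      · rw [dV_comb d e h, ← ok.l3]
        ring
    · rw [List.mem_map] at hv
      obtain ⟨g, -, rfl⟩ := hv
      exact dV_dd g
  · rw [List.sum_append]
    have h1 : (Mv d e a1 a2 b1 b2).sum = ev d + ev d := by
      simp only [Mv, List.sum_cons, List.sum_nil]
      module
    have h2 := sum_ev (d :: d :: S)
    rw [hS.2.1, List.map_cons, List.map_cons, List.sum_cons, List.sum_cons, ← add_assoc] at h2
    rw [h1, h2]
    simp [emb]

theorem j1_of (hkey : Z_key) (hreg : Z_regS) (d e : Dir) (S : List Dir) (h : perp d e)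
    (hS : SAP (d :: d :: S)) (a1 a2 b1 b2 : ℝ → ℝ) (ha1 : Continuous a1) (ha2 : Continuous a2)
    (hb1 : Continuous b1) (hb2 : Continuous b2)
    (ok : ∀ t : ℝ, 0 ≤ t → t ≤ 1 → Ok (a1 t) (a2 t) (b1 t) (b2 t)) :
    J1 (Mv d e (a1 0) (a2 0) (b1 0) (b2 0) ++ S.map ev)
      (Mv d e (a1 1) (a2 1) (b1 1) (b2 1) ++ S.map ev) := by
  set γ : ℝ → Fin (3 + S.length) → V := fun t => Fin.append
    ![a1 t • ev d + a2 t • ev e, (b1 t - a1 t) • ev d + (b2 t - a2 t) • ev e,
      (2 - b1 t) • ev d + (-b2 t) • ev e] (fun j : Fin S.length => ev (S.get j)) with hγ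
  have hof : ∀ t, List.ofFn (γ t) = Mv d e (a1 t) (a2 t) (b1 t) (b2 t) ++ S.map ev := by
    intro t
    rw [hγ]
    simp only []
    rw [List.ofFn_fin_append]
    have h2 : List.ofFn (fun j : Fin S.length => ev (S.get j)) = S.map ev := by
      apply List.ext_getElem
      · simp
      · intro i h1 h2
        simp
    rw [h2]
    simp [Mv]
  refine ⟨3 + S.length, γ, ?_, ?_, (hof 0).symm, (hof 1).symm⟩
  · intro i
    refine Fin.addCases (fun j => ?_) (fun j => ?_) i
    · have : (fun t => γ t (Fin.castAdd S.length j)) = fun t =>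
          ![a1 t • ev d + a2 t • ev e, (b1 t - a1 t) • ev d + (b2 t - a2 t) • ev e,
            (2 - b1 t) • ev d + (-b2 t) • ev e] j := by
        funext t
        rw [hγ]
        simp only [Fin.append_left]
      rw [this]
      fin_cases j
      · show Continuous fun t => a1 t • ev d + a2 t • ev e
        fun_prop
      · show Continuous fun t => (b1 t - a1 t) • ev d + (b2 t - a2 t) • ev e
        fun_prop
      · show Continuous fun t => (2 - b1 t) • ev d + (-b2 t) • ev e
        fun_prop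
    · have : (fun t => γ t (Fin.natAdd 3 j)) = fun _ => ev (S.get j) := by
        funext t
        rw [hγ]
        simp only [Fin.append_right]
      rw [this]
      exact continuous_const
  · intro t h0 h1
    rw [hof t]
    exact emb_of hkey hreg d e S h hS _ _ _ _ (ok t h0 h1)

/-- the scalar data of the motion -/
noncomputable def cc (t : ℝ) : ℝ := Real.cos (t * (Real.pi / 3))
/-- the scalar data of the motion -/
noncomputable def ss (t : ℝ) : ℝ := Real.sin (t * (Real.pi / 3))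
/-- the scalar data of the motion -/
noncomputable def mu (t : ℝ) : ℝ := Real.sqrt (1 / (5 - 4 * cc t) - 1 / 4)
/-- the scalar data of the motion -/
noncomputable def A1 (t : ℝ) : ℝ := (2 - cc t) / 2 - mu t * ss t
/-- the scalar data of the motion -/
noncomputable def A2 (t : ℝ) : ℝ := ss t / 2 + mu t * (2 - cc t)

theorem cc_cont : Continuous cc := by
  unfold cc
  fun_prop

theorem ss_cont : Continuous ss := by
  unfold ss
  fun_prop

theorem mu_cont : Continuous mu := by
  unfold mu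
  have h : ∀ t, 5 - 4 * cc t ≠ 0 := by
    intro t
    have : cc t ≤ 1 := Real.cos_le_one _
    intro h0
    linarith
  have h2 := cc_cont
  refine Real.continuous_sqrt.comp ?_
  refine Continuous.sub (Continuous.div continuous_const (by fun_prop) h) continuous_const

theorem A1_cont : Continuous A1 := by
  have h1 := cc_cont
  have h2 := ss_cont
  have h3 := mu_cont
  unfold A1
  fun_prop

theorem A2_cont : Continuous A2 := by
  have h1 := cc_cont
  have h2 := ss_cont
  have h3 := mu_cont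
  unfold A2
  fun_prop

theorem ok_main (t : ℝ) (h0 : 0 ≤ t) (h1 : t ≤ 1) : Ok (A1 t) (A2 t) (2 - cc t) (ss t) := by
  have hpi := Real.pi_pos
  have hcs : cc t ^ 2 + ss t ^ 2 = 1 := by
    unfold cc ss
    exact Real.cos_sq_add_sin_sq _
  have hc1 : cc t ≤ 1 := Real.cos_le_one _
  have hc2 : 1 / 2 ≤ cc t := by
    unfold cc
    rw [← Real.cos_pi_div_three]
    apply Real.cos_le_cos_of_nonneg_of_le_pi
    · positivity
    · linarith
    · nlinarith
  have hs0 : 0 ≤ ss t := by
    unfold ss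
    apply Real.sin_nonneg_of_nonneg_of_le_pi
    · positivity
    · nlinarith
  set c := cc t with hc
  set s := ss t with hs
  have hR1 : 1 ≤ 5 - 4 * c := by linarith
  have hR3 : 5 - 4 * c ≤ 3 := by linarith
  have hR0 : 0 < 5 - 4 * c := by linarith
  have hmu0 : 0 ≤ mu t := Real.sqrt_nonneg _
  have harg : 0 ≤ 1 / (5 - 4 * c) - 1 / 4 := by
    rw [sub_nonneg]
    exact one_div_le_one_div_of_le hR0 (by linarith)
  have hmu2 : mu t ^ 2 = 1 / (5 - 4 * c) - 1 / 4 := by
    unfold mu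
    rw [Real.sq_sqrt harg]
  have hRmu : (5 - 4 * c) * (1 / 4 + mu t ^ 2) = 1 := by
    rw [hmu2]
    field_simp
    ring
  have e1 : A1 t = (2 - c) / 2 - mu t * s := rfl
  have e2 : A2 t = s / 2 + mu t * (2 - c) := rfl
  have hl1 : A1 t ^ 2 + A2 t ^ 2 = 1 := by
    rw [e1, e2]
    have : ((2 - c) / 2 - mu t * s) ^ 2 + (s / 2 + mu t * (2 - c)) ^ 2 =
        (4 - 4 * c + (c ^ 2 + s ^ 2)) * (1 / 4 + mu t ^ 2) := by ring
    rw [this, hcs]
    linarith [hRmu]
  have hp1 : 0 < A1 t := by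
    rw [e1, sub_pos]
    have h5 : 0 < 5 - 4 * c - 2 * s := by nlinarith [sq_nonneg (c - 2 * s)]
    apply lt_of_pow_lt_pow_left₀ 2 (by linarith)
    have h6 : (mu t * s) ^ 2 = s ^ 2 / (5 - 4 * c) - s ^ 2 / 4 := by
      rw [mul_pow, hmu2]
      ring
    rw [h6]
    have h7 : ((2 - c) / 2) ^ 2 = (5 - 4 * c) / 4 - s ^ 2 / 4 := by nlinarith
    rw [h7]
    have h8 : s ^ 2 / (5 - 4 * c) < (5 - 4 * c) / 4 := by
      rw [div_lt_iff₀ hR0]
      nlinarith
    linarith
  refine ⟨hl1, ?_, ?_, hp1, ?_, by linarith, ?_, ?_, hs0, ?_⟩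
  · rw [e1, e2]
    have : (2 - c - ((2 - c) / 2 - mu t * s)) ^ 2 + (s - (s / 2 + mu t * (2 - c))) ^ 2 =
        (4 - 4 * c + (c ^ 2 + s ^ 2)) * (1 / 4 + mu t ^ 2) := by ring
    rw [this, hcs]
    linarith [hRmu]
  · nlinarith
  · rw [e1]
    have := mul_nonneg hmu0 hs0
    linarith
  · rw [e2]
    have := mul_nonneg hmu0 (show 0 ≤ 2 - c by linarith)
    linarith
  · nlinarith
  · nlinarith

theorem cc0 : cc 0 = 1 := by simp [cc]
theorem ss0 : ss 0 = 0 := by simp [ss]
theorem cc1 : cc 1 = 1 / 2 := by simp [cc]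
theorem ss1 : ss 1 = √3 / 2 := by simp [ss]

theorem mu0 : mu 0 = √3 / 2 := by
  unfold mu
  rw [cc0]
  have h3 : (0 : ℝ) ≤ 3 := by norm_num
  rw [Real.sqrt_eq_iff_mul_self_eq (by norm_num) (by positivity)]
  nlinarith [Real.mul_self_sqrt h3]

theorem mu1 : mu 1 = √3 / 6 := by
  unfold mu
  rw [cc1]
  have h3 : (0 : ℝ) ≤ 3 := by norm_num
  rw [Real.sqrt_eq_iff_mul_self_eq (by norm_num) (by positivity)]
  nlinarith [Real.mul_self_sqrt h3]

theorem A1_0 : A1 0 = 1 / 2 := by
  unfold A1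
  rw [cc0, ss0]
  norm_num

theorem A2_0 : A2 0 = √3 / 2 := by
  unfold A2
  rw [cc0, ss0, mu0]
  ring

theorem A1_1 : A1 1 = 1 / 2 := by
  unfold A1
  rw [cc1, ss1, mu1]
  have h3 := Real.mul_self_sqrt (show (0 : ℝ) ≤ 3 by norm_num)
  linarith

theorem A2_1 : A2 1 = √3 / 2 := by
  unfold A2
  rw [cc1, ss1, mu1]
  ring

end MOVS

theorem Z_movS_proof (hkey : Z_key) (hreg : Z_regS) : Z_movS := by
  intro d e S h hS
  have j1 := MOVS.j1_of hkey hreg d e S h hS MOVS.A1 MOVS.A2 (fun t => 2 - MOVS.cc t) MOVS.ss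
    MOVS.A1_cont MOVS.A2_cont (continuous_const.sub MOVS.cc_cont) MOVS.ss_cont
    (fun t h0 h1 => MOVS.ok_main t h0 h1)
  have j2 := MOVS.j1_of hkey hreg d e S h hS (fun t => 2 - (2 - MOVS.cc t)) MOVS.ss
    (fun t => 2 - MOVS.A1 t) MOVS.A2
    (continuous_const.sub (continuous_const.sub MOVS.cc_cont)) MOVS.ss_cont
    (continuous_const.sub MOVS.A1_cont) MOVS.A2_cont
    (fun t h0 h1 => (MOVS.ok_main t h0 h1).mirror)
  rw [MOVS.A1_0, MOVS.A2_0, MOVS.cc0, MOVS.ss0, MOVS.A1_1, MOVS.A2_1, MOVS.cc1, MOVS.ss1] at j1 j2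
  have e1 : MOVS.Mv d e (1 / 2) (√3 / 2) (2 - 1) 0 ++ S.map ev =
      bp d e ++ ev d :: S.map ev := by
    have a1 : ((2 : ℝ) - 1 - 1 / 2) • ev d + ((0 : ℝ) - √3 / 2) • ev e =
        (1 / 2 : ℝ) • ev d - (√3 / 2 : ℝ) • ev e := by module
    have a2 : ((2 : ℝ) - (2 - 1)) • ev d + (-0 : ℝ) • ev e = ev d := by module
    simp only [MOVS.Mv, bp, a1, a2, List.cons_append, List.nil_append]
  have e2 : MOVS.Mv d e (2 - (2 - 1)) 0 (2 - 1 / 2) (√3 / 2) ++ S.map ev =
      ev d :: (bp d e ++ S.map ev) := by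
    have a1 : ((2 : ℝ) - (2 - 1)) • ev d + (0 : ℝ) • ev e = ev d := by module
    have a2 : ((2 : ℝ) - 1 / 2 - (2 - (2 - 1))) • ev d + (√3 / 2 - 0 : ℝ) • ev e =
        (1 / 2 : ℝ) • ev d + (√3 / 2 : ℝ) • ev e := by module
    have a3 : ((2 : ℝ) - (2 - 1 / 2)) • ev d + (-(√3 / 2) : ℝ) • ev e =
        (1 / 2 : ℝ) • ev d - (√3 / 2 : ℝ) • ev e := by module
    simp only [MOVS.Mv, bp, a1, a2, a3, List.cons_append, List.nil_append]
  have e3 : MOVS.Mv d e (2 - (2 - 1 / 2)) (√3 / 2) (2 - 1 / 2) (√3 / 2) =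
      MOVS.Mv d e (1 / 2) (√3 / 2) (2 - 1 / 2) (√3 / 2) := by
    have : (2 : ℝ) - (2 - 1 / 2) = 1 / 2 := by norm_num
    rw [this]
  rw [e1] at j1
  rw [e2, e3] at j2
  exact Relation.EqvGen.trans _ _ _ (Relation.EqvGen.rel _ _ j1)
    (Relation.EqvGen.symm _ _ (Relation.EqvGen.rel _ _ j2))

end CP
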