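import Pool.Agent.H246CP.Stubs

/-! Task NEG: the polygon of a word read from the head, up to a reflection. -/

set_option autoImplicit false

namespace CP

open Matrix KN Filter Topology

namespace NEG

theorem chain_append (p q r : V) (l : List V) :
    chain p (l ++ [q] ++ [r]) = chain p (l ++ [q]) ++ [(q, r)] := by
  induction l generalizing p with
  | nil => rfl
  | cons a l ih =>
    show (p, a) :: chain a (l ++ [q] ++ [r]) = (p, a) :: chain a (l ++ [q]) ++ [(q, r)]
    rw [ih]
    rfl

theorem mem_edges_rot (q : V) (A : List V) (e : V × V) :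
    e ∈ edges (A ++ [q]) ↔ e ∈ edges (q :: A) := by
  cases A with
  | nil => rfl
  | cons a A =>
    have h1 : edges (a :: A ++ [q]) = chain a (A ++ [q]) ++ [(q, a)] := by
      show chain a (A ++ [q] ++ [a]) = _
      rw [chain_append]
    have h2 : edges (q :: a :: A) = (q, a) :: chain a (A ++ [q]) := rfl
    rw [h1, h2, List.mem_append, List.mem_singleton, List.mem_cons, or_comm]

theorem ps_rot (q : V) (A : List V) : ps (A ++ [q]) = ps (q :: A) := by
  ext x
  constructor
  · rintro ⟨e, he, h⟩
    exact ⟨e, (mem_edges_rot q A e).1 he, h⟩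
  · rintro ⟨e, he, h⟩
    exact ⟨e, (mem_edges_rot q A e).2 he, h⟩

theorem chain_neg (p : V) (l : List V) :
    chain (-p) (l.map fun x => -x) = (chain p l).map fun e => (-e.1, -e.2) := by
  induction l generalizing p with
  | nil => rfl
  | cons a l ih =>
    show (-p, -a) :: chain (-a) (l.map fun x => -x) = _
    rw [ih]
    rfl

theorem edges_neg (l : List V) :
    edges (l.map fun x => -x) = (edges l).map fun e => (-e.1, -e.2) := by
  cases l with
  | nil => rfl
  | cons a l =>
    show chain (-a) ((l.map fun x => -x) ++ [-a]) = (chain a (l ++ [a])).map fun e => (-e.1, -e.2)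
    rw [← chain_neg, List.map_append]
    rfl

theorem lerp_neg (p q : V) (u : ℝ) : lerp (-p) (-q) u = -lerp p q u := by
  unfold lerp
  rw [smul_neg, smul_neg, neg_add]

theorem ps_neg (l : List V) : (fun x : V => -x) '' ps l = ps (l.map fun x => -x) := by
  ext x
  constructor
  · rintro ⟨y, ⟨e, he, u, h0, h1, rfl⟩, rfl⟩
    refine ⟨(-e.1, -e.2), ?_, u, h0, h1, ?_⟩
    · rw [edges_neg]
      exact List.mem_map.2 ⟨e, he, rfl⟩
    · exact (lerp_neg _ _ _).symm
  · rintro ⟨e, he, u, h0, h1, rfl⟩
    rw [edges_neg] at he
    obtain ⟨e', he', rfl⟩ := List.mem_map.1 he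
    exact ⟨lerp e'.1 e'.2 u, ⟨e', he', u, h0, h1, rfl⟩, (lerp_neg _ _ _).symm⟩

theorem emb_add (p q : Z3) : emb (p + q) = emb p + emb q := by
  unfold emb
  ext <;> simp

theorem emb_zero : emb 0 = 0 := by
  unfold emb
  ext <;> simp

theorem vsf_path (t : List Dir) :
    vsf (-emb (pos t)) (t.map ev) ++ [0] = (path t).map fun p => -emb p := by
  induction t with
  | nil =>
    show [(0 : V)] = [-emb 0]
    rw [emb_zero, neg_zero]
  | cons d t ih =>
    show -emb (pos t + vec d) :: (vsf (-emb (pos t + vec d) + ev d) (t.map ev) ++ [0]) =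
      -emb (pos t + vec d) :: (path t).map fun p => -emb p
    have h : -emb (pos t + vec d) + ev d = -emb (pos t) := by
      unfold ev
      rw [emb_add, neg_add, neg_add_cancel_right]
    rw [h, ih]

end NEG

open NEG in
theorem Z_neg_proof : Z_neg := by
  intro w hw
  obtain ⟨hl, h0, -⟩ := hw
  cases w with
  | nil => simp at hl
  | cons d t =>
    have h1 : poly ((d :: t).map ev) = 0 :: vsf (-emb (pos t)) (t.map ev) := by
      have h : (0 : V) + ev d = -emb (pos t) := by
        have h2 : emb (pos t + vec d) = 0 := by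
          rw [show pos t + vec d = pos (d :: t) from rfl, h0, emb_zero]
        rw [emb_add] at h2
        unfold ev
        rw [zero_add]
        exact eq_neg_of_add_eq_zero_right h2
      show (0 : V) :: vsf (0 + ev d) (t.map ev) = _
      rw [h]
    have h2 : (vl (d :: t)).map (fun x => -x) = vsf (-emb (pos t)) (t.map ev) ++ [0] := by
      rw [vsf_path]
      show ((path t).map emb).map (fun x => -x) = _
      rw [List.map_map]
      rfl
    rw [ps_neg, h2, h1, ps_rot]

end CP
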