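import Pool.Agent.H246CP.Stubs

set_option autoImplicit false

namespace CP

open Matrix KN Filter Topology

namespace POLR

theorem chain_getElem (p : V) (l : List V) (i : ℕ) (h : i < (chain p l).length) :
    (chain p l)[i] = ((p :: l).getD i 0, l.getD i 0) := by
  induction l generalizing p i with
  | nil => simp [chain] at h
  | cons q l ih =>
    cases i with
    | zero => simp [chain]
    | succ i =>
      simp only [chain, List.getElem_cons_succ, List.getD_cons_succ]
      rw [ih q i (by simpa [chain] using h)]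

theorem edges_ofFn (n : ℕ) (g : Fin (n + 1) → V) :
    edges (List.ofFn g) = List.ofFn (fun i => (g i, g (i + 1))) := by
  have key : edges (List.ofFn g) =
      chain (g 0) (List.ofFn (fun j : Fin n => g j.succ) ++ [g 0]) := by
    rw [List.ofFn_succ]; rfl
  rw [key]
  apply List.ext_getElem
  · rw [chain_length]; simp
  · intro i h1 h2
    have hi : i < n + 1 := by simpa using h2
    rw [List.getElem_ofFn, chain_getElem]
    congr 1
    · cases i with
      | zero => simp
      | succ j =>
        have hj : j < n := by omega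
        rw [List.getD_cons_succ, List.getD_append _ _ _ _ (by simpa using hj),
          List.getD_eq_getElem _ _ (by simpa using hj), List.getElem_ofFn]
        rfl
    · by_cases hin : i < n
      · rw [List.getD_append _ _ _ _ (by simpa using hin),
          List.getD_eq_getElem _ _ (by simpa using hin), List.getElem_ofFn]
        congr 1
        apply Fin.ext
        rw [Fin.val_add_one_of_lt (by rw [Fin.lt_def]; simpa using hin)]
        rfl
      · have : i = n := by omega
        subst this
        rw [List.getD_append_right _ _ _ _ (by simp)]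
        simp only [List.length_ofFn, Nat.sub_self, List.getD_cons_zero]
        congr 1
        symm
        exact Fin.last_add_one i

/-- a point of a sector has an argument between the two arguments -/
theorem sector (θ θ' α β : ℝ) (h1 : θ < θ') (h2 : θ' < θ + Real.pi) (hα : 0 < α) (hβ : 0 ≤ β) :
    ∃ ρ ψ : ℝ, 0 < ρ ∧ θ ≤ ψ ∧ ψ < θ' ∧ α * Real.cos θ + β * Real.cos θ' = ρ * Real.cos ψ ∧
      α * Real.sin θ + β * Real.sin θ' = ρ * Real.sin ψ := by
  set δ : ℝ := θ' - θ with hδ
  have hδ0 : 0 < δ := by rw [hδ]; linarith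
  have hδ1 : δ < Real.pi := by rw [hδ]; linarith
  have hs : 0 < Real.sin δ := Real.sin_pos_of_pos_of_lt_pi hδ0 hδ1
  set z : ℂ := ⟨α + β * Real.cos δ, β * Real.sin δ⟩ with hz
  have hzne : z ≠ 0 := by
    intro h
    have hre := congrArg Complex.re h
    have him := congrArg Complex.im h
    simp only [hz, Complex.zero_re, Complex.zero_im] at hre him
    rcases mul_eq_zero.1 him with h0 | h0
    · rw [h0] at hre
      linarith
    · linarith
  have hn : 0 < ‖z‖ := norm_pos_iff.2 hzne
  have hc : ‖z‖ * Real.cos z.arg = α + β * Real.cos δ := Complex.norm_mul_cos_arg z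
  have hsn : ‖z‖ * Real.sin z.arg = β * Real.sin δ := Complex.norm_mul_sin_arg z
  have ha0 : 0 ≤ z.arg := by
    rw [Complex.arg_nonneg_iff]
    exact mul_nonneg hβ hs.le
  have ha1 : z.arg < δ := by
    by_contra hcon
    push Not at hcon
    have h3 : 0 ≤ Real.sin (z.arg - δ) :=
      Real.sin_nonneg_of_nonneg_of_le_pi (by linarith) (by linarith [Complex.arg_le_pi z])
    have h4 : ‖z‖ * Real.sin (z.arg - δ) = - (α * Real.sin δ) := by
      rw [Real.sin_sub]
      calc ‖z‖ * (Real.sin z.arg * Real.cos δ - Real.cos z.arg * Real.sin δ)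
          = (‖z‖ * Real.sin z.arg) * Real.cos δ - (‖z‖ * Real.cos z.arg) * Real.sin δ := by ring
        _ = - (α * Real.sin δ) := by rw [hc, hsn]; ring
    have h5 : 0 ≤ ‖z‖ * Real.sin (z.arg - δ) := mul_nonneg hn.le h3
    have h6 : 0 < α * Real.sin δ := mul_pos hα hs
    linarith
  refine ⟨‖z‖, θ + z.arg, hn, by linarith, by linarith, ?_, ?_⟩
  · rw [Real.cos_add]
    have e : θ' = θ + δ := by rw [hδ]; ring
    rw [e, Real.cos_add]
    calc α * Real.cos θ + β * (Real.cos θ * Real.cos δ - Real.sin θ * Real.sin δ)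
        = Real.cos θ * (α + β * Real.cos δ) - Real.sin θ * (β * Real.sin δ) := by ring
      _ = ‖z‖ * (Real.cos θ * Real.cos z.arg - Real.sin θ * Real.sin z.arg) := by
          rw [← hc, ← hsn]; ring
  · rw [Real.sin_add]
    have e : θ' = θ + δ := by rw [hδ]; ring
    rw [e, Real.sin_add]
    calc α * Real.sin θ + β * (Real.sin θ * Real.cos δ + Real.cos θ * Real.sin δ)
        = Real.sin θ * (α + β * Real.cos δ) + Real.cos θ * (β * Real.sin δ) := by ring
      _ = ‖z‖ * (Real.sin θ * Real.cos z.arg + Real.cos θ * Real.sin z.arg) := by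
          rw [← hc, ← hsn]; ring

/-- uniqueness of the argument -/
theorem unique (ρ ρ' ψ ψ' : ℝ) (hρ : 0 < ρ) (hρ' : 0 < ρ')
    (h1 : ρ * Real.cos ψ = ρ' * Real.cos ψ') (h2 : ρ * Real.sin ψ = ρ' * Real.sin ψ')
    (h3 : ψ < ψ') (h4 : ψ' < ψ + 2 * Real.pi) : False := by
  have e1 := Real.sin_sq_add_cos_sq ψ
  have e2 := Real.sin_sq_add_cos_sq ψ'
  have hsq : ρ ^ 2 = ρ' ^ 2 := by
    calc ρ ^ 2 = (ρ * Real.cos ψ) ^ 2 + (ρ * Real.sin ψ) ^ 2 := by
          have : ρ ^ 2 = ρ ^ 2 * (Real.sin ψ ^ 2 + Real.cos ψ ^ 2) := by rw [e1, mul_one]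
          rw [this]; ring
      _ = (ρ' * Real.cos ψ') ^ 2 + (ρ' * Real.sin ψ') ^ 2 := by rw [h1, h2]
      _ = ρ' ^ 2 := by
          have : ρ' ^ 2 = ρ' ^ 2 * (Real.sin ψ' ^ 2 + Real.cos ψ' ^ 2) := by rw [e2, mul_one]
          rw [this]; ring
  have heq : ρ = ρ' := by
    rcases sq_eq_sq_iff_eq_or_eq_neg.1 hsq with h | h
    · exact h
    · linarith
  subst heq
  have hc : Real.cos ψ = Real.cos ψ' := mul_left_cancel₀ hρ.ne' h1
  have hs : Real.sin ψ = Real.sin ψ' := mul_left_cancel₀ hρ.ne' h2
  have h5 : Real.cos (ψ' - ψ) = 1 := by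
    rw [Real.cos_sub, ← hc, ← hs]
    nlinarith
  have h6 := (Real.cos_eq_one_iff_of_lt_of_lt (by linarith [Real.pi_pos]) (by linarith)).1 h5
  linarith

theorem lerp_pol (a b θ θ' u : ℝ) :
    lerp ((a * Real.cos θ, a * Real.sin θ, 0) : V) (b * Real.cos θ', b * Real.sin θ', 0) u =
      (((1 - u) * a) * Real.cos θ + (u * b) * Real.cos θ',
        ((1 - u) * a) * Real.sin θ + (u * b) * Real.sin θ', 0) := by
  unfold lerp
  refine Prod.ext ?_ (Prod.ext ?_ ?_)
  · simp; ring
  · simp; ring
  · simp

end POLR

open POLR in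
/-- polygons around the origin are simple -/
theorem Z_polar_proof : Z_polar := by
  intro n θ r hn hr hθ hper
  obtain ⟨m, rfl⟩ : ∃ m, n = m + 1 := ⟨n - 1, by omega⟩
  have mono : ∀ i j : ℕ, i ≤ j → j ≤ m + 1 → θ i ≤ θ j := by
    intro i j hij
    induction j, hij using Nat.le_induction with
    | base => intro _; exact le_rfl
    | succ j hij ih =>
      intro hj
      exact (ih (by omega)).trans (hθ j (by omega)).1.le
  set g : Fin (m + 1) → V := fun j =>
    ((r j.val * Real.cos (θ j.val), r j.val * Real.sin (θ j.val), 0) : V) with hg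
  set b : ℕ → ℝ := fun j => if j < m + 1 then r j else r 0 with hb
  have hb0 : ∀ j, 0 < b j := by
    intro j
    simp only [hb]
    split_ifs
    · exact hr j
    · exact hr 0
  have hnext : ∀ j : Fin (m + 1), g (j + 1) =
      ((b (j.val + 1) * Real.cos (θ (j.val + 1)), b (j.val + 1) * Real.sin (θ (j.val + 1)), 0) : V) := by
    intro j
    by_cases hj : j.val < m
    · have hv : (j + 1).val = j.val + 1 :=
        Fin.val_add_one_of_lt (by rw [Fin.lt_def]; simpa using hj)
      have hb' : b (j.val + 1) = r (j.val + 1) := by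
        simp only [hb]
        rw [if_pos (by omega)]
      simp only [hg, hv, hb']
    · have hj' : j = Fin.last m := by
        apply Fin.ext
        have := j.isLt
        simp only [Fin.val_last]
        omega
      subst hj'
      have hb' : b ((Fin.last m).val + 1) = r 0 := by
        simp only [hb, Fin.val_last]
        rw [if_neg (by omega)]
      rw [Fin.last_add_one, hb']
      simp only [hg, Fin.val_last, hper, Real.cos_add_two_pi, Real.sin_add_two_pi]
      rfl
  refine ⟨?_, ?_, ?_⟩
  · intro h
    have := congrArg List.length h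
    simp at this
  · rw [edges_ofFn, List.pairwise_ofFn]
    intro i j hij u v hu0 hu1 hv0 hv1 heq
    simp only [hnext] at heq
    simp only [hg] at heq
    rw [lerp_pol, lerp_pol] at heq
    have heq1 := congrArg Prod.fst heq
    have heq2 := congrArg (fun x : V => x.2.1) heq
    simp only at heq1 heq2
    obtain ⟨ρ, ψ, hρ, ha, hb2, hc, hd⟩ := sector (θ i.val) (θ (i.val + 1)) ((1 - u) * r i.val)
      (u * b (i.val + 1)) (hθ i.val i.isLt).1 (hθ i.val i.isLt).2
      (mul_pos (by linarith) (hr _)) (mul_nonneg hu0 (hb0 _).le)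
    obtain ⟨ρ', ψ', hρ', ha', hb2', hc', hd'⟩ := sector (θ j.val) (θ (j.val + 1))
      ((1 - v) * r j.val) (v * b (j.val + 1)) (hθ j.val j.isLt).1 (hθ j.val j.isLt).2
      (mul_pos (by linarith) (hr _)) (mul_nonneg hv0 (hb0 _).le)
    have hij' : i.val + 1 ≤ j.val := hij
    have h1 := mono (i.val + 1) j.val hij' (by omega)
    have h2 := mono 0 i.val (by omega) (by omega)
    have h3 := mono (j.val + 1) (m + 1) (by omega) le_rfl
    exact unique ρ ρ' ψ ψ' hρ hρ' (by rw [← hc, ← hc', heq1]) (by rw [← hd, ← hd', heq2])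
      (by linarith) (by linarith)
  · rw [edges_ofFn]
    intro e he
    rw [List.mem_ofFn] at he
    obtain ⟨i, rfl⟩ := he
    intro heq
    simp only [hnext] at heq
    simp only [hg] at heq
    have heq1 := congrArg Prod.fst heq
    have heq2 := congrArg (fun x : V => x.2.1) heq
    simp only at heq1 heq2
    have h1 := hθ i.val i.isLt
    exact unique _ _ _ _ (hr i.val) (hb0 (i.val + 1)) heq1 heq2 h1.1
      (by linarith [Real.pi_pos])

end CP
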