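import Pool.Agent.H246CP.Stubs

set_option autoImplicit false

namespace CP

open Matrix KN Filter Topology

namespace REG

theorem chain_map (B : V → V) (p : V) (l : List V) :
    chain (B p) (l.map B) = (chain p l).map (Prod.map B B) := by
  induction l generalizing p with
  | nil => rfl
  | cons q l ih =>
    show (B p, B q) :: chain (B q) (l.map B) = _
    rw [ih q]
    rfl

theorem edges_map (B : V → V) (l : List V) : edges (l.map B) = (edges l).map (Prod.map B B) := by
  cases l with
  | nil => rfl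
  | cons p l =>
    show chain (B p) (l.map B ++ [B p]) = (chain p (l ++ [p])).map (Prod.map B B)
    rw [← chain_map, List.map_append]
    rfl

theorem ps_map (B : V → V) (hB : ∀ p q u, B (lerp p q u) = lerp (B p) (B q) u) (l : List V) :
    B '' ps l = ps (l.map B) := by
  ext x
  constructor
  · rintro ⟨y, ⟨e, he, u, hu0, hu1, rfl⟩, rfl⟩
    refine ⟨Prod.map B B e, ?_, u, hu0, hu1, ?_⟩
    · rw [edges_map]
      exact List.mem_map_of_mem he
    · rw [hB]
      rfl
  · rintro ⟨e, he, u, hu0, hu1, rfl⟩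
    rw [edges_map, List.mem_map] at he
    obtain ⟨e', he', rfl⟩ := he
    refine ⟨lerp e'.1 e'.2 u, ⟨e', he', u, hu0, hu1, rfl⟩, ?_⟩
    rw [hB]
    rfl

theorem trig (h : ℝ) (j : ℕ) :
    2 * Real.sin h * ∑ i ∈ Finset.range j, Real.cos (2 * h * i) =
      Real.sin h + Real.sin (2 * h * j) * Real.cos h - Real.cos (2 * h * j) * Real.sin h ∧
    2 * Real.sin h * ∑ i ∈ Finset.range j, Real.sin (2 * h * i) =
      Real.cos h - Real.cos (2 * h * j) * Real.cos h - Real.sin (2 * h * j) * Real.sin h := by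
  induction j with
  | zero => simp
  | succ j ih =>
    obtain ⟨ih1, ih2⟩ := ih
    have e1 : 2 * h * ((j + 1 : ℕ) : ℝ) = 2 * h * j + 2 * h := by push_cast; ring
    have e2 : Real.sin (2 * h * j + 2 * h) * Real.cos h - Real.cos (2 * h * j + 2 * h) * Real.sin h =
        Real.sin (2 * h * j) * Real.cos h + Real.cos (2 * h * j) * Real.sin h := by
      rw [← Real.sin_sub, ← Real.sin_add]
      congr 1
      ring
    have e3 : Real.cos (2 * h * j + 2 * h) * Real.cos h + Real.sin (2 * h * j + 2 * h) * Real.sin h =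
        Real.cos (2 * h * j) * Real.cos h - Real.sin (2 * h * j) * Real.sin h := by
      rw [← Real.cos_sub, ← Real.cos_add]
      congr 1
      ring
    rw [Finset.sum_range_succ, Finset.sum_range_succ, mul_add, mul_add, ih1, ih2, e1]
    constructor
    · linarith
    · linarith

theorem vtx_eq {n : ℕ} (u : Fin n → R3) (U : ℕ → R3) (hU : ∀ i : Fin n, u i = U i.val) (k : ℕ)
    (hk : k ≤ n) : vtx (one n) u k = ∑ i ∈ Finset.range k, U i := by
  unfold vtx one
  have h1 : ∀ i : Fin n, (if i.val < k then (1 : ℝ) • u i else 0) =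
      (fun i : ℕ => if i < k then U i else 0) i.val := by
    intro i
    simp only [one_smul, hU i]
  rw [Finset.sum_congr rfl fun i _ => h1 i, Fin.sum_univ_eq_sum_range (fun i : ℕ => if i < k then U i else 0) n,
    ← Finset.sum_filter]
  congr 1
  ext i
  simp only [Finset.mem_filter, Finset.mem_range]
  omega

theorem toV_add (x y : R3) : toV (x + y) = toV x + toV y := rfl

theorem toV_smul (c : ℝ) (x : R3) : toV (c • x) = c • toV x := rfl

theorem toV_inj {x y : R3} (h : toV x = toV y) : x = y := by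
  unfold toV at h
  obtain ⟨h0, h12⟩ := Prod.mk.inj h
  obtain ⟨h1, h2⟩ := Prod.mk.inj h12
  funext i
  fin_cases i
  · exact h0
  · exact h1
  · exact h2

/-- the linear map with columns `f1`, `f2`, `f3` -/
def L (f1 f2 f3 : R3) : V →ₗ[ℝ] V where
  toFun p := toV (p.1 • f1 + p.2.1 • f2 + p.2.2 • f3)
  map_add' p q := by
    rw [← toV_add]
    congr 1
    simp only [Prod.fst_add, Prod.snd_add, add_smul]
    abel
  map_smul' c p := by
    rw [RingHom.id_apply, ← toV_smul]
    congr 1
    simp only [Prod.smul_fst, Prod.smul_snd, smul_eq_mul, smul_add, smul_smul]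

end REG

open REG in
theorem Z_reg_proof (hun : Z_unreg) (hnaf : X_naf) : Z_reg := by
  intro n _ hn u e₁ e₂ k he1 he2 he12 hu hk hN
  -- normalisation of the sign
  obtain ⟨ε, hε, hsin⟩ : ∃ ε : ℝ, ε * ε = 1 ∧ ∀ i : ℕ,
      Real.cos (2 * Real.pi * k * i / n) = Real.cos (2 * Real.pi * i / n) ∧
      Real.sin (2 * Real.pi * k * i / n) = ε * Real.sin (2 * Real.pi * i / n) := by
    have hn0 : (n : ℝ) ≠ 0 := by
      exact_mod_cast (by omega : n ≠ 0)
    rcases hk with ⟨m, hm⟩ | ⟨m, hm⟩
    · refine ⟨1, by norm_num, fun i => ?_⟩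
      have hkr : (k : ℝ) = n * m + 1 := by
        have : k = n * m + 1 := by linarith
        exact_mod_cast this
      have e : 2 * Real.pi * k * i / n = 2 * Real.pi * i / n + ((m * i : ℤ) : ℝ) * (2 * Real.pi) := by
        rw [hkr]
        push_cast
        field_simp
        ring
      rw [e, Real.cos_add_int_mul_two_pi, Real.sin_add_int_mul_two_pi]
      exact ⟨rfl, by ring⟩
    · refine ⟨-1, by norm_num, fun i => ?_⟩
      have hkr : (k : ℝ) = n * m - 1 := by
        have : k = n * m - 1 := by linarith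
        exact_mod_cast this
      have e : 2 * Real.pi * k * i / n = -(2 * Real.pi * i / n) + ((m * i : ℤ) : ℝ) * (2 * Real.pi) := by
        rw [hkr]
        push_cast
        field_simp
        ring
      rw [e, Real.cos_add_int_mul_two_pi, Real.sin_add_int_mul_two_pi, Real.cos_neg, Real.sin_neg]
      exact ⟨rfl, by ring⟩
  have hn0 : (n : ℝ) ≠ 0 := by
    exact_mod_cast (by omega : n ≠ 0)
  set h : ℝ := Real.pi / n with hh
  set s : ℝ := Real.sin h with hs
  set c : ℝ := Real.cos h with hc
  have hspos : 0 < s := by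
    apply Real.sin_pos_of_pos_of_lt_pi
    · have := Real.pi_pos
      have hnp : (0:ℝ) < n := by exact_mod_cast (by omega : 0 < n)
      positivity
    · have hn1 : (1:ℝ) < n := by exact_mod_cast (by omega : 1 < n)
      rw [hh, div_lt_iff₀ (by linarith)]
      nlinarith [Real.pi_pos]
  have hsc : s ^ 2 + c ^ 2 = 1 := Real.sin_sq_add_cos_sq h
  have harg : ∀ i : ℕ, 2 * Real.pi * i / n = 2 * h * i := by
    intro i
    rw [hh]
    ring
  set e3 : R3 := ε • e₂ with he3
  have he33 : e3 ⬝ᵥ e3 = 1 := by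
    rw [he3, smul_dotProduct, dotProduct_smul, he2, smul_eq_mul, smul_eq_mul, mul_one, hε]
  have he13 : e₁ ⬝ᵥ e3 = 0 := by
    rw [he3, dotProduct_smul, he12, smul_zero]
  have he31 : e3 ⬝ᵥ e₁ = 0 := by rw [dotProduct_comm, he13]
  set U : ℕ → R3 := fun i => Real.cos (2 * h * i) • e₁ + Real.sin (2 * h * i) • e3 with hU
  have huU : ∀ i : Fin n, u i = U i.val := by
    intro i
    rw [hu i, hU]
    simp only
    rw [(hsin i.val).1, (hsin i.val).2, harg, he3, smul_smul, mul_comm ε]
  set f0 : R3 := (1 / 2 : ℝ) • e₁ + (c / (2 * s)) • e3 with hf0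
  set f1 : R3 := (-(1 / 2 : ℝ)) • e₁ + (-(c / (2 * s))) • e3 with hf1
  set f2 : R3 := (c / (2 * s)) • e₁ + (-(1 / 2 : ℝ)) • e3 with hf2
  set f3 : R3 := e₁ ⨯₃ e3 with hf3
  have hvtx : ∀ j ≤ n, vtx (one n) u j =
      f0 + (Real.cos (2 * h * j) • f1 + Real.sin (2 * h * j) • f2) := by
    intro j hj
    rw [vtx_eq u U huU j hj, hU, Finset.sum_add_distrib, ← Finset.sum_smul, ← Finset.sum_smul]
    obtain ⟨t1, t2⟩ := trig h j
    rw [← hs, ← hc] at t1 t2
    have g1 : ∑ i ∈ Finset.range j, Real.cos (2 * h * i) =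
        1 / 2 + Real.cos (2 * h * j) * (-(1 / 2 : ℝ)) + Real.sin (2 * h * j) * (c / (2 * s)) := by
      field_simp
      linarith
    have g2 : ∑ i ∈ Finset.range j, Real.sin (2 * h * i) =
        c / (2 * s) + Real.cos (2 * h * j) * (-(c / (2 * s))) + Real.sin (2 * h * j) * (-(1 / 2 : ℝ)) := by
      field_simp
      linarith
    rw [g1, g2, hf0, hf1, hf2]
    module
  -- the linear map is injective
  have hLinj : Function.Injective (L f1 f2 f3) := by
    rw [injective_iff_map_eq_zero]
    rintro ⟨x, y, z⟩ hxyz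
    have h0 : x • f1 + y • f2 + z • f3 = 0 := by
      apply toV_inj
      exact hxyz
    have d31 : e₁ ⬝ᵥ f3 = 0 := dot_self_cross _ _
    have d33 : e3 ⬝ᵥ f3 = 0 := dot_cross_self _ _
    have d13 : f3 ⬝ᵥ e₁ = 0 := by rw [dotProduct_comm, d31]
    have d33' : f3 ⬝ᵥ e3 = 0 := by rw [dotProduct_comm, d33]
    have dff : f3 ⬝ᵥ f3 = 1 := by
      rw [hf3, cross_dot_cross, he1, he33, he13, he31]
      ring
    have q1 := congrArg (fun w : R3 => e₁ ⬝ᵥ w) h0
    have q2 := congrArg (fun w : R3 => e3 ⬝ᵥ w) h0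
    have q3 := congrArg (fun w : R3 => f3 ⬝ᵥ w) h0
    simp only [hf1, hf2, dotProduct_add, dotProduct_smul, dotProduct_zero, he1, he33, he13, he31, d31, d33,
      d13, d33', dff, smul_eq_mul, mul_zero, mul_one, add_zero, zero_add] at q1 q2 q3
    have r1 : -s * x + c * y = 0 := by
      have := congrArg (fun w : ℝ => 2 * s * w) q1
      simp only [mul_zero] at this
      field_simp at this
      linarith
    have r2 : -c * x - s * y = 0 := by
      have := congrArg (fun w : ℝ => 2 * s * w) q2
      simp only [mul_zero] at this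
      field_simp at this
      linarith
    have hx : x = 0 := by
      have : x * (s ^ 2 + c ^ 2) = 0 := by linear_combination (-s) * r1 + (-c) * r2
      rwa [hsc, mul_one] at this
    have hy : y = 0 := by
      have : y * (s ^ 2 + c ^ 2) = 0 := by linear_combination c * r1 + (-s) * r2
      rwa [hsc, mul_one] at this
    rw [hx, hy, q3]
    rfl
  set E : V ≃L[ℝ] V := (LinearEquiv.ofInjectiveEndo (L f1 f2 f3) hLinj).toContinuousLinearEquiv with hE
  have hEapp : ∀ p, E p = L f1 f2 f3 p := fun p => rfl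
  set Φ : V ≃ₜ V := E.toHomeomorph.trans (Homeomorph.addLeft (toV f0)) with hΦ
  have hΦapp : ∀ p, Φ p = toV f0 + L f1 f2 f3 p := fun p => rfl
  have hlerp : ∀ p q w, Φ (lerp p q w) = lerp (Φ p) (Φ q) w := by
    intro p q w
    rw [hΦapp, hΦapp, hΦapp]
    unfold lerp
    rw [map_add, map_smul, map_smul]
    module
  have hlist : (Rn n).map Φ = vlist u := by
    unfold Rn vlist
    rw [List.map_ofFn]
    congr 1
    funext j
    simp only [Function.comp]
    rw [hΦapp, hvtx j.val j.isLt.le, harg]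
    show toV f0 + toV (Real.cos (2 * h * j.val) • f1 + Real.sin (2 * h * j.val) • f2 + (0:ℝ) • f3) = _
    rw [zero_smul, add_zero, ← toV_add]
  have himg : Φ '' ps (Rn n) = ps (vlist u) := by
    rw [← hlist]
    exact ps_map Φ hlerp (Rn n)
  have himg' : Φ.symm '' ps (vlist u) = ps (Rn n) := by
    rw [← himg, ← Set.image_comp]
    simp
  exact hun n hn (hnaf _ _ Φ.symm himg' hN)

end CP
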