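import Pool.Agent.H246CP.Stubs

/-!
# The region for a step around a corner
-/

set_option autoImplicit false

namespace CP

open Matrix KN Filter Topology

namespace REGC

/-- one-dimensional part: an integer in an open interval of length two -/
theorem core (A B C x y z : ℤ) (s a b : ℝ) (h0 : 0 ≤ s) (h1 : s < 1) (ha : 0 < a) (ha2 : a < 2)
    (hb : -1 < b) (hb1 : b < 1) (ea : (A : ℝ) + s * x = a) (eb : (B : ℝ) + s * y = b)
    (ec : (C : ℝ) + s * z = 0)
    (hx : (x = 1 ∨ x = -1) ∧ y = 0 ∧ z = 0 ∨ x = 0 ∧ (y = 1 ∨ y = -1) ∧ z = 0 ∨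
      x = 0 ∧ y = 0 ∧ (z = 1 ∨ z = -1)) :
    (A = 1 ∧ B = 0 ∧ C = 0) ∨ (A + x = 1 ∧ B + y = 0 ∧ C + z = 0) := by
  rcases hx with ⟨h | h, hy, hz⟩ | ⟨hx, h | h, hz⟩ | ⟨hx, hy, h | h⟩
  · subst h hy hz
    push_cast at ea eb ec
    have k1 : (C : ℝ) = 0 := by linarith
    have k1' : C = 0 := by exact_mod_cast k1
    have k2 : (-1 : ℝ) < B := by linarith
    have k3 : (B : ℝ) < 1 := by linarith
    have k2' : (-1 : ℤ) < B := by exact_mod_cast k2
    have k3' : B < 1 := by exact_mod_cast k3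
    have k4 : (-1 : ℝ) < A := by linarith
    have k5 : (A : ℝ) < 2 := by linarith
    have k4' : (-1 : ℤ) < A := by exact_mod_cast k4
    have k5' : A < 2 := by exact_mod_cast k5
    omega
  · subst h hy hz
    push_cast at ea eb ec
    have k1 : (C : ℝ) = 0 := by linarith
    have k1' : C = 0 := by exact_mod_cast k1
    have k2 : (-1 : ℝ) < B := by linarith
    have k3 : (B : ℝ) < 1 := by linarith
    have k2' : (-1 : ℤ) < B := by exact_mod_cast k2
    have k3' : B < 1 := by exact_mod_cast k3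
    have k4 : (0 : ℝ) < A := by linarith
    have k5 : (A : ℝ) < 3 := by linarith
    have k4' : (0 : ℤ) < A := by exact_mod_cast k4
    have k5' : A < 3 := by exact_mod_cast k5
    omega
  · subst hx h hz
    push_cast at ea eb ec
    have k1 : (C : ℝ) = 0 := by linarith
    have k1' : C = 0 := by exact_mod_cast k1
    have k2 : (-2 : ℝ) < B := by linarith
    have k3 : (B : ℝ) < 1 := by linarith
    have k2' : (-2 : ℤ) < B := by exact_mod_cast k2
    have k3' : B < 1 := by exact_mod_cast k3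
    have k4 : (0 : ℝ) < A := by linarith
    have k5 : (A : ℝ) < 2 := by linarith
    have k4' : (0 : ℤ) < A := by exact_mod_cast k4
    have k5' : A < 2 := by exact_mod_cast k5
    omega
  · subst hx h hz
    push_cast at ea eb ec
    have k1 : (C : ℝ) = 0 := by linarith
    have k1' : C = 0 := by exact_mod_cast k1
    have k2 : (-1 : ℝ) < B := by linarith
    have k3 : (B : ℝ) < 2 := by linarith
    have k2' : (-1 : ℤ) < B := by exact_mod_cast k2
    have k3' : B < 2 := by exact_mod_cast k3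
    have k4 : (0 : ℝ) < A := by linarith
    have k5 : (A : ℝ) < 2 := by linarith
    have k4' : (0 : ℤ) < A := by exact_mod_cast k4
    have k5' : A < 2 := by exact_mod_cast k5
    omega
  · subst hx hy h
    push_cast at ea eb ec
    have k1 : (-1 : ℝ) < C := by linarith
    have k1' : (-1 : ℤ) < C := by exact_mod_cast k1
    have k6 : (C : ℝ) < 1 := by linarith
    have k6' : C < 1 := by exact_mod_cast k6
    have k2 : (-1 : ℝ) < B := by linarith
    have k3 : (B : ℝ) < 1 := by linarith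
    have k2' : (-1 : ℤ) < B := by exact_mod_cast k2
    have k3' : B < 1 := by exact_mod_cast k3
    have k4 : (0 : ℝ) < A := by linarith
    have k5 : (A : ℝ) < 2 := by linarith
    have k4' : (0 : ℤ) < A := by exact_mod_cast k4
    have k5' : A < 2 := by exact_mod_cast k5
    omega
  · subst hx hy h
    push_cast at ea eb ec
    have k1 : (-1 : ℝ) < C := by linarith
    have k1' : (-1 : ℤ) < C := by exact_mod_cast k1
    have k6 : (C : ℝ) < 1 := by linarith
    have k6' : C < 1 := by exact_mod_cast k6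
    have k2 : (-1 : ℝ) < B := by linarith
    have k3 : (B : ℝ) < 1 := by linarith
    have k2' : (-1 : ℤ) < B := by exact_mod_cast k2
    have k3' : B < 1 := by exact_mod_cast k3
    have k4 : (0 : ℝ) < A := by linarith
    have k5 : (A : ℝ) < 2 := by linarith
    have k4' : (0 : ℤ) < A := by exact_mod_cast k4
    have k5' : A < 2 := by exact_mod_cast k5
    omega

/-- lattice part -/
theorem lat (d f g : Dir) (P : Z3) (h : perp d f) (s a b : ℝ) (h0 : 0 ≤ s) (h1 : s < 1)
    (ha : 0 < a) (ha2 : a < 2) (hb : -1 < b) (hb1 : b < 1)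
    (e : lerp (emb P) (emb (P + vec g)) s = a • ev d + b • ev f) :
    P = vec d ∨ P + vec g = vec d := by
  obtain ⟨p, q, r⟩ := P
  have e1 : (p : ℝ) + s * ((vec g).1 : ℝ) = a * ((vec d).1 : ℝ) + b * ((vec f).1 : ℝ) := by
    have := congrArg (fun v : V => v.1) e
    simp only [lerp, emb, ev, Prod.fst_add, Prod.smul_fst, smul_eq_mul, Int.cast_add] at this
    linarith
  have e2 : (q : ℝ) + s * ((vec g).2.1 : ℝ) = a * ((vec d).2.1 : ℝ) + b * ((vec f).2.1 : ℝ) := by
    have := congrArg (fun v : V => v.2.1) e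
    simp only [lerp, emb, ev, Prod.fst_add, Prod.snd_add, Prod.smul_fst, Prod.smul_snd,
      smul_eq_mul, Int.cast_add] at this
    linarith
  have e3 : (r : ℝ) + s * ((vec g).2.2 : ℝ) = a * ((vec d).2.2 : ℝ) + b * ((vec f).2.2 : ℝ) := by
    have := congrArg (fun v : V => v.2.2) e
    simp only [lerp, emb, ev, Prod.snd_add, Prod.smul_snd,
      smul_eq_mul, Int.cast_add] at this
    linarith
  clear e
  have hg : ((vec g).1 = 1 ∨ (vec g).1 = -1) ∧ (vec g).2.1 = 0 ∧ (vec g).2.2 = 0 ∨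
      (vec g).1 = 0 ∧ ((vec g).2.1 = 1 ∨ (vec g).2.1 = -1) ∧ (vec g).2.2 = 0 ∨
      (vec g).1 = 0 ∧ (vec g).2.1 = 0 ∧ ((vec g).2.2 = 1 ∨ (vec g).2.2 = -1) := by
    cases g <;> simp [KN.vec]
  generalize vec g = v at *
  obtain ⟨x, y, z⟩ := v
  simp only at e1 e2 e3 hg
  have key : ∀ (d1 d2 d3 f1 f2 f3 : ℤ), vec d = (d1, d2, d3) → vec f = (f1, f2, f3) →
      d1 * d1 + d2 * d2 + d3 * d3 = 1 → f1 * f1 + f2 * f2 + f3 * f3 = 1 →
      d1 * f1 + d2 * f2 + d3 * f3 = 0 →
      ((x * d1 + y * d2 + z * d3 = 1 ∨ x * d1 + y * d2 + z * d3 = -1) ∧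
        x * f1 + y * f2 + z * f3 = 0 ∧
        x * (d2 * f3 - d3 * f2) + y * (d3 * f1 - d1 * f3) + z * (d1 * f2 - d2 * f1) = 0 ∨
      x * d1 + y * d2 + z * d3 = 0 ∧
        (x * f1 + y * f2 + z * f3 = 1 ∨ x * f1 + y * f2 + z * f3 = -1) ∧
        x * (d2 * f3 - d3 * f2) + y * (d3 * f1 - d1 * f3) + z * (d1 * f2 - d2 * f1) = 0 ∨
      x * d1 + y * d2 + z * d3 = 0 ∧ x * f1 + y * f2 + z * f3 = 0 ∧
        (x * (d2 * f3 - d3 * f2) + y * (d3 * f1 - d1 * f3) + z * (d1 * f2 - d2 * f1) = 1 ∨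
        x * (d2 * f3 - d3 * f2) + y * (d3 * f1 - d1 * f3) + z * (d1 * f2 - d2 * f1) = -1)) →
      (p * d1 + q * d2 + r * d3 = 1 ∧ p * f1 + q * f2 + r * f3 = 0 ∧
        p * (d2 * f3 - d3 * f2) + q * (d3 * f1 - d1 * f3) + r * (d1 * f2 - d2 * f1) = 0) ∨
      (p * d1 + q * d2 + r * d3 + (x * d1 + y * d2 + z * d3) = 1 ∧
        p * f1 + q * f2 + r * f3 + (x * f1 + y * f2 + z * f3) = 0 ∧
        p * (d2 * f3 - d3 * f2) + q * (d3 * f1 - d1 * f3) + r * (d1 * f2 - d2 * f1) +
        (x * (d2 * f3 - d3 * f2) + y * (d3 * f1 - d1 * f3) + z * (d1 * f2 - d2 * f1)) = 0) := by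
    intro d1 d2 d3 f1 f2 f3 hd hf k1 k2 k3 hx
    rw [hd, hf] at e1 e2 e3
    simp only at e1 e2 e3
    have k1' : (d1 : ℝ) * d1 + d2 * d2 + d3 * d3 = 1 := by exact_mod_cast k1
    have k2' : (f1 : ℝ) * f1 + f2 * f2 + f3 * f3 = 1 := by exact_mod_cast k2
    have k3' : (d1 : ℝ) * f1 + d2 * f2 + d3 * f3 = 0 := by exact_mod_cast k3
    refine core _ _ _ _ _ _ s a b h0 h1 ha ha2 hb hb1 ?_ ?_ ?_ hx
    · push_cast
      linear_combination (d1 : ℝ) * e1 + (d2 : ℝ) * e2 + (d3 : ℝ) * e3 + a * k1' + b * k3'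
    · push_cast
      linear_combination (f1 : ℝ) * e1 + (f2 : ℝ) * e2 + (f3 : ℝ) * e3 + b * k2' + a * k3'
    · push_cast
      linear_combination ((d2 : ℝ) * f3 - d3 * f2) * e1 + ((d3 : ℝ) * f1 - d1 * f3) * e2 +
        ((d1 : ℝ) * f2 - d2 * f1) * e3
  clear e1 e2 e3
  cases d <;> cases f <;> first
    | (exact absurd h (by decide))
    | (have k := key _ _ _ _ _ _ rfl rfl (by norm_num) (by norm_num) (by norm_num) (by omega)
       simp only [KN.vec, Prod.mk_add_mk, Prod.mk.injEq]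
       omega)

theorem mem_suffix (l1 l2 : List Dir) : pos l2 ∈ path (l1 ++ l2) := by
  rw [path_append]
  exact List.mem_append_right _ (pos_mem_path l2)

/-- the vertices of a closed word -/
theorem far (d f g : Dir) (S1 S2 : List Dir) (h : SAP (d :: f :: (S1 ++ g :: S2))) :
    pos (d :: f :: S1) ≠ vec d ∧ pos (d :: f :: S1) + vec g ≠ vec d := by
  obtain ⟨-, h1, h2⟩ := h
  simp only [pos, pos_append] at h1
  simp only [path, List.tail_cons, List.nodup_cons] at h2
  have m1 : pos (g :: S2) ∈ path (S1 ++ g :: S2) := mem_suffix S1 (g :: S2)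
  have m2 : pos S2 ∈ path (S1 ++ g :: S2) := by
    have := mem_suffix (S1 ++ [g]) S2
    simpa using this
  simp only [pos, pos_append] at m1 h2 ⊢
  refine ⟨fun hc => h2.1 ?_, fun hc => h2.1 ?_⟩
  · have : pos S1 + (pos S2 + vec g) + vec f = pos S2 + vec g := by
      have e : pos S1 + vec f = 0 := by
        have := hc
        rwa [add_eq_right] at this
      calc pos S1 + (pos S2 + vec g) + vec f = (pos S1 + vec f) + (pos S2 + vec g) := by abel
        _ = _ := by rw [e, zero_add]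
    rw [this]; exact m1
  · have : pos S1 + (pos S2 + vec g) + vec f = pos S2 := by
      have e : pos S1 + vec f + vec g = 0 := by
        have e' : pos S1 + vec f + vec g + vec d = vec d :=
          (by abel : pos S1 + vec f + vec g + vec d = pos S1 + vec f + vec d + vec g).trans hc
        rwa [add_eq_right] at e'
      calc pos S1 + (pos S2 + vec g) + vec f = (pos S1 + vec f + vec g) + pos S2 := by abel
        _ = _ := by rw [e, zero_add]
    rw [this]; exact m2

end REGC

theorem Z_regC_proof : Z_regC := by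
  intro d f S hp hS S1 g S2 e s h0 h1
  subst e
  rintro ⟨a, b, ha, ha2, hb, hb1, -, hx⟩
  obtain ⟨k1, k2⟩ := REGC.far d f g S1 S2 hS
  rcases REGC.lat d f g _ hp s a b h0 h1 ha ha2 hb hb1 hx with h | h
  · exact k1 h
  · exact k2 h

end CP
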