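import Pool.Agent.H246CP.Stubs
import Pool.Agent.H246KN.Basic

set_option autoImplicit false

namespace CP.REGR

open KN Filter Topology

/-- integral scalar product -/
def dZ (P Q : Z3) : ℤ := P.1 * Q.1 + P.2.1 * Q.2.1 + P.2.2 * Q.2.2

theorem dV_emb (P Q : Z3) : dV (emb P) (emb Q) = (dZ P Q : ℝ) := by
  simp [dV, emb, dZ]

theorem dV_add (x y w : V) : dV (x + y) w = dV x w + dV y w := by
  simp only [dV, Prod.fst_add, Prod.snd_add]
  ring

theorem dV_smul (c : ℝ) (x w : V) : dV (c • x) w = c * dV x w := by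
  simp only [dV, Prod.smul_fst, Prod.smul_snd, smul_eq_mul]
  ring

theorem lerp_emb (P Q : Z3) (s : ℝ) : lerp (emb P) (emb (P + Q)) s = emb P + s • emb Q := by
  simp only [lerp, emb, Prod.fst_add, Prod.snd_add, Prod.smul_mk, Prod.mk_add_mk, smul_eq_mul,
    Int.cast_add]
  refine Prod.ext ?_ (Prod.ext ?_ ?_)
  · dsimp only
    ring
  · dsimp only
    ring
  · dsimp only
    ring

theorem dZ_vec (g d : Dir) : (g = d ∧ dZ (vec g) (vec d) = 1) ∨
    (g = neg d ∧ dZ (vec g) (vec d) = -1) ∨ dZ (vec g) (vec d) = 0 := by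
  cases g <;> cases d <;> simp [dZ, vec, neg]

theorem dZ_self (d : Dir) : dZ (vec d) (vec d) = 1 := by
  cases d <;> simp [dZ, vec]

theorem emb_neg_vec (d : Dir) : emb (vec (neg d)) = - emb (vec d) := by
  cases d <;> simp [vec, neg, emb]

theorem zero_of_lt {x y w : ℝ} {P : Z3} (hx : x = P.1) (hy : y = P.2.1) (hw : w = P.2.2)
    (h : x * x + y * y + w * w < 1) : P = 0 := by
  subst hx hy hw
  have h1 : P.1 * P.1 + P.2.1 * P.2.1 + P.2.2 * P.2.2 < 1 := by exact_mod_cast h
  have e1 : P.1 = 0 := by nlinarith [mul_self_nonneg P.1, mul_self_nonneg P.2.1, mul_self_nonneg P.2.2]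
  have e2 : P.2.1 = 0 := by nlinarith [mul_self_nonneg P.1, mul_self_nonneg P.2.1, mul_self_nonneg P.2.2]
  have e3 : P.2.2 = 0 := by nlinarith [mul_self_nonneg P.1, mul_self_nonneg P.2.1, mul_self_nonneg P.2.2]
  exact Prod.ext e1 (Prod.ext e2 e3)

theorem core {d g : Dir} {P : Z3} {s a : ℝ} {z : V} (hs0 : 0 ≤ s) (hs1 : s < 1) (ha0 : 0 < a)
    (ha1 : a < 1) (hz : dV z (ev d) = 0) (hzz : dV z z < 1)
    (hx : lerp (emb P) (emb (P + vec g)) s = a • ev d + z) :
    (g = d ∧ P = 0) ∨ (g = neg d ∧ P = vec d) := by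
  rw [lerp_emb] at hx
  have h1 := congrArg (fun v => dV v (ev d)) hx
  rw [dV_add, dV_smul, dV_add, dV_smul, hz, add_zero] at h1
  unfold ev at h1
  rw [dV_emb, dV_emb, dV_emb, dZ_self, Int.cast_one, mul_one] at h1
  set m : ℤ := dZ P (vec d) with hm
  rcases dZ_vec g d with ⟨hg, hc⟩ | ⟨hg, hc⟩ | hc
  · left
    refine ⟨hg, ?_⟩
    rw [hc, Int.cast_one, mul_one] at h1
    have m1 : -1 < m := by
      have : (-1 : ℝ) < m := by linarith
      exact_mod_cast this
    have m2 : m < 1 := by
      have : (m : ℝ) < 1 := by linarith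
      exact_mod_cast this
    have m0 : m = 0 := by omega
    rw [m0, Int.cast_zero, zero_add] at h1
    subst hg
    have hzP : z = emb P := by
      have h2 : z = (emb P + s • emb (vec g)) - a • ev g := by rw [hx]; abel
      rw [h2, ← h1]
      unfold ev
      abel
    rw [hzP] at hzz
    exact zero_of_lt rfl rfl rfl hzz
  · right
    refine ⟨hg, ?_⟩
    rw [hc, Int.cast_neg, Int.cast_one] at h1
    have m1 : 0 < m := by
      have : (0 : ℝ) < m := by linarith
      exact_mod_cast this
    have m2 : m < 2 := by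
      have : (m : ℝ) < 2 := by linarith
      exact_mod_cast this
    have m0 : m = 1 := by omega
    rw [m0, Int.cast_one] at h1
    have hzP : z = emb P - emb (vec d) := by
      have h2 : z = (emb P + s • emb (vec g)) - a • ev d := by rw [hx]; abel
      rw [h2, hg, emb_neg_vec, ← h1]
      unfold ev
      rw [smul_neg, add_smul, one_smul, mul_neg_one, neg_smul]
      abel
    rw [hzP] at hzz
    have h3 : P - vec d = 0 :=
      zero_of_lt (P := P - vec d) (x := (emb P - emb (vec d)).1) (y := (emb P - emb (vec d)).2.1)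
        (w := (emb P - emb (vec d)).2.2) (by simp [emb]) (by simp [emb]) (by simp [emb]) hzz
    exact sub_eq_zero.1 h3
  · exfalso
    rw [hc, Int.cast_zero, mul_zero, add_zero] at h1
    have m1 : 0 < m := by
      have : (0 : ℝ) < m := by linarith
      exact_mod_cast this
    have m2 : m < 1 := by
      have : (m : ℝ) < 1 := by linarith
      exact_mod_cast this
    omega

theorem inj {l : List Dir} (h : (path l).Nodup) {i j : ℕ} (hi : i ≤ l.length) (hj : j ≤ l.length)
    (he : pos (l.drop i) = pos (l.drop j)) : i = j := by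
  have hi' : i < (path l).length := by rw [path_length]; omega
  have hj' : j < (path l).length := by rw [path_length]; omega
  rw [← path_getElem l i hi', ← path_getElem l j hj'] at he
  exact (List.Nodup.getElem_inj_iff h).1 he

end CP.REGR

namespace CP

open KN Filter Topology

theorem Z_regR_proof : Z_regR := by
  rintro d S ⟨h4, h0, hnd⟩ S1 g S2 hS s hs0 hs1 ⟨a, z, ha0, ha1, hz, hzz, hx⟩
  have hnd' : (path S).Nodup := hnd
  have hlen : S.length = S1.length + (S2.length + 1) := by
    rw [hS, List.length_append, List.length_cons]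
  have hpS : pos S + vec d = 0 := h0
  have hPd : pos (d :: S1) = pos S1 + vec d := rfl
  have hsplit : pos S = pos S1 + (pos S2 + vec g) := by
    rw [hS, pos_append]
    rfl
  have hd1 : S.drop S1.length = g :: S2 := by
    rw [hS, List.drop_left]
  have hd2 : S.drop (S1.length + 1) = S2 := by
    rw [← List.drop_drop, hd1]
    rfl
  have hd3 : S.drop S.length = [] := List.drop_length
  rcases REGR.core hs0 hs1 ha0 ha1 hz hzz hx with ⟨hg, hP⟩ | ⟨hg, hP⟩
  · rw [hPd] at hP
    have e1 : pos (S.drop S1.length) = pos (S.drop S.length) := by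
      rw [hd1, hd3]
      change pos S2 + vec g = 0
      have : pos S1 + (pos S2 + vec g) + vec d = 0 := by rw [← hsplit]; exact hpS
      have h2 : pos S2 + vec g = (pos S1 + (pos S2 + vec g) + vec d) - (pos S1 + vec d) := by abel
      rw [h2, this, hP, sub_zero]
    have := REGR.inj hnd' (by omega) le_rfl e1
    omega
  · rw [hPd] at hP
    have hS1 : pos S1 = 0 := by
      have h2 : pos S1 = (pos S1 + vec d) - vec d := by abel
      rw [h2, hP, sub_self]
    have hgd : vec g = - vec d := by rw [hg, vec_neg]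
    have hS2 : pos S2 = 0 := by
      have h3 : pos S1 + (pos S2 + vec g) + vec d = 0 := by rw [← hsplit]; exact hpS
      rw [hS1, hgd, zero_add] at h3
      have h4 : pos S2 = pos S2 + -vec d + vec d := by abel
      rw [h4, h3]
    have e1 : pos (S.drop (S1.length + 1)) = pos (S.drop S.length) := by
      rw [hd2, hd3, hS2]
      rfl
    have i1 := REGR.inj hnd' (by omega) le_rfl e1
    have e2 : pos (S.drop S1.length) = pos (S.drop 0) := by
      rw [hd1, List.drop_zero, hsplit, hS1, zero_add]
      rfl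
    have i2 := REGR.inj hnd' (by omega) (Nat.zero_le _) e2
    rw [List.length_cons] at h4
    omega

end CP
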