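import Pool.Agent.H246CP.Stubs
import Pool.Agent.H246KN.Basic

/-!
# Rotations do not change the knot
-/

set_option autoImplicit false

namespace CP

open Matrix KN Filter Topology

namespace ROTK

/-- back from the other model -/
def ofV (x : V) : R3 := ![x.1, x.2.1, x.2.2]

theorem toV_ofV (x : V) : toV (ofV x) = x := rfl

theorem ofV_toV (x : R3) : ofV (toV x) = x := by
  funext i
  fin_cases i <;> rfl

/-- the linear map of a matrix -/
def B (A : Matrix (Fin 3) (Fin 3) ℝ) (x : V) : V := toV (A *ᵥ ofV x)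

theorem B_comp (A A' : Matrix (Fin 3) (Fin 3) ℝ) (h : A * A' = 1) (x : V) : B A (B A' x) = x := by
  unfold B
  rw [ofV_toV, mulVec_mulVec, h, one_mulVec, toV_ofV]

theorem B_formula (A : Matrix (Fin 3) (Fin 3) ℝ) (x : V) :
    B A x = (A 0 0 * x.1 + A 0 1 * x.2.1 + A 0 2 * x.2.2,
      A 1 0 * x.1 + A 1 1 * x.2.1 + A 1 2 * x.2.2,
      A 2 0 * x.1 + A 2 1 * x.2.1 + A 2 2 * x.2.2) := by
  unfold B toV ofV
  simp [mulVec, dotProduct, Fin.sum_univ_three]

theorem B_cont (A : Matrix (Fin 3) (Fin 3) ℝ) : Continuous (B A) := by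
  have : B A = fun x : V => (A 0 0 * x.1 + A 0 1 * x.2.1 + A 0 2 * x.2.2,
      A 1 0 * x.1 + A 1 1 * x.2.1 + A 1 2 * x.2.2,
      A 2 0 * x.1 + A 2 1 * x.2.1 + A 2 2 * x.2.2) := funext (B_formula A)
  rw [this]
  fun_prop

/-- the homeomorphism of an invertible matrix -/
def homeo (A A' : Matrix (Fin 3) (Fin 3) ℝ) (h : A * A' = 1) (h' : A' * A = 1) : V ≃ₜ V where
  toFun := B A
  invFun := B A'
  left_inv x := B_comp A' A h' x
  right_inv x := B_comp A A' h x
  continuous_toFun := B_cont A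
  continuous_invFun := B_cont A'

theorem B_lerp (A : Matrix (Fin 3) (Fin 3) ℝ) (p q : V) (u : ℝ) :
    B A (lerp p q u) = lerp (B A p) (B A q) u := by
  simp only [B_formula, lerp, Prod.smul_mk, Prod.mk_add_mk, smul_eq_mul, Prod.fst_add,
    Prod.snd_add, Prod.smul_fst, Prod.smul_snd]
  refine Prod.ext ?_ (Prod.ext ?_ ?_) <;> simp only <;> ring

theorem ps_map (f : V → V) (hf : ∀ p q u, f (lerp p q u) = lerp (f p) (f q) u) (l : List V) :
    f '' ps l = ps (l.map f) := by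
  ext x
  constructor
  · rintro ⟨y, ⟨e, he, u, h0, h1, rfl⟩, rfl⟩
    refine ⟨(f e.1, f e.2), ?_, u, h0, h1, hf _ _ _⟩
    rw [edges_map]
    exact List.mem_map.2 ⟨e, he, rfl⟩
  · rintro ⟨e, he, u, h0, h1, rfl⟩
    rw [edges_map] at he
    obtain ⟨e', he', rfl⟩ := List.mem_map.1 he
    exact ⟨_, ⟨e', he', u, h0, h1, rfl⟩, hf _ _ _⟩

theorem vtx_rot {n : ℕ} (ℓ : Fin n → ℝ) (A : Matrix (Fin 3) (Fin 3) ℝ) (u u' : Fin n → R3)
    (h : ∀ i, u' i = A *ᵥ u i) (k : ℕ) : vtx ℓ u' k = A *ᵥ vtx ℓ u k := by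
  unfold vtx
  rw [mulVec_sum]
  apply Finset.sum_congr rfl
  intro i _
  split_ifs
  · rw [h, mulVec_smul]
  · rw [mulVec_zero]

end ROTK

open ROTK

theorem Z_rotk_proof (hX : X_naf) : Z_rotk := by
  rintro n u u' ⟨A, hA, h⟩ hN
  obtain ⟨h1, h2⟩ := mem_specialOrthogonalGroup_iff.mp hA
  have e1 : A * star A = 1 := mem_unitaryGroup_iff.mp h1
  have e2 : star A * A = 1 := mem_unitaryGroup_iff'.mp h1
  refine hX (vlist u) (vlist u') (homeo A (star A) e1 e2) ?_ hN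
  show B A '' ps (vlist u) = ps (vlist u')
  rw [ps_map (B A) (B_lerp A)]
  congr 1
  unfold vlist
  rw [List.map_ofFn]
  congr 1
  funext k
  show B A (toV _) = toV _
  unfold B
  rw [ofV_toV, vtx_rot (one n) A u u' h]

end CP
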