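import Pool.Agent.H246CP.Stubs

/-!
# Project CP, task SHIF: the shift of the sides (helper879)
-/

set_option autoImplicit false

namespace CP

open Matrix KN Filter Topology

namespace SHIF

variable {n : ℕ} [NeZero n]

theorem val_add_one (i : Fin n) : (i + 1).val = (i.val + 1) % n := by
  rw [Fin.val_add, Fin.val_one', Nat.add_mod_mod]

omit [NeZero n] in
theorem vtx_zero (u : Fin n → R3) : vtx (one n) u 0 = 0 := by simp [vtx]

omit [NeZero n] in
theorem vtx_succ (u : Fin n → R3) (i : Fin n) :
    vtx (one n) u (i.val + 1) = vtx (one n) u i.val + u i := by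
  unfold vtx one
  simp only [one_smul]
  have h0 : ∀ j : Fin n, (if j.val < i.val + 1 then u j else 0) =
      (if j.val < i.val then u j else 0) + (if j = i then u j else 0) := by
    intro j
    by_cases h : j = i
    · subst h
      simp
    · have h1 : j.val ≠ i.val := fun h' => h (Fin.ext h')
      by_cases h2 : j.val < i.val
      · have h3 : j.val < i.val + 1 := by omega
        rw [if_pos h2, if_pos h3, if_neg h, add_zero]
      · have h3 : ¬ j.val < i.val + 1 := by omega
        rw [if_neg h2, if_neg h3, if_neg h, add_zero]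
  rw [Finset.sum_congr rfl (fun j _ => h0 j), Finset.sum_add_distrib]
  congr 1
  rw [Finset.sum_ite_eq' Finset.univ i u]
  simp

omit [NeZero n] in
theorem vtx_n (u : Fin n → R3) (hu : ∑ i, u i = 0) : vtx (one n) u n = 0 := by
  unfold vtx one
  simp only [one_smul]
  rw [← hu]
  exact Finset.sum_congr rfl fun i _ => if_pos i.2

theorem vtx_next (u : Fin n → R3) (hu : ∑ i, u i = 0) (i : Fin n) :
    vtx (one n) u (i.val + 1) = vtx (one n) u (i + 1).val := by
  rw [val_add_one]
  rcases Nat.lt_or_ge (i.val + 1) n with h | h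
  · rw [Nat.mod_eq_of_lt h]
  · have h1 : i.val + 1 = n := le_antisymm i.2 h
    rw [h1, Nat.mod_self, vtx_n u hu, vtx_zero]

theorem ofNat_succ (k : ℕ) : Fin.ofNat n (k + 1) = Fin.ofNat n k + 1 := by
  apply Fin.ext
  rw [val_add_one, Fin.val_ofNat, Fin.val_ofNat, Nat.mod_add_mod]

theorem ofNat_zero' : Fin.ofNat n 0 = 0 := by
  apply Fin.ext
  rw [Fin.val_ofNat, Nat.zero_mod, Fin.val_zero]

theorem ofNat_val (i : Fin n) : Fin.ofNat n i.val = i := by
  apply Fin.ext
  rw [Fin.val_ofNat, Nat.mod_eq_of_lt i.2]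

theorem vtx_shift (u : Fin n → R3) (hu : ∑ i, u i = 0) (k : ℕ) (hk : k ≤ n) :
    vtx (one n) (fun i => u (i + 1)) k = vtx (one n) u (Fin.ofNat n k + 1).val - u 0 := by
  induction k with
  | zero =>
    rw [vtx_zero]
    have h := vtx_next u hu 0
    have h1 := vtx_succ u 0
    rw [Fin.val_zero, vtx_zero] at h1
    rw [Fin.val_zero] at h
    rw [ofNat_zero', ← h]
    rw [zero_add] at h1 ⊢
    rw [h1]
    simp
  | succ k ih =>
    have hk' : k < n := hk
    have h1 := vtx_succ (fun i => u (i + 1)) ⟨k, hk'⟩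
    simp only at h1
    rw [h1, ih hk'.le]
    have hc : (⟨k, hk'⟩ : Fin n) = Fin.ofNat n k := by
      apply Fin.ext
      rw [Fin.val_ofNat, Nat.mod_eq_of_lt hk']
    rw [hc]
    have h2 := vtx_next u hu (Fin.ofNat n k + 1)
    have h3 := vtx_succ u (Fin.ofNat n k + 1)
    rw [h2] at h3
    rw [ofNat_succ, h3]
    abel

theorem sum_shift (u : Fin n → R3) (hu : ∑ i, u i = 0) : ∑ i : Fin n, u (i + 1) = 0 :=
  (Equiv.sum_comp (Equiv.addRight (1 : Fin n)) u).trans hu

theorem vtx_shift' (u : Fin n → R3) (hu : ∑ i, u i = 0) (i : Fin n) :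
    vtx (one n) (fun i => u (i + 1)) i.val = vtx (one n) u (i + 1).val - u 0 := by
  rw [vtx_shift u hu i.val i.2.le, ofNat_val]

theorem mem_side (u : Fin n → R3) (hu : ∑ i, u i = 0) (i : Fin n) (x : R3)
    (hx : x ∈ side (one n) u (i + 1)) : x - u 0 ∈ side (one n) (fun i => u (i + 1)) i := by
  unfold side at hx ⊢
  rw [vtx_next _ (sum_shift u hu), vtx_shift' u hu, vtx_shift' u hu, ← vtx_next u hu (i + 1)]
  rw [← mem_segment_translate ℝ (-(u 0))] at hx
  simpa only [neg_add_eq_sub] using hx

theorem selfInt_shift (u : Fin n → R3) (hu : ∑ i, u i = 0) (h : SelfInt (one n) u) :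
    SelfInt (one n) (fun i => u (i + 1)) := by
  rcases h with ⟨i, j, h1, h2, h3, x, hx⟩ | ⟨i, x, hx, h1⟩
  · left
    refine ⟨i - 1, j - 1, ?_, ?_, ?_, x - u 0, ?_, ?_⟩
    · intro h
      exact h1 (by rwa [sub_left_inj] at h)
    · intro h
      apply h2
      rw [sub_add_cancel] at h
      rw [← h, sub_add_cancel]
    · intro h
      apply h3
      rw [sub_add_cancel] at h
      rw [← h, sub_add_cancel]
    · exact mem_side u hu (i - 1) x (by rw [sub_add_cancel]; exact hx.1)
    · exact mem_side u hu (j - 1) x (by rw [sub_add_cancel]; exact hx.2)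
  · right
    refine ⟨i - 1, x - u 0, ⟨?_, ?_⟩, ?_⟩
    · exact mem_side u hu (i - 1) x (by rw [sub_add_cancel]; exact hx.1)
    · exact mem_side u hu (i - 1 + 1) x (by rw [sub_add_cancel]; exact hx.2)
    · intro h
      apply h1
      rw [vtx_next _ (sum_shift u hu), vtx_shift' u hu, sub_add_cancel, sub_left_inj] at h
      rw [h, vtx_next u hu]

omit [NeZero n] in
theorem conf_sum (u : Conf n (one n)) : ∑ i, u.1 i = 0 := by
  have := u.2.2
  simpa [one] using this

theorem SI_shift (x : Mod n (one n)) (hx : x ∈ SI n (one n)) : shM x ∈ SI n (one n) := by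
  obtain ⟨u, rfl, hu⟩ := hx
  exact ⟨shC u, rfl, selfInt_shift u.1 (conf_sum u) hu⟩

theorem shC_iter (u : Conf n (one n)) (k : ℕ) (i : Fin n) :
    (shC^[k] u).1 i = u.1 (i + Fin.ofNat n k) := by
  induction k generalizing u with
  | zero => rw [ofNat_zero', add_zero]; rfl
  | succ k ih =>
    rw [Function.iterate_succ_apply, ih]
    change u.1 (i + Fin.ofNat n k + 1) = _
    rw [ofNat_succ, add_assoc]

theorem shM_iter (u : Conf n (one n)) (k : ℕ) : shM^[k] (mk u) = mk (shC^[k] u) := by
  induction k generalizing u with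
  | zero => rfl
  | succ k ih =>
    rw [Function.iterate_succ_apply, Function.iterate_succ_apply]
    exact ih (shC u)

theorem shM_n (x : Mod n (one n)) : shM^[n] x = x := by
  induction x using Quotient.inductionOn with
  | _ u =>
    have h : shC^[n] u = u := by
      apply Subtype.ext
      funext i
      have h0 : Fin.ofNat n n = 0 := by
        apply Fin.ext
        rw [Fin.val_ofNat, Nat.mod_self, Fin.val_zero]
      rw [shC_iter, h0, add_zero]
    have := shM_iter u n
    rw [h] at this
    exact this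

theorem shC_cont : Continuous (shC : Conf n (one n) → Conf n (one n)) := by
  refine Continuous.subtype_mk ?_ _
  refine continuous_pi fun i => ?_
  exact (continuous_apply (i + 1)).comp continuous_subtype_val

theorem shM_cont : Continuous (shM : Mod n (one n) → Mod n (one n)) := by
  unfold shM
  exact Continuous.quotient_lift (continuous_quotient_mk'.comp shC_cont) _

end SHIF

theorem Z_shift_proof : Z_shift := by
  intro n _ _
  refine ⟨SHIF.shM_cont, SHIF.shM_n, fun u => rfl, fun x => ⟨fun h => ?_, SHIF.SI_shift x⟩⟩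
  have h1 : ∀ k : ℕ, ∀ y : Mod n (one n), y ∈ SI n (one n) → shM^[k] y ∈ SI n (one n) := by
    intro k
    induction k with
    | zero => exact fun y hy => hy
    | succ k ih => exact fun y hy => ih _ (SHIF.SI_shift y hy)
  have h2 := h1 (n - 1) _ h
  rw [← Function.iterate_succ_apply, Nat.succ_eq_add_one,
    Nat.sub_add_cancel (Nat.one_le_iff_ne_zero.2 (NeZero.ne n)), SHIF.shM_n] at h2
  exact h2

end CP
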