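import Pool.Agent.H246CP.Stubs

/-! Task STAR: star polygons have self-intersections. -/

set_option autoImplicit false

namespace CP

open Matrix KN Filter Topology

namespace STAR

theorem sin_le_aux {n : ℕ} (hn : 2 ≤ n) (r : ℝ) (h1 : 1 ≤ r) (h2 : 2 * r ≤ n) :
    Real.sin (Real.pi / n) ≤ Real.sin (Real.pi * r / n) := by
  have hn0 : (0 : ℝ) < n := by
    have : 0 < n := by omega
    exact_mod_cast this
  have hpi := Real.pi_pos
  apply Real.sin_le_sin_of_le_of_le_pi_div_two
  · have : 0 ≤ Real.pi / n := by positivity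
    linarith
  · rw [div_le_div_iff₀ hn0 (by norm_num)]
    nlinarith
  · rw [div_le_div_iff_of_pos_right hn0]
    nlinarith

theorem sin_sq_le {n : ℕ} (hn : 2 ≤ n) (k : ℤ) (hk : ¬ (n : ℤ) ∣ k) :
    Real.sin (Real.pi / n) ^ 2 ≤ Real.sin (Real.pi * k / n) ^ 2 := by
  have hn0 : (0 : ℝ) < n := by
    have : 0 < n := by omega
    exact_mod_cast this
  have hpi := Real.pi_pos
  obtain ⟨r, q, hkr, hr1, hrn⟩ : ∃ r q : ℤ, k = r + n * q ∧ 1 ≤ r ∧ r < n := by
    refine ⟨k % n, k / n, (Int.emod_add_mul_ediv k n).symm, ?_, Int.emod_lt_of_pos _ (by omega)⟩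
    have h0 : 0 ≤ k % n := Int.emod_nonneg _ (by omega)
    have h1 : k % n ≠ 0 := fun h => hk (Int.dvd_of_emod_eq_zero h)
    omega
  have e1 : Real.sin (Real.pi * k / n) ^ 2 = Real.sin (Real.pi * r / n) ^ 2 := by
    have : 2 * (Real.pi * k / n) = 2 * (Real.pi * r / n) + q * (2 * Real.pi) := by
      rw [hkr]; push_cast; field_simp
    rw [Real.sin_sq_eq_half_sub, Real.sin_sq_eq_half_sub, this, Real.cos_add_int_mul_two_pi]
  have hr1' : (1 : ℝ) ≤ r := by exact_mod_cast hr1
  have hrn' : (r : ℝ) + 1 ≤ n := by exact_mod_cast hrn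
  have h0 : 0 ≤ Real.sin (Real.pi / n) := by
    apply Real.sin_nonneg_of_nonneg_of_le_pi (by positivity)
    rw [div_le_iff₀ hn0]
    have : (1 : ℝ) ≤ n := by linarith
    nlinarith
  have h1 : Real.sin (Real.pi / n) ≤ Real.sin (Real.pi * r / n) := by
    rcases le_total (2 * (r : ℝ)) n with h | h
    · exact sin_le_aux hn r hr1' h
    · have := sin_le_aux hn (n - r : ℝ) (by linarith) (by linarith)
      have e2 : Real.pi * ((n : ℝ) - r) / n = Real.pi - Real.pi * r / n := by
        field_simp
      rwa [e2, Real.sin_pi_sub] at this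
  rw [e1]
  exact pow_le_pow_left₀ h0 h1 2

theorem vtx_zero {n : ℕ} (u : Fin n → R3) : vtx (one n) u 0 = 0 := by
  simp [vtx]

theorem vtx_succ {n : ℕ} (u : Fin n → R3) (j : ℕ) (hj : j < n) :
    vtx (one n) u (j + 1) = vtx (one n) u j + u ⟨j, hj⟩ := by
  unfold vtx one
  have h : ∀ i : Fin n, (if i.val < j + 1 then (1 : ℝ) • u i else 0) =
      (if i.val < j then (1 : ℝ) • u i else 0) + (if i = ⟨j, hj⟩ then u i else 0) := by
    intro i
    by_cases h1 : i.val < j
    · have h2 : i ≠ ⟨j, hj⟩ := by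
        intro h; rw [h] at h1; simp at h1
      have h3 : i.val < j + 1 := by omega
      simp [h1, h2, h3]
    · by_cases h2 : i = ⟨j, hj⟩
      · subst h2; simp
      · have h3 : ¬ i.val < j + 1 := by
          intro h
          apply h2
          apply Fin.ext
          simp only
          omega
        simp [h1, h2, h3]
  rw [Finset.sum_congr rfl (fun i _ => h i), Finset.sum_add_distrib]
  simp

theorem vtx_formula {n : ℕ} (u : Fin n → R3) (e₁ e₂ : R3) (A : ℝ)
    (hu : ∀ i : Fin n, u i = Real.cos (2 * A * i.val) • e₁ + Real.sin (2 * A * i.val) • e₂)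
    (j : ℕ) (hj : j ≤ n) :
    (2 * Real.sin A) • vtx (one n) u j =
      (Real.sin (2 * A * j - A) + Real.sin A) • e₁ +
      (Real.cos A - Real.cos (2 * A * j - A)) • e₂ := by
  induction j with
  | zero => rw [vtx_zero]; simp
  | succ j ih =>
    have ih' := ih (by omega)
    rw [vtx_succ u j (by omega), hu, smul_add, ih']
    simp only
    have e0 : 2 * A * ((j + 1 : ℕ) : ℝ) - A = 2 * A * j + A := by push_cast; ring
    rw [e0]
    have h1 : 2 * Real.sin A * Real.cos (2 * A * j) =
        Real.sin (2 * A * j + A) - Real.sin (2 * A * j - A) := by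
      rw [Real.sin_add, Real.sin_sub]; ring
    have h2 : 2 * Real.sin A * Real.sin (2 * A * j) =
        Real.cos (2 * A * j - A) - Real.cos (2 * A * j + A) := by
      rw [Real.cos_add, Real.cos_sub]; ring
    rw [smul_add, smul_smul, smul_smul, h1, h2]
    module

end STAR

open STAR in
theorem Z_star_proof : Z_star := by
  intro n _ hp h5 u e₁ e₂ k _ _ _ hu hk0 hk1 hk2
  have hn0 : (0 : ℝ) < n := by
    have : 0 < n := by omega
    exact_mod_cast this
  have hn0' : (n : ℝ) ≠ 0 := hn0.ne'
  have hn5 : (5 : ℝ) ≤ n := by exact_mod_cast h5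
  have hpi := Real.pi_pos
  obtain ⟨m, q, hmn, hmq⟩ : ∃ (m : ℕ) (q : ℤ), m < n ∧ k * m = 1 + n * q := by
    have hcop : IsCoprime k (n : ℤ) := by
      have := (Int.prime_iff_natAbs_prime.2 (by simpa using hp) : Prime (n : ℤ))
      exact (this.coprime_iff_not_dvd.2 hk0).symm
    obtain ⟨a, b, hab⟩ := hcop
    have h0 : 0 ≤ a % n := Int.emod_nonneg _ (by omega)
    have h1 : a % n < n := Int.emod_lt_of_pos _ (by omega)
    refine ⟨(a % n).toNat, -b - k * (a / n), by omega, ?_⟩
    rw [Int.toNat_of_nonneg h0]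
    have h2 := Int.emod_add_mul_ediv a n
    have h3 : a % n = a - n * (a / n) := by linarith
    rw [h3]
    linear_combination hab
  have hm0 : m ≠ 0 := by
    rintro rfl
    have h : (1 : ℤ) = n * (-q) := by
      have := hmq
      push_cast at this
      linarith
    have h2 : (n : ℤ) ∣ 1 := ⟨-q, h⟩
    have := Int.le_of_dvd (by norm_num) h2
    omega
  have hm1 : m ≠ 1 := by
    rintro rfl
    apply hk1
    exact ⟨q, by push_cast at hmq; linarith⟩
  have hm2 : m + 1 ≠ n := by
    intro h
    apply hk2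
    have h' : (m : ℤ) = n - 1 := by omega
    rw [h'] at hmq
    exact ⟨k - q, by linarith⟩
  -- the angles
  have hu' : ∀ i : Fin n, u i = Real.cos (2 * (Real.pi * k / n) * i.val) • e₁ +
      Real.sin (2 * (Real.pi * k / n) * i.val) • e₂ := by
    intro i
    rw [hu i]
    have : 2 * Real.pi * k * i.val / n = 2 * (Real.pi * k / n) * i.val := by ring
    rw [this]
  have hsq := sin_sq_le (by omega : 2 ≤ n) k hk0
  have hang : 2 * (Real.pi * k / n) * m = 2 * (Real.pi / n) + q * (2 * Real.pi) := by
    have : (k : ℝ) * m = 1 + n * q := by exact_mod_cast hmq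
    field_simp
    linear_combination this
  have hsB : 0 < Real.sin (Real.pi / n) := by
    apply Real.sin_pos_of_pos_of_lt_pi (by positivity)
    rw [div_lt_iff₀ hn0]
    nlinarith
  have hcB : 0 < Real.cos (Real.pi / n) := by
    apply Real.cos_pos_of_mem_Ioo
    constructor
    · have : 0 < Real.pi / n := by positivity
      linarith
    · rw [div_lt_div_iff₀ hn0 (by norm_num)]
      nlinarith
  generalize hAdef : Real.pi * k / n = A at *
  generalize hBdef : Real.pi / n = B at *
  have hsA : Real.sin A ≠ 0 := by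
    intro h
    rw [h] at hsq
    have := pow_pos hsB 2
    simp at hsq
    linarith
  have hA1 := Real.sin_sq_add_cos_sq A
  have hB1 := Real.sin_sq_add_cos_sq B
  obtain ⟨t, ht, ht1, ht2⟩ : ∃ t : ℝ, t * (Real.sin A * Real.cos B) = Real.cos A * Real.sin B ∧
      -1 ≤ t ∧ t ≤ 1 := by
    refine ⟨Real.cos A * Real.sin B / (Real.sin A * Real.cos B), ?_, ?_⟩
    · field_simp
    · rw [← abs_le, abs_div, div_le_one (abs_pos.2 (mul_ne_zero hsA hcB.ne'))]
      apply sq_le_sq.1
      have e1 : (Real.cos A * Real.sin B) ^ 2 =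
          (1 - Real.sin A ^ 2) * Real.sin B ^ 2 := by
        rw [mul_pow, ← hA1]; ring
      have e2 : (Real.sin A * Real.cos B) ^ 2 =
          Real.sin A ^ 2 * (1 - Real.sin B ^ 2) := by
        rw [mul_pow, ← hB1]; ring
      rw [e1, e2]
      linarith
  have hf := fun j hj => vtx_formula u e₁ e₂ A hu' j hj
  have hfm := hf m hmn.le
  have hfm1 := hf (m + 1) hmn
  have a1 : Real.sin (2 * A * m - A) = Real.sin (2 * B - A) := by
    have : 2 * A * m - A = (2 * B - A) + q * (2 * Real.pi) := by rw [hang]; ring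
    rw [this, Real.sin_add_int_mul_two_pi]
  have a2 : Real.cos (2 * A * m - A) = Real.cos (2 * B - A) := by
    have : 2 * A * m - A = (2 * B - A) + q * (2 * Real.pi) := by rw [hang]; ring
    rw [this, Real.cos_add_int_mul_two_pi]
  have a3 : Real.sin (2 * A * ((m + 1 : ℕ) : ℝ) - A) = Real.sin (2 * B + A) := by
    have : 2 * A * ((m + 1 : ℕ) : ℝ) - A = (2 * B + A) + q * (2 * Real.pi) := by
      push_cast
      linear_combination hang
    rw [this, Real.sin_add_int_mul_two_pi]
  have a4 : Real.cos (2 * A * ((m + 1 : ℕ) : ℝ) - A) = Real.cos (2 * B + A) := by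
    have : 2 * A * ((m + 1 : ℕ) : ℝ) - A = (2 * B + A) + q * (2 * Real.pi) := by
      push_cast
      linear_combination hang
    rw [this, Real.cos_add_int_mul_two_pi]
  rw [a1, a2, Real.sin_sub, Real.cos_sub, Real.sin_two_mul, Real.cos_two_mul] at hfm
  rw [a3, a4, Real.sin_add, Real.cos_add, Real.sin_two_mul, Real.cos_two_mul] at hfm1
  left
  refine ⟨0, ⟨m, hmn⟩, ?_, ?_, ?_, ?_⟩
  · intro h
    apply hm0
    have := congrArg Fin.val h
    simpa using this.symm
  · intro h
    apply hm1
    have := congrArg Fin.val h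
    rw [zero_add] at this
    simp only at this
    rw [this, Fin.val_one', Nat.mod_eq_of_lt (by omega)]
  · intro h
    have := congrArg Fin.val h
    rw [Fin.val_add] at this
    simp only [Fin.val_one'] at this
    rw [Nat.mod_eq_of_lt (a := 1) (by omega), Nat.mod_eq_of_lt (a := m + 1) (by omega)] at this
    simp at this
  · refine ⟨((1 + t) / 2) • e₁, ?_, ?_⟩
    · refine ⟨1 - (1 + t) / 2, (1 + t) / 2, by linarith, by linarith, by ring, ?_⟩
      have h0 : ((0 : Fin n) : ℕ) = 0 := by simp
      rw [h0, vtx_zero, zero_add, vtx_succ u 0 (by omega), vtx_zero, hu']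
      simp
    · refine ⟨1 - (1 - t) / 2, (1 - t) / 2, by linarith, by linarith, by ring, ?_⟩
      have h2 : (2 * Real.sin A) ≠ 0 := mul_ne_zero two_ne_zero hsA
      apply smul_right_injective R3 h2
      simp only
      rw [smul_add, smul_comm (2 * Real.sin A) (1 - (1 - t) / 2),
        smul_comm (2 * Real.sin A) ((1 - t) / 2), hfm, hfm1]
      have c1 : (1 - (1 - t) / 2) * (2 * Real.sin B * Real.cos B * Real.cos A -
          (2 * Real.cos B ^ 2 - 1) * Real.sin A + Real.sin A) +
          (1 - t) / 2 * (2 * Real.sin B * Real.cos B * Real.cos A +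
          (2 * Real.cos B ^ 2 - 1) * Real.sin A + Real.sin A) =
          2 * Real.sin A * ((1 + t) / 2) := by
        linear_combination (-2 * Real.cos B) * ht
      have c2 : (1 - (1 - t) / 2) * (Real.cos A - ((2 * Real.cos B ^ 2 - 1) * Real.cos A +
          2 * Real.sin B * Real.cos B * Real.sin A)) +
          (1 - t) / 2 * (Real.cos A - ((2 * Real.cos B ^ 2 - 1) * Real.cos A -
          2 * Real.sin B * Real.cos B * Real.sin A)) = 0 := by
        linear_combination (-2 * Real.sin B) * ht - (2 * Real.cos A) * hB1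
      calc _ = ((1 - (1 - t) / 2) * (2 * Real.sin B * Real.cos B * Real.cos A -
          (2 * Real.cos B ^ 2 - 1) * Real.sin A + Real.sin A) +
          (1 - t) / 2 * (2 * Real.sin B * Real.cos B * Real.cos A +
          (2 * Real.cos B ^ 2 - 1) * Real.sin A + Real.sin A)) • e₁ +
          ((1 - (1 - t) / 2) * (Real.cos A - ((2 * Real.cos B ^ 2 - 1) * Real.cos A +
          2 * Real.sin B * Real.cos B * Real.sin A)) +
          (1 - t) / 2 * (Real.cos A - ((2 * Real.cos B ^ 2 - 1) * Real.cos A -
          2 * Real.sin B * Real.cos B * Real.sin A))) • e₂ := by module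
        _ = _ := by rw [c1, c2, zero_smul, add_zero, smul_smul]

end CP
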