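import Pool.Agent.H246CP.Defs
import Pool.Agent.H246K3.Stubs
import Pool.Agent.Helper954.Hopf.DoldDefs

/-!
# Project CP: a component of the space of embedded polygons that is not contractible.
Definitions and the statements `Z_...` of the tasks
-/

set_option autoImplicit false

namespace CP

open Matrix KN Filter Topology
open Pool.Agent.Helper954.Hopf.Dold (VV JK sh)

noncomputable section

/-! ## Part A: free actions of `ZMod p` on contractible spaces -/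

/-- A1: relative form of `join_cover` (file Helper954/Hopf/D1c.lean): the labelled sets are only
relatively open -/
def Z_jc : Prop := ∀ (p : ℕ) [Fact p.Prime] (M : ℕ) (J : Type) [Fintype J], Fintype.card J < M →
  ∀ (O : J → Set (VV p M)) (lab : J → VV p M → ZMod p),
  (∀ j, ∀ x ∈ O j, x ∈ JK p M → ∀ᶠ y in 𝓝[JK p M] x, y ∈ O j ∧ lab j y = lab j x) →
  (∀ j, ∀ x ∈ O j, x ∈ JK p M → sh x ∈ O j ∧ lab j (sh x) = lab j x + 1) →
  ∃ x ∈ JK p M, ∀ j, x ∉ O j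

/-- A2: equivariant maps from the join -/
def Z_map : Prop := ∀ (p : ℕ) [Fact p.Prime] (X : Type) [TopologicalSpace X] [ContractibleSpace X]
  (g : X → X), Continuous g → (∀ x, g^[p] x = x) → ∀ M : ℕ, 0 < M →
  ∃ f : VV p M → X, ContinuousOn f (JK p M) ∧ ∀ x ∈ JK p M, f (sh x) = g (f x)

/-- A3: no free action with finite-dimensional image -/
def Z_cover : Prop := ∀ (p : ℕ) [Fact p.Prime] (X : Type) [TopologicalSpace X]
  [ContractibleSpace X] (g : X → X), Continuous g → (∀ x, g^[p] x = x) →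
  ∀ (r : ℕ) (a : Fin r → X → Fin p → ℝ), (∀ j i, Continuous (fun x => a j x i)) →
  (∀ j x i, a j (g x) i = a j x (i + 1)) → (∀ x, ∃ j i i', a j x i ≠ a j x i') → False

/-! ## Part B: the shift of the sides and functions on the space of equilateral polygons -/

/-- the shift of the sides -/
def shC {n : ℕ} [NeZero n] (u : Conf n (one n)) : Conf n (one n) :=
  ⟨fun i => u.1 (i + 1), fun i => u.2.1 (i + 1),
    (Equiv.sum_comp (Equiv.addRight (1 : Fin n)) (fun i => one n i • u.1 i)).trans u.2.2⟩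

/-- the shift of the sides on the quotient -/
def shM {n : ℕ} [NeZero n] : Mod n (one n) → Mod n (one n) :=
  Quotient.map shC (by
    rintro u v ⟨A, hA, h⟩
    exact ⟨A, hA, fun i => h (i + 1)⟩)

/-- B1: the shift -/
def Z_shift : Prop := ∀ (n : ℕ) [NeZero n], 3 ≤ n →
  Continuous (shM : Mod n (one n) → Mod n (one n)) ∧
  (∀ x : Mod n (one n), shM^[n] x = x) ∧
  (∀ u : Conf n (one n), shM (mk u) = mk (shC u)) ∧
  ∀ x : Mod n (one n), shM x ∈ SI n (one n) ↔ x ∈ SI n (one n)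

/-- B2: three equivariant functions -/
def Z_fun : Prop := ∀ (n : ℕ) [NeZero n], ∃ a : Fin 3 → Mod n (one n) → Fin n → ℝ,
  (∀ j i, Continuous (fun x => a j x i)) ∧ (∀ j x i, a j (shM x) i = a j x (i + 1)) ∧
  ∀ (u : Conf n (one n)) (i : Fin n), a 0 (mk u) i = u.1 i ⬝ᵥ u.1 (i + 1) ∧
    a 1 (mk u) i = u.1 i ⬝ᵥ u.1 (i + 1 + 1) ∧
    a 2 (mk u) i = det (of ![u.1 i, u.1 (i + 1), u.1 (i + 1 + 1)])

/-- the points of the other model of the space -/
def toV (x : R3) : V := (x 0, x 1, x 2)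

/-- the list of vertices of an equilateral polygon -/
def vlist {n : ℕ} (u : Fin n → R3) : List V :=
  List.ofFn (fun k : Fin n => toV (vtx (one n) u k.val))

/-- vertices of the polygon that starts at `p` and has the side vectors `es` -/
def vsf : V → List V → List V
  | _, [] => []
  | p, e :: es => p :: vsf (p + e) es

/-- the polygon with side vectors `es`, starting at `0` -/
def poly (es : List V) : List V := vsf 0 es

/-- end points of the sides -/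
def ends : V → List V → List V
  | _, [] => []
  | p, e :: es => (p + e) :: ends (p + e) es

/-- B3: comparison of the two notions of simple polygons -/
def Z_bridge : Prop := ∀ (n : ℕ) [NeZero n], 3 ≤ n → ∀ u : Fin n → R3, (∀ i, u i ⬝ᵥ u i = 1) →
  ∑ i, u i = 0 → vlist u = poly (List.ofFn (fun i => toV (u i))) ∧
    (SelfInt (one n) u ↔ ¬ Simple (vlist u))

/-- B4: rotations -/
def Z_rotk : Prop := ∀ (n : ℕ) (u u' : Fin n → R3),
  (∃ A ∈ specialOrthogonalGroup (Fin 3) ℝ, ∀ i, u' i = A *ᵥ u i) → NAf (vlist u) → NAf (vlist u')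

/-- B5: small perturbations -/
def Z_loc : Prop := ∀ (n : ℕ) [NeZero n], 3 ≤ n → ∀ u : Conf n (one n), ¬ SelfInt (one n) u.1 →
  ∀ᶠ u' in 𝓝 u, (NAf (vlist u'.1) ↔ NAf (vlist u.1))

/-- B6: all polygons of a component are knotted -/
def Z_comp : Prop := ∀ (n : ℕ) [NeZero n], 3 ≤ n → ∀ u u' : Conf n (one n),
  ¬ SelfInt (one n) u.1 → NAf (vlist u.1) →
  mk u' ∈ connectedComponentIn (SI n (one n))ᶜ (mk u) → NAf (vlist u'.1)

/-! ## Part C: the polygons on which the three functions are constant -/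

/-- C1: they are planar and given by a formula -/
def Z_gram : Prop := ∀ (n : ℕ) [NeZero n], 3 ≤ n → ∀ u : Fin n → R3, (∀ i, u i ⬝ᵥ u i = 1) →
  ∑ i, u i = 0 → (∀ i, u (i + 1) ≠ - u i) →
  (∀ i j, u i ⬝ᵥ u (i + 1) = u j ⬝ᵥ u (j + 1)) →
  (∀ i j, u i ⬝ᵥ u (i + 1 + 1) = u j ⬝ᵥ u (j + 1 + 1)) →
  (∀ i j, det (of ![u i, u (i + 1), u (i + 1 + 1)]) = det (of ![u j, u (j + 1), u (j + 1 + 1)])) →
  ∃ (e₁ e₂ : R3) (k : ℤ), e₁ ⬝ᵥ e₁ = 1 ∧ e₂ ⬝ᵥ e₂ = 1 ∧ e₁ ⬝ᵥ e₂ = 0 ∧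
    ∀ i : Fin n, u i = Real.cos (2 * Real.pi * k * i.val / n) • e₁ +
      Real.sin (2 * Real.pi * k * i.val / n) • e₂

/-- C2: star polygons have self-intersections -/
def Z_star : Prop := ∀ (n : ℕ) [NeZero n], n.Prime → 5 ≤ n → ∀ (u : Fin n → R3) (e₁ e₂ : R3)
  (k : ℤ), e₁ ⬝ᵥ e₁ = 1 → e₂ ⬝ᵥ e₂ = 1 → e₁ ⬝ᵥ e₂ = 0 →
  (∀ i : Fin n, u i = Real.cos (2 * Real.pi * k * i.val / n) • e₁ +
      Real.sin (2 * Real.pi * k * i.val / n) • e₂) →
  ¬ (n : ℤ) ∣ k → ¬ (n : ℤ) ∣ k - 1 → ¬ (n : ℤ) ∣ k + 1 → SelfInt (one n) u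

/-- the regular `n`-gon -/
def Rn (n : ℕ) : List V := List.ofFn (fun j : Fin n =>
  ((Real.cos (2 * Real.pi * j.val / n), Real.sin (2 * Real.pi * j.val / n), 0) : V))

/-- C3: polygons around the origin of a plane -/
def Z_polar : Prop := ∀ (n : ℕ) (θ r : ℕ → ℝ), 3 ≤ n → (∀ i, 0 < r i) →
  (∀ i < n, θ i < θ (i + 1) ∧ θ (i + 1) < θ i + Real.pi) → θ n = θ 0 + 2 * Real.pi →
  Simple (List.ofFn (fun j : Fin n =>
    ((r j.val * Real.cos (θ j.val), r j.val * Real.sin (θ j.val), 0) : V)))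

/-- C4: the regular polygon is not knotted -/
def Z_unreg : Prop := ∀ n : ℕ, 5 ≤ n → ¬ NAf (Rn n)

/-- C5: the same for congruent polygons -/
def Z_reg : Prop := ∀ (n : ℕ) [NeZero n], 5 ≤ n → ∀ (u : Fin n → R3) (e₁ e₂ : R3)
  (k : ℤ), e₁ ⬝ᵥ e₁ = 1 → e₂ ⬝ᵥ e₂ = 1 → e₁ ⬝ᵥ e₂ = 0 →
  (∀ i : Fin n, u i = Real.cos (2 * Real.pi * k * i.val / n) • e₁ +
      Real.sin (2 * Real.pi * k * i.val / n) • e₂) →
  ((n : ℤ) ∣ k - 1 ∨ (n : ℤ) ∣ k + 1) → ¬ NAf (vlist u)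

/-- C6: the shift has no fixed points on knotted polygons -/
def Z_fix : Prop := ∀ (n : ℕ) [NeZero n], n.Prime → 5 ≤ n → ∀ u : Fin n → R3,
  (∀ i, u i ⬝ᵥ u i = 1) → ∑ i, u i = 0 → ¬ SelfInt (one n) u →
  (∀ i j, u i ⬝ᵥ u (i + 1) = u j ⬝ᵥ u (j + 1)) →
  (∀ i j, u i ⬝ᵥ u (i + 1 + 1) = u j ⬝ᵥ u (j + 1 + 1)) →
  (∀ i j, det (of ![u i, u (i + 1), u (i + 1 + 1)]) = det (of ![u j, u (j + 1), u (j + 1 + 1)])) →
  ¬ NAf (vlist u)

/-! ## Part D: a bump travels around a lattice polygon -/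

/-- letters as vectors -/
def ev (d : Dir) : V := emb (vec d)

/-- scalar product -/
def dV (x y : V) : ℝ := x.1 * y.1 + x.2.1 * y.2.1 + x.2.2 * y.2.2

/-- the two sides of a bump on the side `d` in the direction `e` -/
def bp (d e : Dir) : List V :=
  [(1 / 2 : ℝ) • ev d + (√3 / 2 : ℝ) • ev e, (1 / 2 : ℝ) • ev d - (√3 / 2 : ℝ) • ev e]

/-- side vectors of a closed simple equilateral polygon -/
def EmbL (es : List V) : Prop := (∀ e ∈ es, dV e e = 1) ∧ es.sum = 0 ∧ Simple (poly es)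

/-- motions -/
def J1 (es es' : List V) : Prop := ∃ (n : ℕ) (γ : ℝ → Fin n → V),
  (∀ i, Continuous (fun t => γ t i)) ∧ (∀ t : ℝ, 0 ≤ t → t ≤ 1 → EmbL (List.ofFn (γ t))) ∧
  es = List.ofFn (γ 0) ∧ es' = List.ofFn (γ 1)

/-- motions, several steps -/
def JJ : List V → List V → Prop := Relation.EqvGen J1

/-- D1: a polygon made of the moving sides `M` and the lattice sides `S` is simple -/
def Z_key : Prop := ∀ (pre S : List Dir) (M : List V) (R : Set V), SAP (pre ++ S) → pre ≠ [] →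
  S ≠ [] → M ≠ [] → M.sum = (pre.map ev).sum → (∀ e ∈ M, e ≠ 0) →
  (chain 0 (ends 0 M)).Pairwise Disj →
  (∀ e ∈ chain 0 (ends 0 M), ∀ t : ℝ, 0 ≤ t → t < 1 → lerp e.1 e.2 t = 0 ∨ lerp e.1 e.2 t ∈ R) →
  (∀ (S1 : List Dir) (g : Dir) (S2 : List Dir), S = S1 ++ g :: S2 → ∀ s : ℝ, 0 ≤ s → s < 1 →
    lerp (emb (pos (pre ++ S1))) (emb (pos (pre ++ S1) + vec g)) s ∉ R) →
  Simple (poly (M ++ S.map ev))

/-- the region for a straight step -/
def RS (d e : Dir) : Set V :=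
  {x | ∃ a b : ℝ, 0 < a ∧ a < 2 ∧ 0 ≤ b ∧ b < 1 ∧ x = a • ev d + b • ev e}

/-- the region for a step around a corner -/
def RC (d f : Dir) : Set V :=
  {x | ∃ a b : ℝ, 0 < a ∧ a < 2 ∧ -1 < b ∧ b < 1 ∧ (1 ≤ a ∨ b ≤ 0) ∧ x = a • ev d + b • ev f}

/-- the region for a rotation of the bump -/
def RR (d : Dir) : Set V :=
  {x | ∃ (a : ℝ) (z : V), 0 < a ∧ a < 1 ∧ dV z (ev d) = 0 ∧ dV z z < 1 ∧ x = a • ev d + z}

/-- D2 -/
def Z_regS : Prop := ∀ (d e : Dir) (S : List Dir), perp d e → SAP (d :: d :: S) →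
  ∀ (S1 : List Dir) (g : Dir) (S2 : List Dir), S = S1 ++ g :: S2 → ∀ s : ℝ, 0 ≤ s → s < 1 →
    lerp (emb (pos (d :: d :: S1))) (emb (pos (d :: d :: S1) + vec g)) s ∉ RS d e

/-- D3 -/
def Z_regC : Prop := ∀ (d f : Dir) (S : List Dir), perp d f → SAP (d :: f :: S) →
  ∀ (S1 : List Dir) (g : Dir) (S2 : List Dir), S = S1 ++ g :: S2 → ∀ s : ℝ, 0 ≤ s → s < 1 →
    lerp (emb (pos (d :: f :: S1))) (emb (pos (d :: f :: S1) + vec g)) s ∉ RC d f

/-- D4 -/
def Z_regR : Prop := ∀ (d : Dir) (S : List Dir), SAP (d :: S) →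
  ∀ (S1 : List Dir) (g : Dir) (S2 : List Dir), S = S1 ++ g :: S2 → ∀ s : ℝ, 0 ≤ s → s < 1 →
    lerp (emb (pos (d :: S1))) (emb (pos (d :: S1) + vec g)) s ∉ RR d

/-- D5: the bump makes a straight step -/
def Z_movS : Prop := ∀ (d e : Dir) (S : List Dir), perp d e → SAP (d :: d :: S) →
  JJ (bp d e ++ ev d :: S.map ev) (ev d :: (bp d e ++ S.map ev))

/-- D6: the bump makes a step around a corner -/
def Z_movC : Prop := ∀ (d f : Dir) (S : List Dir), perp d f → SAP (d :: f :: S) →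
  JJ (bp d (neg f) ++ ev f :: S.map ev) (ev d :: (bp f d ++ S.map ev))

/-- D7: the bump rotates around its side -/
def Z_movR : Prop := ∀ (d e e' : Dir) (S : List Dir), perp d e → perp d e' → SAP (d :: S) →
  JJ (bp d e ++ S.map ev) (bp d e' ++ S.map ev)

/-- D8: change of the first side -/
def Z_rotJ : Prop := ∀ es es' : List V, JJ es es' → JJ (es.rotate 1) (es'.rotate 1)

/-- D9: once around the polygon -/
def Z_iter : Prop := ∀ (d e : Dir) (S : List Dir), perp d e → SAP (d :: S) →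
  JJ (bp d e ++ S.map ev) ((bp d e ++ S.map ev).rotate 1)

/-- D10: motions give paths in the quotient -/
def Z_join : Prop := ∀ (n : ℕ) [NeZero n], 3 ≤ n → ∀ u u' : Conf n (one n),
  ¬ SelfInt (one n) u.1 →
  JJ (List.ofFn (fun i => toV (u.1 i))) (List.ofFn (fun i => toV (u'.1 i))) →
  JoinedIn (SI n (one n))ᶜ (mk u) (mk u')

/-! ## Part E: the polygon with a bump is knotted -/

/-- E1: the polygon of a word read from the head, up to a reflection -/
def Z_neg : Prop := ∀ w : List Dir, SAP w → (fun x : V => -x) '' ps (vl w) = ps (poly (w.map ev))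

/-- E2: bumps do not change the knot -/
def Z_bkn : Prop := ∀ (d e : Dir) (S : List Dir), perp d e → SAP (d :: S) → NAf (vl (d :: S)) →
  NAf (poly (bp d e ++ S.map ev)) ∧ EmbL (bp d e ++ S.map ev)

/-- E3: a trefoil with 36 sides -/
def Z_w36 : Prop := ∃ (d : Dir) (S : List Dir), SAP (d :: S) ∧ (d :: S).length = 36 ∧
  NAf (vl (d :: S))

/-- main statement -/
def Z_main : Prop := ¬ ∀ (n : ℕ) [NeZero n] (ℓ : Fin n → ℝ), 3 ≤ n → (∀ i, 0 < ℓ i) →
  ∀ x ∈ (SI n ℓ)ᶜ, ContractibleSpace (connectedComponentIn (SI n ℓ)ᶜ x)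

end

end CP
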