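import Pool.Agent.H246CP.Stubs

/-!
# Project CP, task UNRG (helper504): the regular polygon is not knotted
-/

set_option autoImplicit false

namespace CP

open Matrix KN Filter Topology

namespace UNRG

theorem chain_ofFn (m : ℕ) (f : ℕ → V) :
    chain (f 0) (List.ofFn (fun j : Fin m => f (j.val + 1))) =
      List.ofFn (fun j : Fin m => (f j.val, f (j.val + 1))) := by
  induction m generalizing f with
  | zero => simp [chain]
  | succ m ih =>
    have h1 : List.ofFn (fun j : Fin (m + 1) => f (j.val + 1)) =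
        f 1 :: List.ofFn (fun j : Fin m => f (j.val + 1 + 1)) := by
      rw [List.ofFn_succ]
      simp only [Fin.val_zero, Fin.val_succ, zero_add]
    have h2 : List.ofFn (fun j : Fin (m + 1) => (f j.val, f (j.val + 1))) =
        (f 0, f 1) :: List.ofFn (fun j : Fin m => (f (j.val + 1), f (j.val + 1 + 1))) := by
      rw [List.ofFn_succ]
      simp only [Fin.val_zero, Fin.val_succ, zero_add]
    rw [h1, h2, chain]
    congr 1
    exact ih (fun j => f (j + 1))

theorem edges_ofFn (m : ℕ) (f : ℕ → V) (hf : f (m + 1) = f 0) :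
    edges (List.ofFn (fun j : Fin (m + 1) => f j.val)) =
      List.ofFn (fun j : Fin (m + 1) => (f j.val, f (j.val + 1))) := by
  have h1 : List.ofFn (fun j : Fin (m + 1) => f j.val) =
      f 0 :: List.ofFn (fun j : Fin m => f (j.val + 1)) := by
    rw [List.ofFn_succ]
    simp only [Fin.val_zero, Fin.val_succ]
  rw [h1, edges, ← chain_ofFn (m + 1) f]
  congr 1
  rw [List.ofFn_succ', List.concat_eq_append]
  simp only [Fin.val_castSucc, Fin.val_last, hf]

theorem mem_ps (m : ℕ) (f : ℕ → V) (hf : f (m + 1) = f 0) (x : V) :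
    x ∈ ps (List.ofFn (fun j : Fin (m + 1) => f j.val)) ↔
      ∃ j < m + 1, ∃ u : ℝ, 0 ≤ u ∧ u ≤ 1 ∧ x = lerp (f j) (f (j + 1)) u := by
  unfold ps
  rw [edges_ofFn m f hf]
  constructor
  · rintro ⟨e, he, u, h0, h1, hx⟩
    rw [List.mem_ofFn] at he
    obtain ⟨j, rfl⟩ := he
    exact ⟨j.val, j.isLt, u, h0, h1, hx⟩
  · rintro ⟨j, hj, u, h0, h1, hx⟩
    refine ⟨(f j, f (j + 1)), ?_, u, h0, h1, hx⟩
    rw [List.mem_ofFn]
    exact ⟨⟨j, hj⟩, rfl⟩

/-- images under affine maps -/
theorem image_ps (h : V → V) (hh : ∀ p q u, h (lerp p q u) = lerp (h p) (h q) u) (l : List V) :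
    h '' ps l = ps (l.map h) := by
  ext x
  constructor
  · rintro ⟨y, ⟨e, he, u, h0, h1, rfl⟩, rfl⟩
    refine ⟨(h e.1, h e.2), ?_, u, h0, h1, hh _ _ _⟩
    rw [edges_map]
    exact List.mem_map.mpr ⟨e, he, rfl⟩
  · rintro ⟨e, he, u, h0, h1, rfl⟩
    rw [edges_map] at he
    obtain ⟨e', he', rfl⟩ := List.mem_map.mp he
    exact ⟨lerp e'.1 e'.2 u, ⟨e', he', u, h0, h1, rfl⟩, hh _ _ _⟩

theorem lerp_lerp (a b : V) (s s' u : ℝ) :
    lerp (lerp a b s) (lerp a b s') u = lerp a b ((1 - u) * s + u * s') := by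
  unfold lerp
  module

/-- discrete intermediate value theorem -/
theorem divt (t : ℕ → ℝ) (v : ℝ) (a : ℕ) : ∀ b : ℕ, a < b → t a ≤ v → v ≤ t b →
    ∃ j, a ≤ j ∧ j < b ∧ t j ≤ v ∧ v ≤ t (j + 1) := by
  intro b
  induction b with
  | zero => intro h; omega
  | succ b ih =>
    intro hab ha hb
    by_cases hv : t b ≤ v
    · exact ⟨b, by omega, by omega, hv, hb⟩
    · push Not at hv
      have hne : a ≠ b := by
        intro h
        subst h
        linarith
      obtain ⟨j, h1, h2, h3, h4⟩ := ih (by omega) ha hv.le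
      exact ⟨j, h1, by omega, h3, h4⟩

/-- the subdivided polygon and the square have the same points -/
theorem ps_sub (n : ℕ) (hn : 4 ≤ n) (c : ℕ → V) (hc : c 4 = c 0) (f : ℕ → V) (t : ℕ → ℝ)
    (h0 : ∀ j ≤ 3, f j = c j) (hf : ∀ j, 3 ≤ j → j ≤ n → f j = lerp (c 3) (c 0) (t j))
    (ht3 : t 3 = 0) (htn : t n = 1) (ht : ∀ j, 3 ≤ j → j ≤ n → 0 ≤ t j ∧ t j ≤ 1) :
    ps (List.ofFn (fun j : Fin n => f j.val)) = ps (List.ofFn (fun j : Fin 4 => c j.val)) := by
  obtain ⟨m, rfl⟩ : ∃ m, n = m + 1 := ⟨n - 1, by omega⟩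
  have hfn : f (m + 1) = f 0 := by
    rw [hf (m + 1) (by omega) le_rfl, htn, lerp_one, h0 0 (by omega)]
  ext x
  rw [mem_ps m f hfn, mem_ps 3 c hc]
  constructor
  · rintro ⟨j, hj, u, hu0, hu1, rfl⟩
    by_cases hj3 : j < 3
    · refine ⟨j, by omega, u, hu0, hu1, ?_⟩
      rw [h0 j (by omega), h0 (j + 1) (by omega)]
    · push Not at hj3
      refine ⟨3, by omega, (1 - u) * t j + u * t (j + 1), ?_, ?_, ?_⟩
      · have h1 := (ht j hj3 (by omega)).1
        have h2 := (ht (j + 1) (by omega) (by omega)).1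
        have h3 : 0 ≤ 1 - u := by linarith
        positivity
      · have h1 := (ht j hj3 (by omega)).2
        have h2 := (ht (j + 1) (by omega) (by omega)).2
        nlinarith
      · rw [hf j hj3 (by omega), hf (j + 1) (by omega) (by omega), lerp_lerp, hc]
  · rintro ⟨j, hj, u, hu0, hu1, rfl⟩
    by_cases hj3 : j < 3
    · refine ⟨j, by omega, u, hu0, hu1, ?_⟩
      rw [h0 j (by omega), h0 (j + 1) (by omega)]
    · have hj' : j = 3 := by omega
      subst hj'
      obtain ⟨i, hi3, him, h1, h2⟩ := divt t u 3 (m + 1) (by omega) (by rw [ht3]; exact hu0)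
        (by rw [htn]; exact hu1)
      -- `u` between `t i` and `t (i + 1)`
      obtain ⟨w, hw0, hw1, hw⟩ : ∃ w : ℝ, 0 ≤ w ∧ w ≤ 1 ∧ u = (1 - w) * t i + w * t (i + 1) := by
        by_cases he : t (i + 1) = t i
        · refine ⟨0, le_rfl, zero_le_one, ?_⟩
          have : u = t i := by linarith
          rw [this]
          ring
        · have hlt : 0 < t (i + 1) - t i := by
            have : t i ≤ t (i + 1) := le_trans h1 h2
            have h3 : t i ≠ t (i + 1) := fun h => he h.symm
            have := lt_of_le_of_ne this h3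
            linarith
          refine ⟨(u - t i) / (t (i + 1) - t i), ?_, ?_, ?_⟩
          · apply div_nonneg <;> linarith
          · rw [div_le_one hlt]
            linarith
          · field_simp
            ring
      refine ⟨i, him, w, hw0, hw1, ?_⟩
      rw [hf i hi3 (by omega), hf (i + 1) (by omega) (by omega), lerp_lerp, ← hw, hc]

/-- an affine homeomorphism -/
noncomputable def aff : V ≃ₜ V where
  toFun p := (1 / 2 + (p.2.1 - p.1) / 2, p.2.2, 1 / 2 + (p.1 + p.2.1) / 2)
  invFun p := (p.2.2 - p.1, p.1 + p.2.2 - 1, p.2.1)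
  left_inv := by
    intro p
    ext
    · simp only; ring
    · simp only; ring
    · simp only
  right_inv := by
    intro p
    ext
    · simp only; ring
    · simp only
    · simp only; ring
  continuous_toFun := by fun_prop
  continuous_invFun := by fun_prop

theorem aff_apply (p : V) : aff p =
    (1 / 2 + (p.2.1 - p.1) / 2, p.2.2, 1 / 2 + (p.1 + p.2.1) / 2) := rfl

theorem aff_lerp (p q : V) (u : ℝ) : aff (lerp p q u) = lerp (aff p) (aff q) u := by
  simp only [aff_apply, lerp]
  ext
  · simp only [Prod.fst_add, Prod.snd_add, Prod.smul_fst, Prod.smul_snd, smul_eq_mul]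
    ring
  · simp only [Prod.fst_add, Prod.snd_add, Prod.smul_fst, Prod.smul_snd, smul_eq_mul]
  · simp only [Prod.fst_add, Prod.snd_add, Prod.smul_fst, Prod.smul_snd, smul_eq_mul]
    ring

/-- the corners of the square -/
def cor (j : ℕ) : V :=
  if j = 0 then (1, 0, 0) else if j = 1 then (0, 1, 0) else if j = 2 then (-1, 0, 0)
  else if j = 3 then (0, -1, 0) else (1, 0, 0)

theorem aff_sq : (List.ofFn (fun j : Fin 4 => cor j.val)).map aff = sq := by
  have h : List.ofFn (fun j : Fin 4 => cor j.val) = [cor 0, cor 1, cor 2, cor 3] := by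
    simp [List.ofFn_succ]
  rw [h]
  unfold KN.sq vl sqw
  simp only [List.map_cons, List.map_nil, List.tail_cons, path, pos, KN.vec, emb, aff_apply, cor]
  norm_num

/-- indices of the angles -/
noncomputable def kap (n : ℕ) (j : ℕ) : ℝ :=
  if j ≤ 3 then (j : ℝ) else 3 + ((j : ℝ) - 3) / ((n : ℝ) - 3)

theorem kap_of_ge (n j : ℕ) (hj : 3 ≤ j) : kap n j = 3 + ((j : ℝ) - 3) / ((n : ℝ) - 3) := by
  unfold kap
  by_cases h : j ≤ 3
  · have : j = 3 := by omega
    subst this
    simp
  · rw [if_neg h]

theorem kap_of_le (n j : ℕ) (hj : j ≤ 3) : kap n j = j := by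
  unfold kap
  rw [if_pos hj]

theorem kap_gap (n j : ℕ) (hn : 5 ≤ n) : kap n j < kap n (j + 1) ∧ kap n (j + 1) ≤ kap n j + 1 := by
  have hn' : (5 : ℝ) ≤ n := by exact_mod_cast hn
  by_cases h : j < 3
  · rw [kap_of_le n j (by omega), kap_of_le n (j + 1) (by omega)]
    push_cast
    constructor <;> linarith
  · push Not at h
    rw [kap_of_ge n j h, kap_of_ge n (j + 1) (by omega)]
    have h3 : (0 : ℝ) < (n : ℝ) - 3 := by linarith
    have h4 : (((j + 1 : ℕ) : ℝ) - 3) / ((n : ℝ) - 3) =
        ((j : ℝ) - 3) / ((n : ℝ) - 3) + 1 / ((n : ℝ) - 3) := by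
      push_cast
      ring
    have h5 : 0 < 1 / ((n : ℝ) - 3) := by positivity
    have h6 : 1 / ((n : ℝ) - 3) ≤ 1 := by
      rw [div_le_one h3]
      linarith
    rw [h4]
    constructor <;> linarith

theorem kap_n (n : ℕ) (hn : 5 ≤ n) : kap n n = 4 := by
  have hn' : (5 : ℝ) ≤ n := by exact_mod_cast hn
  rw [kap_of_ge n n (by omega), div_self (by linarith)]
  norm_num

/-- the angles -/
noncomputable def phi (n j : ℕ) : ℝ := Real.pi / 2 * kap n j

/-- the radii -/
noncomputable def rho (n j : ℕ) : ℝ :=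
  if 3 < j ∧ j < n then 1 / (Real.cos (phi n j) - Real.sin (phi n j)) else 1

/-- sine and cosine in the last quadrant -/
theorem quad (n j : ℕ) (hn : 5 ≤ n) (hj : 3 < j) (hjn : j < n) :
    0 < Real.cos (phi n j) ∧ Real.sin (phi n j) < 0 := by
  have hn' : (5 : ℝ) ≤ n := by exact_mod_cast hn
  have h3 : (0 : ℝ) < (n : ℝ) - 3 := by linarith
  have hj' : (3 : ℝ) < j := by exact_mod_cast hj
  have hjn' : (j : ℝ) < n := by exact_mod_cast hjn
  obtain ⟨ψ, hψ⟩ : ∃ ψ : ℝ, ψ = Real.pi / 2 * (((j : ℝ) - 3) / ((n : ℝ) - 3)) := ⟨_, rfl⟩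
  have hpos : 0 < ((j : ℝ) - 3) / ((n : ℝ) - 3) := div_pos (by linarith) h3
  have hlt : ((j : ℝ) - 3) / ((n : ℝ) - 3) < 1 := by
    rw [div_lt_one h3]
    linarith
  have hpi := Real.pi_pos
  have hψ0 : 0 < ψ := by rw [hψ]; positivity
  have hψ1 : ψ < Real.pi / 2 := by
    rw [hψ]
    nlinarith
  have hphi : phi n j = ψ - Real.pi / 2 + 2 * Real.pi := by
    unfold phi
    rw [kap_of_ge n j hj.le, hψ]
    ring
  rw [hphi, Real.cos_add_two_pi, Real.sin_add_two_pi, Real.cos_sub_pi_div_two,
    Real.sin_sub_pi_div_two]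
  have hs : 0 < Real.sin ψ := Real.sin_pos_of_pos_of_lt_pi hψ0 (by linarith)
  have hc : 0 < Real.cos ψ := Real.cos_pos_of_mem_Ioo ⟨by linarith, hψ1⟩
  exact ⟨hs, by linarith⟩

theorem rho_pos (n j : ℕ) (hn : 5 ≤ n) : 0 < rho n j := by
  unfold rho
  split_ifs with h
  · obtain ⟨h1, h2⟩ := quad n j hn h.1 h.2
    apply div_pos one_pos
    linarith
  · exact one_pos

/-- the vertices of the target polygon -/
noncomputable def tgt (n j : ℕ) : V :=
  (rho n j * Real.cos (phi n j), rho n j * Real.sin (phi n j), 0)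

/-- the parameters of the vertices of the target polygon on the last side -/
noncomputable def tt (n j : ℕ) : ℝ :=
  if 3 < j ∧ j < n then Real.cos (phi n j) / (Real.cos (phi n j) - Real.sin (phi n j))
  else if j ≤ 3 then 0 else 1

theorem tgt_le (n j : ℕ) (hj : j ≤ 3) : tgt n j = cor j := by
  have hr : rho n j = 1 := by
    unfold rho
    rw [if_neg (by omega)]
  unfold tgt phi
  rw [hr, kap_of_le n j hj]
  interval_cases j
  · simp [cor]
  · simp [cor]
  · have h1 : Real.pi / 2 * ((2 : ℕ) : ℝ) = Real.pi := by push_cast; ring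
    rw [h1]
    simp [cor]
  · have h1 : Real.pi / 2 * ((3 : ℕ) : ℝ) = Real.pi / 2 + Real.pi := by push_cast; ring
    rw [h1, Real.cos_add_pi, Real.sin_add_pi]
    simp [cor]

theorem tgt_ge (n j : ℕ) (hn : 5 ≤ n) (hj : 3 ≤ j) (hjn : j ≤ n) :
    tgt n j = lerp (cor 3) (cor 0) (tt n j) := by
  by_cases h3 : j = 3
  · subst h3
    rw [tgt_le n 3 le_rfl]
    have : tt n 3 = 0 := by
      unfold tt
      rw [if_neg (by omega), if_pos le_rfl]
    rw [this, lerp_zero]
  · by_cases hn' : j = n
    · subst hn'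
      have h1 : tt j j = 1 := by
        unfold tt
        rw [if_neg (by omega), if_neg (by omega)]
      have h2 : rho j j = 1 := by
        unfold rho
        rw [if_neg (by omega)]
      have h4 : phi j j = 2 * Real.pi := by
        unfold phi
        rw [kap_n j hn]
        ring
      rw [h1, lerp_one]
      unfold tgt
      rw [h2, h4, Real.cos_two_pi, Real.sin_two_pi]
      simp [cor]
    · have hj1 : 3 < j := by omega
      have hj2 : j < n := by omega
      obtain ⟨hc, hs⟩ := quad n j hn hj1 hj2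
      have hd : Real.cos (phi n j) - Real.sin (phi n j) ≠ 0 := by
        have : 0 < Real.cos (phi n j) - Real.sin (phi n j) := by linarith
        exact this.ne'
      have h1 : tt n j = Real.cos (phi n j) / (Real.cos (phi n j) - Real.sin (phi n j)) := by
        unfold tt
        rw [if_pos ⟨hj1, hj2⟩]
      have h2 : rho n j = 1 / (Real.cos (phi n j) - Real.sin (phi n j)) := by
        unfold rho
        rw [if_pos ⟨hj1, hj2⟩]
      unfold tgt lerp
      rw [h1, h2]
      simp only [cor]
      ext
      · simp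
        ring
      · simp
        field_simp
        ring
      · simp

theorem tt_mem (n j : ℕ) (hn : 5 ≤ n) : 0 ≤ tt n j ∧ tt n j ≤ 1 := by
  unfold tt
  split_ifs with h1 h2
  · obtain ⟨hc, hs⟩ := quad n j hn h1.1 h1.2
    have hd : 0 < Real.cos (phi n j) - Real.sin (phi n j) := by linarith
    constructor
    · exact div_nonneg hc.le hd.le
    · rw [div_le_one hd]
      linarith
  · exact ⟨le_rfl, zero_le_one⟩
  · exact ⟨zero_le_one, le_rfl⟩

theorem conv_pos (t A B : ℝ) (h0 : 0 ≤ t) (h1 : t ≤ 1) (hA : 0 < A) (hB : 0 < B) :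
    0 < (1 - t) * A + t * B := by
  rcases eq_or_lt_of_le h1 with h | h
  · rw [h]
    linarith
  · have h2 : 0 < (1 - t) * A := mul_pos (by linarith) hA
    have h3 : 0 ≤ t * B := mul_nonneg h0 hB.le
    linarith

/-- the motion -/
noncomputable def gam (n : ℕ) (t : ℝ) (j : Fin n) : V :=
  (((1 - t) + t * rho n j.val) * Real.cos ((1 - t) * (2 * Real.pi * j.val / n) + t * phi n j.val),
    ((1 - t) + t * rho n j.val) * Real.sin ((1 - t) * (2 * Real.pi * j.val / n) + t * phi n j.val),
    0)

end UNRG

open UNRG in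
/-- C4: the regular polygon is not knotted -/
theorem Z_unreg_proof (h1 : Z_polar) (h2 : T_iso) (h3 : T_square) (h4 : X_naf) : Z_unreg := by
  intro n hn hN
  have hn' : (5 : ℝ) ≤ n := by exact_mod_cast hn
  have hpi := Real.pi_pos
  -- the motion
  obtain ⟨h, hh⟩ := h2 n (gam n) (by
    intro i
    unfold gam
    fun_prop) (by
    intro t ht0 ht1
    have := h1 n (fun j => (1 - t) * (2 * Real.pi * j / n) + t * phi n j)
      (fun j => (1 - t) + t * rho n j) (by omega) (by
        intro i
        have hr := rho_pos n i hn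
        rcases eq_or_lt_of_le ht0 with h | h
        · rw [← h]
          norm_num
        · have : 0 < t * rho n i := mul_pos h hr
          have : 0 ≤ 1 - t := by linarith
          linarith) (by
        intro i hi
        obtain ⟨g1, g2⟩ := kap_gap n i hn
        have e1 : (2 * Real.pi * ((i + 1 : ℕ) : ℝ) / n) = 2 * Real.pi * i / n + 2 * Real.pi / n := by
          push_cast
          ring
        have e2 : 0 < 2 * Real.pi / n := by positivity
        have e3 : 2 * Real.pi / n < Real.pi := by
          rw [div_lt_iff₀ (by linarith)]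
          nlinarith
        have e4 : 0 < phi n (i + 1) - phi n i := by
          unfold phi
          nlinarith
        have e5 : phi n (i + 1) - phi n i < Real.pi := by
          unfold phi
          nlinarith
        rw [e1]
        constructor
        · have := conv_pos t _ _ ht0 ht1 e2 e4
          linarith
        · have := conv_pos t (Real.pi - 2 * Real.pi / n) (Real.pi - (phi n (i + 1) - phi n i))
            ht0 ht1 (by linarith) (by linarith)
          linarith) (by
        have e1 : 2 * Real.pi * (n : ℝ) / n = 2 * Real.pi := by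
          field_simp
        have e2 : phi n n = 2 * Real.pi := by
          unfold phi
          rw [kap_n n hn]
          ring
        have e3 : phi n 0 = 0 := by
          unfold phi
          rw [kap_of_le n 0 (by omega)]
          simp
        rw [e1, e2, e3]
        simp
        ring)
    exact this)
  have g0 : List.ofFn (gam n 0) = Rn n := by
    unfold Rn gam
    congr 1
    funext j
    simp
  have g1 : List.ofFn (gam n 1) = List.ofFn (fun j : Fin n => tgt n j.val) := by
    unfold tgt gam
    congr 1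
    funext j
    simp
  have g2 : ps (List.ofFn (fun j : Fin n => tgt n j.val)) =
      ps (List.ofFn (fun j : Fin 4 => cor j.val)) := by
    apply ps_sub n (by omega) cor (by simp [cor]) (tgt n) (tt n)
    · intro j hj
      exact tgt_le n j hj
    · intro j hj hjn
      exact tgt_ge n j hn hj hjn
    · unfold tt
      rw [if_neg (by omega), if_pos le_rfl]
    · unfold tt
      rw [if_neg (by omega), if_neg (by omega)]
    · intro j _ _
      exact tt_mem n j hn
  rw [g0, g1, g2] at hh
  have g3 : (h.trans aff) '' ps (Rn n) = ps sq := by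
    have e1 : (h.trans aff) '' ps (Rn n) = aff '' (h '' ps (Rn n)) := by
      rw [Set.image_image]
      rfl
    rw [e1, hh, image_ps aff aff_lerp, aff_sq]
  obtain ⟨G, _, T, hF, hA⟩ := h4 _ _ (h.trans aff) g3 hN
  exact hA (h3 G T hF)

end CP
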