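import Pool.Agent.H246CP.Stubs

set_option autoImplicit false

namespace CP

open Matrix KN Filter Topology

theorem Z_w36_proof (hloc : S_local) (hamb : T_amb) (hnaf : X_naf) (ht : NAf tre) : Z_w36 := by
  have hs : SAP (.zm :: v0) := by
    unfold SAP
    decide +kernel
  have hsite : site (.zm :: v0) 1 .zp := by
    unfold site
    decide +kernel
  obtain ⟨h, hh⟩ := hamb _ _ (hloc _ _ _ hs hsite)
  have e : Dir.zm :: (ins (.zm :: v0) 1 .zp).tail = ins (.zm :: v0) 1 .zp := rfl
  refine ⟨.zm, (ins (.zm :: v0) 1 .zp).tail, ?_, ?_, ?_⟩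
  · rw [e]
    unfold SAP
    decide +kernel
  · rw [e]
    decide +kernel
  · rw [e]
    exact hnaf _ _ h hh ht

end CP
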